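import Pool.Agent.Lib.MP_739abe_an.BN.Spec

/-!
ARE: area of the boundary.
-/

namespace Pool.Agent.Lib.MP739abe.BN

open Topology Filter Set Metric MeasureTheory Measure
open scoped ENNReal NNReal

noncomputable section

namespace AREM

variable {d : ℕ}

lemma area_image {Y : Type*} [MetricSpace Y] [MeasurableSpace Y] [BorelSpace Y]
    {f : H d → Y} {K : ℝ} (hK : 0 ≤ K) (hf : ∀ x y, dist (f x) (f y) ≤ K * dist x y)
    (s : Set (H d)) :
    μH[(d : ℝ)] (f '' s) ≤ ENNReal.ofReal (K ^ d) * μH[(d : ℝ)] s := by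
  have h := (LipschitzWith.of_dist_le' hf).hausdorffMeasure_image_le (d := (d : ℝ))
    (Nat.cast_nonneg d) s
  refine h.trans (le_of_eq ?_)
  congr 1
  rw [ENNReal.rpow_natCast, ENNReal.ofReal_pow hK]
  rfl

/-- measure of the ball of radius `t` -/
def cb (d : ℕ) (t : ℝ) : ℝ≥0∞ := μH[(d : ℝ)] (closedBall (0 : H d) t)

lemma cb_lt (d : ℕ) (t : ℝ) : cb d t < ⊤ := by
  unfold cb
  have h : IsAddHaarMeasure (μH[(Module.finrank ℝ (H d) : ℝ)] : Measure (H d)) :=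
    isAddHaarMeasure_hausdorffMeasure
  rw [finrank_euclideanSpace_fin] at h
  exact (isCompact_closedBall 0 t).measure_lt_top

lemma dist_V (x y : V d) : dist x y = max ‖x.1 - y.1‖ |x.2 - y.2| := by
  rw [Prod.dist_eq, dist_eq_norm, Real.dist_eq]

/-- a horizontal slice -/
def SQ (d : ℕ) (R h : ℝ) : Set (V d) := {p | (∀ i, |p.1 i| ≤ R) ∧ p.2 = h}

lemma norm_le_of_coord {R : ℝ} (hR : 0 ≤ R) {y : H d} (h : ∀ i, |y i| ≤ R) :
    ‖y‖ ≤ Real.sqrt (d * R ^ 2) := by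
  rw [EuclideanSpace.norm_eq]
  apply Real.sqrt_le_sqrt
  calc ∑ i, ‖y i‖ ^ 2 ≤ ∑ _i : Fin d, R ^ 2 := by
        apply Finset.sum_le_sum
        intro i _
        rw [Real.norm_eq_abs]
        exact pow_le_pow_left₀ (abs_nonneg _) (h i) 2
    _ = d * R ^ 2 := by simp

lemma area_slice (h : ℝ) (t : ℝ) :
    μH[(d : ℝ)] ((fun y : H d => ((y, h) : V d)) '' closedBall 0 t) < ⊤ := by
  refine (area_image (K := 1) zero_le_one (fun x y => ?_) _).trans_lt ?_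
  · rw [one_mul, dist_V]
    simp [dist_eq_norm]
  · rw [one_pow, ENNReal.ofReal_one, one_mul]
    exact cb_lt d t

lemma area_SQ {R : ℝ} (hR : 0 ≤ R) (h : ℝ) : μH[(d : ℝ)] (SQ d R h) < ⊤ := by
  refine (measure_mono ?_).trans_lt (area_slice (d := d) h (Real.sqrt (d * R ^ 2)))
  rintro p ⟨h1, h2⟩
  refine ⟨p.1, ?_, ?_⟩
  · rw [mem_closedBall_zero_iff]
    exact norm_le_of_coord hR h1
  · rw [← h2]

variable [NeZero d] {P : PP d}

lemma w_le (s : St P) : s.w ≤ P.ε / 8 * (1 / 16) ^ s.m := s.hwm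

lemma w_le_one (s : St P) : s.w ≤ 1 := by
  have h1 := s.hwm
  have h2 := P.ε_le
  have h3 := P.ε_pos
  have h4 : ((1 : ℝ) / 16) ^ s.m ≤ 1 := pow_le_one₀ (by norm_num) (by norm_num)
  have h5 : (0 : ℝ) ≤ (1 / 16) ^ s.m := by positivity
  nlinarith

lemma pow_le_self {x : ℝ} (h0 : 0 ≤ x) (h1 : x ≤ 1) {n : ℕ} (hn : n ≠ 0) : x ^ n ≤ x :=
  pow_le_of_le_one h0 h1 hn

/-- node part -/
def AW (s : St P) : Set (V d) := (fun y : H d => s.w • W s.q ((y, 0) : V d)) '' closedBall 0 4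

lemma area_AW (hMAP : SpecMAP) (s : St P) :
    μH[(d : ℝ)] (AW s) ≤ ENNReal.ofReal (5 ^ d) * cb d 4 * ENNReal.ofReal s.w := by
  have hw := s.hw
  have hd : d ≠ 0 := NeZero.ne d
  have h := area_image (K := 5 * s.w) (by positivity) (f := fun y : H d => s.w • W s.q ((y, 0) : V d))
    (fun x y => by
      rw [dist_smul₀, Real.norm_eq_abs, abs_of_pos hw]
      have h1 := (hMAP d).2.1 s.q ((x, 0) : V d) ((y, 0) : V d)
      have h2 : dist ((x, 0) : V d) ((y, 0) : V d) = dist x y := by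
        rw [dist_V]; simp [dist_eq_norm]
      rw [h2] at h1
      calc s.w * dist (W s.q ((x, 0) : V d)) (W s.q ((y, 0) : V d)) ≤ s.w * (5 * dist x y) := by
            gcongr
        _ = _ := by ring) (closedBall 0 4)
  refine h.trans ?_
  have h3 : ENNReal.ofReal ((5 * s.w) ^ d) ≤ ENNReal.ofReal (5 ^ d) * ENNReal.ofReal s.w := by
    rw [← ENNReal.ofReal_mul (by positivity), mul_pow]
    apply ENNReal.ofReal_le_ofReal
    gcongr
    exact pow_le_self hw.le (w_le_one s) hd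
  calc ENNReal.ofReal ((5 * s.w) ^ d) * μH[(d : ℝ)] (closedBall (0 : H d) 4)
      ≤ ENNReal.ofReal (5 ^ d) * ENNReal.ofReal s.w * μH[(d : ℝ)] (closedBall (0 : H d) 4) := by
        gcongr
    _ = _ := by unfold cb; ring

/-- tube part -/
def AT (s : St P) (b : Bool) : Set (V d) :=
  (fun y : H d => s.tube b ((y, 0) : V d)) '' {y | s.rho ≤ ‖y - mp s.q b‖ ∧ ‖y - mp s.q b‖ ≤ s.th}

/-- the floor -/
def FF (d : ℕ) : Set (V d) := {x | x ∈ UU d ∧ x.2 = 0}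

def S0 (s : St P) : Set (V d) := GG s '' {x | x ∈ FF d ∧ s.rho < tau s.q x}

lemma S0_subset (hNOD : SpecNOD) (hL : LimFacts d P) (s : St P) :
    S0 s ⊆ AW s ∪ ⋃ b, AT s b := by
  rintro _ ⟨x, ⟨⟨hx, hx0⟩, ht⟩, rfl⟩
  have hq : s.q ≠ 0 := norm_pos_iff.1 s.q_pos
  obtain ⟨n1, n2, n3, n4, -⟩ := hNOD d s.q hq s.q_le
  have e : ((x.1, 0) : V d) = x := Prod.ext rfl hx0.symm
  have hn : tau s.q x = ‖x.1 - mp s.q (sd s.q x.1)‖ := by
    unfold tau
    rw [hx0, zero_add, n1]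
  rcases le_or_gt (tau s.q x) s.th with h | h
  · right
    refine mem_iUnion.2 ⟨sd s.q x.1, x.1, ⟨?_, ?_⟩, ?_⟩
    · rw [← hn]; exact ht.le
    · rw [← hn]; exact h
    · show s.tube (sd s.q x.1) ((x.1, 0) : V d) = _
      rw [e, hL.B s x hx ht.le h]
  · left
    refine ⟨x.1, ?_, ?_⟩
    · rw [mem_closedBall_zero_iff]
      have := hx.2
      rw [hx0, zero_add] at this
      exact this
    · show s.w • W s.q ((x.1, 0) : V d) = _
      rw [e, hL.A s x hx h.le]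

lemma area_AT (hd : 2 ≤ d) {C₀ : ℝ} (hC0 : 0 ≤ C₀)
    (hC : ∀ (r l h ρ θ : ℝ) (c S e : H d), 0 < r → ‖S‖ ≤ 1 → 0 < ρ → ρ < θ →
      μH[(d : ℝ)] ((fun y : H d => TB r l h c S e ((y, 0) : V d)) ''
        {y | ρ ≤ ‖y - e‖ ∧ ‖y - e‖ ≤ θ}) ≤ ENNReal.ofReal (C₀ * r ^ d * (1 + Real.log (θ / ρ))))
    (hSEQ : SpecSEQ) (hTUB : SpecTUB) (s : St P) (b : Bool) :
    μH[(d : ℝ)] (AT s b) ≤ ENNReal.ofReal (4 * C₀) * ENNReal.ofReal s.w := by
  obtain ⟨t1, -, t3, -⟩ := hTUB d P s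
  have hth := s.th_pos
  have hrho := s.rho_pos
  have hw := s.hw
  have hw1 := w_le_one s
  have hq := s.q_pos
  have hq1 := s.q_le
  have ha : 0 < s.a := (hSEQ d).1 s.m
  have ha2 : s.a ≤ 2 := (hSEQ d).2.2.2.2.2.2.2.2.2.2.1 s.m
  have h := hC (s.w * s.th) (Real.log s.th) (s.w * (‖s.q‖ + s.th)) s.rho s.th
    (s.w • mp s.q b) (s.S b) (mp s.q b) (by positivity) (t3 b) hrho t1
  refine h.trans ?_
  rw [← ENNReal.ofReal_mul (by positivity)]
  apply ENNReal.ofReal_le_ofReal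
  have hlog : Real.log (s.th / s.rho) = (s.a + s.w * ‖s.q‖) / (s.w * s.th) := by
    have e1 : s.th / s.rho = Real.exp ((s.a + s.w * ‖s.q‖) / (s.w * s.th)) := by
      unfold St.rho
      rw [Real.exp_neg]
      field_simp
    rw [e1, Real.log_exp]
  have hr : 0 < s.w * s.th := by positivity
  have hth8 : s.th ≤ 1 / 8 := by unfold St.th; linarith
  have hr1 : s.w * s.th ≤ s.w * (1 / 8) := by gcongr
  have hr2 : s.w * s.th ≤ 1 := by linarith
  obtain ⟨n, rfl⟩ : ∃ n, d = n + 2 := ⟨d - 2, by omega⟩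
  have hp : (s.w * s.th) ^ (n + 1) ≤ s.w * s.th := pow_le_self hr.le hr2 (by omega)
  have e2 : (s.w * s.th) ^ (n + 2) * (1 + Real.log (s.th / s.rho)) =
      (s.w * s.th) ^ (n + 1) * (s.w * s.th + (s.a + s.w * ‖s.q‖)) := by
    rw [hlog, pow_succ (s.w * s.th) (n + 1)]
    field_simp
  have e3 : s.w * s.th + (s.a + s.w * ‖s.q‖) ≤ 4 := by
    have : s.w * ‖s.q‖ ≤ 1 * 1 := by gcongr
    linarith
  have e4 : 0 ≤ s.w * s.th + (s.a + s.w * ‖s.q‖) := by positivity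
  calc C₀ * (s.w * s.th) ^ (n + 2) * (1 + Real.log (s.th / s.rho))
      = C₀ * ((s.w * s.th) ^ (n + 2) * (1 + Real.log (s.th / s.rho))) := by ring
    _ = C₀ * ((s.w * s.th) ^ (n + 1) * (s.w * s.th + (s.a + s.w * ‖s.q‖))) := by rw [e2]
    _ ≤ C₀ * (s.w * 4) := by
        gcongr
        linarith
    _ = 4 * C₀ * s.w := by ring

/-- the constant -/
def CA (d : ℕ) (C₀ : ℝ) : ℝ≥0∞ := ENNReal.ofReal (5 ^ d) * cb d 4 + 2 * ENNReal.ofReal (4 * C₀)

lemma CA_lt (d : ℕ) (C₀ : ℝ) : CA d C₀ < ⊤ := by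
  unfold CA
  have := cb_lt d 4
  refine ENNReal.add_lt_top.2 ⟨ENNReal.mul_lt_top ENNReal.ofReal_lt_top this,
    ENNReal.mul_lt_top (by norm_num) ENNReal.ofReal_lt_top⟩

lemma area_S0 (hd : 2 ≤ d) {C₀ : ℝ} (hC0 : 0 ≤ C₀)
    (hC : ∀ (r l h ρ θ : ℝ) (c S e : H d), 0 < r → ‖S‖ ≤ 1 → 0 < ρ → ρ < θ →
      μH[(d : ℝ)] ((fun y : H d => TB r l h c S e ((y, 0) : V d)) ''
        {y | ρ ≤ ‖y - e‖ ∧ ‖y - e‖ ≤ θ}) ≤ ENNReal.ofReal (C₀ * r ^ d * (1 + Real.log (θ / ρ))))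
    (hSEQ : SpecSEQ) (hMAP : SpecMAP) (hNOD : SpecNOD) (hTUB : SpecTUB) (hL : LimFacts d P)
    (s : St P) : μH[(d : ℝ)] (S0 s) ≤ CA d C₀ * ENNReal.ofReal s.w := by
  calc μH[(d : ℝ)] (S0 s) ≤ μH[(d : ℝ)] (AW s ∪ ⋃ b, AT s b) :=
        measure_mono (S0_subset hNOD hL s)
    _ ≤ μH[(d : ℝ)] (AW s) + μH[(d : ℝ)] (⋃ b, AT s b) := measure_union_le _ _
    _ ≤ ENNReal.ofReal (5 ^ d) * cb d 4 * ENNReal.ofReal s.w +
        ∑ _b : Bool, ENNReal.ofReal (4 * C₀) * ENNReal.ofReal s.w := by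
        gcongr
        · exact area_AW hMAP s
        · refine (measure_iUnion_fintype_le _ _).trans ?_
          apply Finset.sum_le_sum
          intro b _
          exact area_AT hd hC0 hC hSEQ hTUB s b
    _ = CA d C₀ * ENNReal.ofReal s.w := by
        simp only [Finset.sum_const, Finset.card_univ, Fintype.card_bool, nsmul_eq_mul]
        unfold CA
        push_cast
        ring

def SS : ℕ → St P → Set (V d)
  | 0, s => S0 s
  | k + 1, s => ⋃ b, (fun p => ((s.A b, -s.a) : V d) + p) '' SS k (s.ch b)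

lemma area_SS {Cc : ℝ≥0∞} (hS0 : ∀ s : St P, μH[(d : ℝ)] (S0 s) ≤ Cc * ENNReal.ofReal s.w)
    (k : ℕ) : ∀ s : St P, μH[(d : ℝ)] (SS k s) ≤
      2 ^ k * (Cc * ENNReal.ofReal (P.ε / 8 * (1 / 16) ^ (s.m + k))) := by
  induction k with
  | zero =>
    intro s
    rw [pow_zero, one_mul, add_zero]
    refine (hS0 s).trans ?_
    gcongr
    exact s.hwm
  | succ k ih =>
    intro s
    have h1 : ∀ b, μH[(d : ℝ)] ((fun p => ((s.A b, -s.a) : V d) + p) '' SS k (s.ch b)) =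
        μH[(d : ℝ)] (SS k (s.ch b)) := fun b =>
      (isometry_add_left _).hausdorffMeasure_image (Or.inl (Nat.cast_nonneg d)) _
    calc μH[(d : ℝ)] (SS (k + 1) s)
        ≤ ∑ b : Bool, μH[(d : ℝ)] ((fun p => ((s.A b, -s.a) : V d) + p) ''
            SS k (s.ch b)) := measure_iUnion_fintype_le _ _
      _ = ∑ b : Bool, μH[(d : ℝ)] (SS k (s.ch b)) := by simp only [h1]
      _ ≤ ∑ _b : Bool, 2 ^ k * (Cc * ENNReal.ofReal (P.ε / 8 * (1 / 16) ^ (s.m + 1 + k))) := by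
          apply Finset.sum_le_sum
          intro b _
          exact ih (s.ch b)
      _ = 2 ^ (k + 1) * (Cc * ENNReal.ofReal (P.ε / 8 * (1 / 16) ^ (s.m + (k + 1)))) := by
          have : s.m + 1 + k = s.m + (k + 1) := by ring
          rw [this, Finset.sum_const, Finset.card_univ, Fintype.card_bool, nsmul_eq_mul,
            ← mul_assoc, pow_succ']
          norm_num

lemma area_iUnion_SS {Cc : ℝ≥0∞}
    (hS0 : ∀ s : St P, μH[(d : ℝ)] (S0 s) ≤ Cc * ENNReal.ofReal s.w) (s : St P)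
    (hs : s.m = 0) : μH[(d : ℝ)] (⋃ k, SS k s) ≤ Cc * ENNReal.ofReal P.ε := by
  have hε := P.ε_pos
  have hsum : HasSum (fun k : ℕ => P.ε / 8 * (1 / 8) ^ k) (P.ε / 8 * (1 - 1 / 8)⁻¹) :=
    (hasSum_geometric_of_lt_one (by norm_num) (by norm_num)).mul_left _
  have h1 : ∀ k, μH[(d : ℝ)] (SS k s) ≤ Cc * ENNReal.ofReal (P.ε / 8 * (1 / 8) ^ k) := by
    intro k
    refine (area_SS hS0 k s).trans (le_of_eq ?_)
    have e1 : (2 : ℝ≥0∞) ^ k = ENNReal.ofReal (2 ^ k) := by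
      rw [ENNReal.ofReal_pow (by norm_num)]; norm_num
    rw [mul_left_comm, e1, ← ENNReal.ofReal_mul (by positivity), hs, zero_add]
    congr 2
    have : (2 : ℝ) ^ k * (1 / 16) ^ k = (1 / 8) ^ k := by rw [← mul_pow]; norm_num
    rw [← this]; ring
  calc μH[(d : ℝ)] (⋃ k, SS k s) ≤ ∑' k, μH[(d : ℝ)] (SS k s) := measure_iUnion_le _
    _ ≤ ∑' k : ℕ, Cc * ENNReal.ofReal (P.ε / 8 * (1 / 8) ^ k) := ENNReal.tsum_le_tsum h1
    _ = Cc * ∑' k : ℕ, ENNReal.ofReal (P.ε / 8 * (1 / 8) ^ k) := ENNReal.tsum_mul_left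
    _ = Cc * ENNReal.ofReal (P.ε / 8 * (1 - 1 / 8)⁻¹) := by
        rw [← ENNReal.ofReal_tsum_of_nonneg (fun k => by positivity) hsum.summable,
          hsum.tsum_eq]
    _ ≤ Cc * ENNReal.ofReal P.ε := by
        gcongr
        have : (1 - 1 / 8 : ℝ)⁻¹ = 8 / 7 := by norm_num
        rw [this]
        linarith

lemma floor_aux (hSEQ : SpecSEQ) (hL : LimFacts d P) (k : ℕ) : ∀ s : St P, ∀ x ∈ FF d,
    (∀ j, GG s x ∉ SS j s) → (GG s x).2 ≤ -vv d s.m + 2 * vv d (s.m + k) := by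
  obtain ⟨-, -, -, -, -, q6, -, q8, q9, -⟩ := hSEQ d
  induction k with
  | zero =>
    intro s x hx _
    have h1 := (hL.bd s x hx.1).2.2
    have h2 : 4 * s.w ≤ vv d s.m := by
      have h3 := s.hwm
      have h4 := q9 s.m (dm d s.m)
      have h5 := q8 s.m (dm d s.m)
      have h6 := P.ε_le
      have h7 : P.ε / 8 * (1 / 16) ^ s.m ≤ (1 / 16 : ℝ) ^ s.m / 8 := by
        have h8 : (0 : ℝ) ≤ (1 / 16) ^ s.m := by positivity
        calc P.ε / 8 * (1 / 16) ^ s.m ≤ 1 / 8 * (1 / 16) ^ s.m := by gcongr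
          _ = _ := by ring
      linarith
    rw [add_zero]
    linarith
  | succ k ih =>
    intro s x hx h
    obtain ⟨hx, hx0⟩ := hx
    have ht : tau s.q x ≤ s.rho := by
      by_contra hc
      push Not at hc
      exact h 0 ⟨x, ⟨⟨hx, hx0⟩, hc⟩, rfl⟩
    have h1 : s.sub (sd s.q x.1) x ∈ FF d := by
      refine ⟨hL.sub s x hx ht, ?_⟩
      show 4 / s.rho * x.2 = 0
      rw [hx0, mul_zero]
    have h2 : ∀ j, GG (s.ch (sd s.q x.1)) (s.sub (sd s.q x.1) x) ∉ SS j (s.ch (sd s.q x.1)) := by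
      intro j hj
      apply h (j + 1)
      rw [hL.C s x hx ht]
      exact mem_iUnion.2 ⟨sd s.q x.1, _, hj, rfl⟩
    have h3 := ih _ _ h1 h2
    have h4 := congrArg Prod.snd (hL.C s x hx ht)
    have h5 : (GG s x).2 = -s.a + (GG (s.ch (sd s.q x.1)) (s.sub (sd s.q x.1) x)).2 := h4
    have e0 : (s.ch (sd s.q x.1)).m = s.m + 1 := rfl
    have e : s.m + 1 + k = s.m + (k + 1) := by ring
    rw [e0, e] at h3
    have h6 : s.a + vv d (s.m + 1) = vv d s.m := q6 s.m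
    linarith

lemma tendsto_vv (hSEQ : SpecSEQ) (m : ℕ) :
    Tendsto (fun k => 2 * vv d (m + k)) atTop (𝓝 0) := by
  obtain ⟨-, -, -, -, -, -, -, -, -, -, -, q12⟩ := hSEQ d
  have h1 : Tendsto (fun k => vv d (m + k)) atTop (𝓝 0) :=
    q12.comp (tendsto_atTop_mono (fun k => Nat.le_add_left k m) tendsto_id)
  simpa using h1.const_mul 2

/-- the roof -/
def RF (s : St P) : Set (V d) := (fun y : H d => ((s.w • y, s.w * 4) : V d)) '' closedBall 0 4

lemma area_RF (s : St P) : μH[(d : ℝ)] (RF s) ≤ cb d 4 * ENNReal.ofReal s.w := by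
  have hw := s.hw
  have h := area_image (K := s.w) hw.le (f := fun y : H d => ((s.w • y, s.w * 4) : V d))
    (fun x y => by
      rw [dist_V]
      simp only [sub_self, abs_zero]
      rw [← smul_sub, norm_smul, Real.norm_eq_abs, abs_of_pos hw, dist_eq_norm]
      exact max_le le_rfl (by positivity)) (closedBall 0 4)
  refine h.trans ?_
  rw [mul_comm]
  unfold cb
  gcongr
  exact pow_le_self hw.le (w_le_one s) (NeZero.ne d)

lemma bottom_le (hSEQ : SpecSEQ) (hL : LimFacts d P) (s : St P) {x : V d} (hx : x ∈ FF d)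
    (h : ∀ j, GG s x ∉ SS j s) : (GG s x).2 = -vv d s.m := by
  have h1 := (tendsto_vv (d := d) hSEQ s.m).const_add (-vv d s.m)
  rw [add_zero] at h1
  exact le_antisymm (ge_of_tendsto' h1 fun k => floor_aux hSEQ hL k s x hx h)
    (hL.bd s x hx.1).2.1

lemma boundary_cases (hSEQ : SpecSEQ) (hNOD : SpecNOD) (hL : LimFacts d P) (s : St P) :
    ∀ p ∈ GG s '' (UU d \ UI d), p ∈ (⋃ k, SS k s) ∨ p ∈ RF s ∨ p.2 = -vv d s.m := by
  rintro _ ⟨x, ⟨hx, hx1⟩, rfl⟩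
  by_cases h0 : x.2 = 0
  · by_cases h : ∃ j, GG s x ∈ SS j s
    · obtain ⟨j, hj⟩ := h
      exact Or.inl (mem_iUnion.2 ⟨j, hj⟩)
    · push Not at h
      exact Or.inr (Or.inr (bottom_le hSEQ hL s ⟨hx, h0⟩ h))
  · right; left
    have h2 : 0 < x.2 := lt_of_le_of_ne hx.1 (Ne.symm h0)
    have h3 : x.2 + ‖x.1‖ = 4 := by
      apply le_antisymm hx.2
      by_contra hc
      push Not at hc
      exact hx1 ⟨h2, hc⟩
    have hq : s.q ≠ 0 := norm_pos_iff.1 s.q_pos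
    have hq1 := s.q_le
    obtain ⟨-, -, -, n4, -, n6, -⟩ := hNOD d s.q hq s.q_le
    have h4 := n4 x.1
    have h5 : s.th ≤ tau s.q x := by
      unfold tau St.th
      linarith
    refine ⟨x.1, ?_, ?_⟩
    · rw [mem_closedBall_zero_iff]
      linarith
    · rw [hL.A s x hx h5, n6 x h3]
      rfl

end AREM

open AREM in
theorem specARE (hSEQ : SpecSEQ) (hMAP : SpecMAP) (hNOD : SpecNOD) (hTUB : SpecTUB)
    (hLIM : SpecLIM) (hTUA : SpecTUA) : SpecARE := by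
  intro d hd
  obtain ⟨C₀, hC0, hC⟩ := hTUA d
  refine ⟨CA d C₀ + cb d 4, ENNReal.add_lt_top.2 ⟨CA_lt d C₀, cb_lt d 4⟩, ?_⟩
  intro _ P s hs
  have hL : LimFacts d P := hLIM d P
  have hS0 : ∀ s : St P, μH[(d : ℝ)] (S0 s) ≤ CA d C₀ * ENNReal.ofReal s.w :=
    fun s => area_S0 hd hC0 hC hSEQ hMAP hNOD hTUB hL s
  have hcase := boundary_cases hSEQ hNOD hL s
  have hε := P.ε_pos
  have hwε : ENNReal.ofReal s.w ≤ ENNReal.ofReal P.ε := by
    apply ENNReal.ofReal_le_ofReal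
    have := s.hwm
    rw [hs, pow_zero, mul_one] at this
    linarith
  have hmain : μH[(d : ℝ)] ((⋃ k, SS k s) ∪ RF s) ≤ (CA d C₀ + cb d 4) * ENNReal.ofReal P.ε := by
    refine (measure_union_le _ _).trans ?_
    rw [add_mul]
    refine add_le_add (area_iUnion_SS hS0 s hs) ((area_RF s).trans ?_)
    gcongr
  constructor
  · refine (measure_mono ?_).trans hmain
    rintro p ⟨hp, hp2⟩
    rcases hcase p hp with h | h | h
    · exact Or.inl h
    · exact Or.inr h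
    · exact absurd (by rw [hs] at h; exact h) hp2
  · have hv : 0 ≤ vv d 0 := ((hSEQ d).2.2.2.2.2.2.1 0).le
    have h1 : GG s '' (UU d \ UI d) ⊆ ((⋃ k, SS k s) ∪ RF s) ∪ SQ d (vv d 0) (-vv d 0) := by
      intro p hp
      rcases hcase p hp with h | h | h
      · exact Or.inl (Or.inl h)
      · exact Or.inl (Or.inr h)
      · right
        rw [hs] at h
        obtain ⟨x, ⟨hx, -⟩, rfl⟩ := hp
        refine ⟨fun i => ?_, h⟩
        have h2 := (hL.bd s x hx).1 i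
        have h3 := (hSEQ d).2.2.2.2.2.2.2.1 s.m i
        rw [hs] at h2 h3
        exact h2.trans h3
    refine (measure_mono h1).trans_lt ((measure_union_le _ _).trans_lt ?_)
    refine ENNReal.add_lt_top.2 ⟨hmain.trans_lt ?_, area_SQ hv _⟩
    exact ENNReal.mul_lt_top (ENNReal.add_lt_top.2 ⟨CA_lt d C₀, cb_lt d 4⟩) ENNReal.ofReal_lt_top

end

end Pool.Agent.Lib.MP739abe.BN
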