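import Mathlib

/-!
Local scaled bi-Lipschitz maps with a local inverse, their composition and their gluing.
-/

namespace Pool.Agent.Lib.MP739abe.BN

open Topology Filter Set Metric

/-- `f` is, near `x`, a homeomorphism with `dist (f y) (f z)` comparable to `l * dist y z` up to the
factor `K`. -/
def QB {X Y : Type*} [PseudoMetricSpace X] [PseudoMetricSpace Y] (K l : ℝ) (f : X → Y) (x : X) :
    Prop :=
  ∃ g : Y → X, ∃ N ∈ 𝓝 x, ∃ M ∈ 𝓝 (f x),
    (∀ y ∈ N, ∀ z ∈ N, dist (f y) (f z) ≤ K * l * dist y z) ∧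
    (∀ p ∈ M, ∀ q ∈ M, dist (g p) (g q) ≤ K / l * dist p q) ∧
    (∀ y ∈ N, g (f y) = y) ∧ (∀ p ∈ M, f (g p) = p)

section basic

variable {X Y Z : Type*} [PseudoMetricSpace X] [PseudoMetricSpace Y] [PseudoMetricSpace Z]

lemma continuousAt_of_lip {f : X → Y} {x : X} {C : ℝ} {N : Set X} (hN : N ∈ 𝓝 x)
    (h : ∀ y ∈ N, ∀ z ∈ N, dist (f y) (f z) ≤ C * dist y z) : ContinuousAt f x := by
  rw [ContinuousAt, tendsto_iff_dist_tendsto_zero]
  have hx : x ∈ N := mem_of_mem_nhds hN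
  refine squeeze_zero' (Eventually.of_forall fun _ => dist_nonneg) (g := fun y => C * dist y x)
    ?_ ?_
  · filter_upwards [hN] with y hy using h y hy x hx
  · have : Tendsto (fun y => C * dist y x) (𝓝 x) (𝓝 (C * dist x x)) := by
      have hc : Continuous fun y => C * dist y x := by fun_prop
      exact hc.tendsto x
    simpa using this

lemma QB.continuousAt {K l : ℝ} {f : X → Y} {x : X} (h : QB K l f x) : ContinuousAt f x := by
  obtain ⟨g, N, hN, M, hM, h1, h2, h3, h4⟩ := h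
  exact continuousAt_of_lip hN h1

lemma QB.congr {K l : ℝ} {f f' : X → Y} {x : X} (h : QB K l f x) (hf : f' =ᶠ[𝓝 x] f) :
    QB K l f' x := by
  have hcont := h.continuousAt
  obtain ⟨g, N, hN, M, hM, h1, h2, h3, h4⟩ := h
  have hfx : f' x = f x := hf.eq_of_nhds
  have hx : x ∈ N := mem_of_mem_nhds hN
  have hS : {y | f' y = f y} ∈ 𝓝 x := hf
  have hg : ContinuousAt g (f x) := continuousAt_of_lip hM h2
  have hgx : g (f x) = x := h3 x hx
  have hg' : g ⁻¹' {y | f' y = f y} ∈ 𝓝 (f x) := by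
    apply hg
    rw [hgx]; exact hS
  refine ⟨g, N ∩ {y | f' y = f y}, inter_mem hN hS, M ∩ g ⁻¹' {y | f' y = f y}, ?_, ?_, ?_, ?_, ?_⟩
  · rw [hfx]; exact inter_mem hM hg'
  · rintro y ⟨hy, hy'⟩ z ⟨hz, hz'⟩
    rw [mem_setOf_eq] at hy' hz'
    rw [hy', hz']; exact h1 y hy z hz
  · rintro p ⟨hp, _⟩ q ⟨hq, _⟩
    exact h2 p hp q hq
  · rintro y ⟨hy, hy'⟩
    rw [mem_setOf_eq] at hy'
    rw [hy']; exact h3 y hy
  · rintro p ⟨hp, hp'⟩
    have : f' (g p) = f (g p) := hp'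
    rw [this]; exact h4 p hp

lemma QB.comp {K l K' l' : ℝ} {f : X → Y} {f' : Y → Z} {x : X} (hK : 0 ≤ K) (hl : 0 < l)
    (hK' : 0 ≤ K') (hl' : 0 < l')
    (h : QB K l f x) (h' : QB K' l' f' (f x)) : QB (K' * K) (l' * l) (f' ∘ f) x := by
  have hcont := h.continuousAt
  obtain ⟨g, N, hN, M, hM, h1, h2, h3, h4⟩ := h
  obtain ⟨g', N', hN', M', hM', h1', h2', h3', h4'⟩ := h'
  have hx : x ∈ N := mem_of_mem_nhds hN
  have hx' : f x ∈ N' := mem_of_mem_nhds hN'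
  have hg' : ContinuousAt g' (f' (f x)) := continuousAt_of_lip hM' h2'
  have hgx' : g' (f' (f x)) = f x := h3' _ hx'
  refine ⟨g ∘ g', N ∩ f ⁻¹' N', inter_mem hN (hcont hN'), M' ∩ g' ⁻¹' M, ?_, ?_, ?_, ?_, ?_⟩
  · apply inter_mem hM'
    apply hg'
    rw [hgx']; exact hM
  · rintro y ⟨hy, hy'⟩ z ⟨hz, hz'⟩
    calc dist ((f' ∘ f) y) ((f' ∘ f) z) ≤ K' * l' * dist (f y) (f z) := h1' _ hy' _ hz'
      _ ≤ K' * l' * (K * l * dist y z) := by
          apply mul_le_mul_of_nonneg_left (h1 y hy z hz) (by positivity)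
      _ = K' * K * (l' * l) * dist y z := by ring
  · rintro p ⟨hp, hp'⟩ q ⟨hq, hq'⟩
    calc dist ((g ∘ g') p) ((g ∘ g') q) ≤ K / l * dist (g' p) (g' q) := h2 _ hp' _ hq'
      _ ≤ K / l * (K' / l' * dist p q) := by
          apply mul_le_mul_of_nonneg_left (h2' p hp q hq) (by positivity)
      _ = K' * K / (l' * l) * dist p q := by field_simp
  · rintro y ⟨hy, hy'⟩
    show g (g' (f' (f y))) = y
    rw [h3' _ hy', h3 _ hy]
  · rintro p ⟨hp, hp'⟩
    show f' (f (g (g' p))) = p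
    rw [h4 _ hp', h4' _ hp]

lemma QB.mono {K K' l : ℝ} {f : X → Y} {x : X} (hl : 0 < l) (hK : K ≤ K')
    (h : QB K l f x) : QB K' l f x := by
  obtain ⟨g, N, hN, M, hM, h1, h2, h3, h4⟩ := h
  refine ⟨g, N, hN, M, hM, ?_, ?_, h3, h4⟩
  · intro y hy z hz
    exact (h1 y hy z hz).trans (mul_le_mul_of_nonneg_right
      (mul_le_mul_of_nonneg_right hK hl.le) dist_nonneg)
  · intro y hy z hz
    exact (h2 y hy z hz).trans (mul_le_mul_of_nonneg_right
      (div_le_div_of_nonneg_right hK hl.le) dist_nonneg)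

lemma QB.rescale {K l K' l' : ℝ} {f : X → Y} {x : X} (h1 : K * l ≤ K' * l') (h2 : K / l ≤ K' / l')
    (h : QB K l f x) : QB K' l' f x := by
  obtain ⟨g, N, hN, M, hM, h3, h4, h5, h6⟩ := h
  refine ⟨g, N, hN, M, hM, ?_, ?_, h5, h6⟩
  · intro y hy z hz
    exact (h3 y hy z hz).trans (mul_le_mul_of_nonneg_right h1 dist_nonneg)
  · intro y hy z hz
    exact (h4 y hy z hz).trans (mul_le_mul_of_nonneg_right h2 dist_nonneg)

lemma QB.of_global {K l : ℝ} {f : X → Y} {g : Y → X}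
    (h1 : ∀ y z, dist (f y) (f z) ≤ K * l * dist y z)
    (h2 : ∀ p q, dist (g p) (g q) ≤ K / l * dist p q)
    (h3 : ∀ y, g (f y) = y) (h4 : ∀ p, f (g p) = p) (x : X) : QB K l f x :=
  ⟨g, univ, univ_mem, univ, univ_mem, fun y _ z _ => h1 y z, fun y _ z _ => h2 y z,
    fun y _ => h3 y, fun y _ => h4 y⟩

/-- openness -/
lemma QB.open_at {K l : ℝ} {f : X → Y} {x : X} (h : QB K l f x) {S : Set X} (hS : S ∈ 𝓝 x) :
    f '' S ∈ 𝓝 (f x) := by
  obtain ⟨g, N, hN, M, hM, h1, h2, h3, h4⟩ := h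
  have hx : x ∈ N := mem_of_mem_nhds hN
  have hg : ContinuousAt g (f x) := continuousAt_of_lip hM h2
  have hgx : g (f x) = x := h3 x hx
  have : g ⁻¹' S ∈ 𝓝 (f x) := by
    apply hg; rw [hgx]; exact hS
  filter_upwards [hM, this] with p hp hp'
  exact ⟨g p, hp', h4 p hp⟩

/-- two-sided estimate -/
lemma QB.two_sided {K l : ℝ} {f : X → Y} {x : X} (hK : 0 < K) (hl : 0 < l) (h : QB K l f x) :
    ∃ N ∈ 𝓝 x, ∀ y ∈ N, ∀ z ∈ N, l / K * dist y z ≤ dist (f y) (f z) ∧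
      dist (f y) (f z) ≤ K * l * dist y z := by
  have hcont := h.continuousAt
  obtain ⟨g, N, hN, M, hM, h1, h2, h3, h4⟩ := h
  refine ⟨N ∩ f ⁻¹' M, inter_mem hN (hcont hM), ?_⟩
  rintro y ⟨hy, hy'⟩ z ⟨hz, hz'⟩
  refine ⟨?_, h1 y hy z hz⟩
  have := h2 _ hy' _ hz'
  rw [h3 y hy, h3 z hz] at this
  calc l / K * dist y z ≤ l / K * (K / l * dist (f y) (f z)) := by
        apply mul_le_mul_of_nonneg_left this (by positivity)
    _ = dist (f y) (f z) := by field_simp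

end basic

section glue

variable {X Y : Type*} [NormedAddCommGroup X] [NormedSpace ℝ X] [NormedAddCommGroup Y]
  [NormedSpace ℝ Y]

/-- a Lipschitz estimate for a map glued along the zero set of a continuous function -/
lemma glue_lip {f f1 f2 : X → Y} {a : X → ℝ} {C : ℝ} {B : Set X} (hB : Convex ℝ B)
    (ha : ContinuousOn a B)
    (h1 : ∀ y ∈ B, ∀ z ∈ B, dist (f1 y) (f1 z) ≤ C * dist y z)
    (h2 : ∀ y ∈ B, ∀ z ∈ B, dist (f2 y) (f2 z) ≤ C * dist y z)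
    (hp : ∀ y ∈ B, 0 ≤ a y → f y = f1 y) (hn : ∀ y ∈ B, a y ≤ 0 → f y = f2 y) :
    ∀ y ∈ B, ∀ z ∈ B, dist (f y) (f z) ≤ C * dist y z := by
  have key : ∀ y ∈ B, ∀ z ∈ B, 0 ≤ a y → a z ≤ 0 → dist (f y) (f z) ≤ C * dist y z := by
    intro y hy z hz hay haz
    have hseg : segment ℝ z y ⊆ B := hB.segment_subset hz hy
    have hc : ContinuousOn a (segment ℝ z y) := ha.mono hseg
    have hpre : IsPreconnected (segment ℝ z y) := (convex_segment z y).isPreconnected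
    obtain ⟨p, hp1, hp2⟩ := hpre.intermediate_value (left_mem_segment ℝ z y)
      (right_mem_segment ℝ z y) hc ⟨haz, hay⟩
    have hpB : p ∈ B := hseg hp1
    have e1 : f p = f1 p := hp p hpB hp2.ge
    have e2 : f p = f2 p := hn p hpB hp2.le
    have hd : dist y p + dist p z = dist y z := by
      rw [segment_symm] at hp1
      exact dist_add_dist_of_mem_segment hp1
    calc dist (f y) (f z) ≤ dist (f y) (f p) + dist (f p) (f z) := dist_triangle _ _ _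
      _ ≤ C * dist y p + C * dist p z := by
          apply add_le_add
          · rw [hp y hy hay, e1]; exact h1 y hy p hpB
          · rw [hn z hz haz, e2]; exact h2 p hpB z hz
      _ = C * dist y z := by rw [← mul_add, hd]
  intro y hy z hz
  rcases le_total 0 (a y) with h | h <;> rcases le_total 0 (a z) with h' | h'
  · rw [hp y hy h, hp z hz h']; exact h1 y hy z hz
  · exact key y hy z hz h h'
  · rw [dist_comm, dist_comm y z]; exact key z hz y hy h' h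
  · rw [hn y hy h, hn z hz h']; exact h2 y hy z hz

lemma QB.glue {f f1 f2 : X → Y} {a : X → ℝ} {b : Y → ℝ} {K l : ℝ} {x : X}
    (ha : Continuous a) (hb : Continuous b) (hax : a x = 0)
    (h1 : QB K l f1 x) (h2 : QB K l f2 x)
    (hp : ∀ᶠ y in 𝓝 x, 0 ≤ a y → f y = f1 y) (hn : ∀ᶠ y in 𝓝 x, a y ≤ 0 → f y = f2 y)
    (hs1 : ∀ᶠ y in 𝓝 x, (0 ≤ b (f1 y) ↔ 0 ≤ a y) ∧ (b (f1 y) ≤ 0 ↔ a y ≤ 0))
    (hs2 : ∀ᶠ y in 𝓝 x, (0 ≤ b (f2 y) ↔ 0 ≤ a y) ∧ (b (f2 y) ≤ 0 ↔ a y ≤ 0)) :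
    QB K l f x := by
  have hc1 := h1.continuousAt
  have hc2 := h2.continuousAt
  obtain ⟨g1, N1, hN1, M1, hM1, p1, q1, r1, s1⟩ := h1
  obtain ⟨g2, N2, hN2, M2, hM2, p2, q2, r2, s2⟩ := h2
  have e1 : f x = f1 x := hp.self_of_nhds hax.ge
  have e2 : f x = f2 x := hn.self_of_nhds hax.le
  rw [← e1] at hM1
  rw [← e2] at hM2
  have hg1 : ContinuousAt g1 (f x) := continuousAt_of_lip hM1 q1
  have hg2 : ContinuousAt g2 (f x) := continuousAt_of_lip hM2 q2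
  have hg1x : g1 (f x) = x := by rw [e1]; exact r1 x (mem_of_mem_nhds hN1)
  have hg2x : g2 (f x) = x := by rw [e2]; exact r2 x (mem_of_mem_nhds hN2)
  -- the good set in the source
  set S : Set X := {y | (0 ≤ a y → f y = f1 y) ∧ (a y ≤ 0 → f y = f2 y) ∧
    ((0 ≤ b (f1 y) ↔ 0 ≤ a y) ∧ (b (f1 y) ≤ 0 ↔ a y ≤ 0)) ∧
    ((0 ≤ b (f2 y) ↔ 0 ≤ a y) ∧ (b (f2 y) ≤ 0 ↔ a y ≤ 0)) ∧ y ∈ N1 ∧ y ∈ N2} with hS
  have hSx : S ∈ 𝓝 x := by
    filter_upwards [hp, hn, hs1, hs2, hN1, hN2] with y a1 a2 a3 a4 a5 a6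
    exact ⟨a1, a2, a3, a4, a5, a6⟩
  have hT1 : g1 ⁻¹' S ∈ 𝓝 (f x) := by apply hg1; rw [hg1x]; exact hSx
  have hT2 : g2 ⁻¹' S ∈ 𝓝 (f x) := by apply hg2; rw [hg2x]; exact hSx
  obtain ⟨δ, hδ, hδS⟩ := Metric.mem_nhds_iff.1 hSx
  obtain ⟨ε, hε, hεS⟩ := Metric.mem_nhds_iff.1 (inter_mem (inter_mem hM1 hM2) (inter_mem hT1 hT2))
  classical
  set g : Y → X := fun p => if 0 ≤ b p then g1 p else g2 p with hg
  -- on the zero set of `b` the two inverses agree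
  have hzero : ∀ p ∈ ball (f x) ε, b p = 0 → g1 p = g2 p := by
    intro p hpB hbp
    obtain ⟨⟨m1, m2⟩, t1, t2⟩ := hεS hpB
    have t1' : g1 p ∈ S := t1
    obtain ⟨u1, u2, u3, u4, u5, u6⟩ := t1'
    have hf1 : f1 (g1 p) = p := s1 p m1
    rw [hf1] at u3
    have ha0 : 0 ≤ a (g1 p) := u3.1.1 hbp.ge
    have ha1 : a (g1 p) ≤ 0 := u3.2.1 hbp.le
    have : f2 (g1 p) = p := by rw [← u2 ha1, u1 ha0, hf1]
    rw [← r2 (g1 p) u6, this]
  refine ⟨g, ball x δ, ball_mem_nhds _ hδ, ball (f x) ε, ball_mem_nhds _ hε, ?_, ?_, ?_, ?_⟩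
  · apply glue_lip (convex_ball x δ) ha.continuousOn
    · intro y hy z hz
      exact p1 y (hδS hy).2.2.2.2.1 z (hδS hz).2.2.2.2.1
    · intro y hy z hz
      exact p2 y (hδS hy).2.2.2.2.2 z (hδS hz).2.2.2.2.2
    · intro y hy; exact (hδS hy).1
    · intro y hy; exact (hδS hy).2.1
  · apply glue_lip (f1 := g1) (f2 := g2) (convex_ball (f x) ε) hb.continuousOn
    · intro y hy z hz
      exact q1 y (hεS hy).1.1 z (hεS hz).1.1
    · intro y hy z hz
      exact q2 y (hεS hy).1.2 z (hεS hz).1.2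
    · intro p hpB hbp; simp only [hg, if_pos hbp]
    · intro p hpB hbp
      rcases hbp.lt_or_eq with h | h
      · simp only [hg, if_neg (not_le.2 h)]
      · simp only [hg, if_pos h.ge]; exact hzero p hpB h
  · intro y hy
    obtain ⟨u1, u2, u3, u4, u5, u6⟩ := hδS hy
    rcases le_total 0 (a y) with h | h
    · rw [u1 h]; simp only [hg, if_pos (u3.1.2 h)]; exact r1 y u5
    · rcases h.lt_or_eq with h' | h'
      · rw [u2 h]
        have : ¬ 0 ≤ b (f2 y) := fun h0 => absurd (u4.1.1 h0) (not_le.2 h')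
        simp only [hg, if_neg this]; exact r2 y u6
      · rw [u1 h'.ge]; simp only [hg, if_pos (u3.1.2 h'.ge)]; exact r1 y u5
  · intro p hpB
    obtain ⟨⟨m1, m2⟩, t1, t2⟩ := hεS hpB
    by_cases hbp : 0 ≤ b p
    · simp only [hg, if_pos hbp]
      obtain ⟨u1, u2, u3, u4, u5, u6⟩ := (show g1 p ∈ S from t1)
      have hf1 : f1 (g1 p) = p := s1 p m1
      rw [hf1] at u3
      rw [u1 (u3.1.1 hbp), hf1]
    · simp only [hg, if_neg hbp]
      obtain ⟨u1, u2, u3, u4, u5, u6⟩ := (show g2 p ∈ S from t2)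
      have hf2 : f2 (g2 p) = p := s2 p m2
      rw [hf2] at u4
      rw [u2 (u4.2.1 (not_le.1 hbp).le), hf2]

end glue

end Pool.Agent.Lib.MP739abe.BN
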