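import Mathlib
import Pool.Agent.Lib.MP_739abe_an.BN.QB

/-!
MP_739abe_an, the exceptional sets of boundary absolute continuity: definitions.

`H d` is the horizontal space, `V d` the model space (horizontal space times vertical axis).
The source is the half ball `UU d`; a state `s` is a point `p` of the given set `C` in the floor, a
scale `R`, a width `w` and a level `m`.  In the coordinates of `s` the two marked points are `0` (the
point `p` itself) and `q` (a second point of `C` at distance at most `R` from `p`, chosen once and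
for all).  The limit map `GG s` is a node map `w W` away from the marked points, a logarithmic tube
near each marked point, and a shifted copy of the map of a child state very near to it.
-/

namespace Pool.Agent.Lib.MP739abe.BN

open Topology Filter Set Metric MeasureTheory Measure
open scoped ENNReal NNReal

noncomputable section

/-- the horizontal space -/
abbrev H (d : ℕ) : Type := EuclideanSpace ℝ (Fin d)

/-- the model space, with the maximum of the Euclidean norm and of the absolute value -/
abbrev V (d : ℕ) : Type := H d × ℝ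

variable {d : ℕ}

/-! ### the node -/

/-- the marked points of a node: `0` and `q` -/
def mp (q : H d) (b : Bool) : H d := if b then q else 0

/-- the side: which marked point is nearest -/
def sd (q y : H d) : Bool := decide (‖y - q‖ < ‖y‖)

/-- the distance to the two marked points -/
def nn (q y : H d) : ℝ := min ‖y‖ ‖y - q‖

def dd (q y : H d) : ℝ := ‖q‖ + nn q y - ‖y‖

def tau (q : H d) (x : V d) : ℝ := x.2 + nn q x.1

def ZZ (η s t : ℝ) : ℝ := max s (min (s + t) (s / 2 + 2 * η))

/-- the node map -/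
def W (q : H d) (x : V d) : V d := (x.1, ZZ ‖q‖ (x.2 + ‖x.1‖) (dd q x.1))

/-- its inverse -/
def Wi (q : H d) (p : V d) : V d :=
  (p.1, min p.2 (max (p.2 - dd q p.1) (2 * p.2 - 4 * ‖q‖)) - ‖p.1‖)

/-! ### the tube -/

/-- cone coordinates at `e` -/
def Ne (e : H d) (x : V d) : V d := (x.1 - e, x.2 + ‖x.1 - e‖)

/-- logarithmic coordinates in a cone -/
def Lg (x : V d) : V d := (x.2⁻¹ • x.1, Real.log x.2)

/-- from cylinder coordinates to the sheared tube of radius `r` and slope `S` -/
def Sh (r l h : ℝ) (c S : H d) (p : V d) : V d :=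
  (c - (r * (p.2 - l)) • S + r • p.1, h + r * (p.2 - l))

/-- the tube map at the marked point `e` -/
def TB (r l h : ℝ) (c S e : H d) (x : V d) : V d := Sh r l h c S (Lg (Ne e x))

/-! ### the sequences -/

def rr (k : ℕ) : ℝ := (1 / 2) ^ k + (1 / 4) ^ k

/-- the number of splittings in direction `i` before level `m` -/
def Ni (d m i : ℕ) : ℕ := (m + (d - 1 - i)) / d

/-- half extent in direction `i` of the images at level `m` -/
def RR (d m : ℕ) (i : Fin d) : ℝ := rr (Ni d m i)

/-- the displacement at level `m` -/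
def aa (d m : ℕ) : ℝ := rr (m / d) - rr (m / d + 1)

/-- the depth below level `m` -/
def vv (d m : ℕ) : ℝ := ∑ i : Fin d, RR d m i

/-- the direction of level `m` -/
def dm (d : ℕ) [NeZero d] (m : ℕ) : Fin d := ⟨m % d, Nat.mod_lt _ (NeZero.pos d)⟩

/-! ### the states -/

/-- the data: a set `C` without isolated points in the horizontal space, and a small number -/
structure PP (d : ℕ) where
  C : Set (H d)
  acc : ∀ p ∈ C, ∀ R : ℝ, 0 < R → ∃ q ∈ C, q ≠ p ∧ ‖q - p‖ ≤ R
  ε : ℝ
  ε_pos : 0 < ε
  ε_le : ε ≤ 1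

/-- a state -/
structure St (P : PP d) where
  p : H d
  R : ℝ
  w : ℝ
  m : ℕ
  hp : p ∈ P.C
  hR : 0 < R
  hw : 0 < w
  hwm : w ≤ P.ε / 8 * (1 / 16) ^ m

variable {P : PP d}

/-- the second point of `C` -/
def St.Q (s : St P) : H d := (P.acc s.p s.hp s.R s.hR).choose

lemma St.Q_mem (s : St P) : s.Q ∈ P.C := (P.acc s.p s.hp s.R s.hR).choose_spec.1

lemma St.Q_ne (s : St P) : s.Q ≠ s.p := (P.acc s.p s.hp s.R s.hR).choose_spec.2.1

lemma St.Q_le (s : St P) : ‖s.Q - s.p‖ ≤ s.R := (P.acc s.p s.hp s.R s.hR).choose_spec.2.2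

/-- the second marked point in the coordinates of the state -/
def St.q (s : St P) : H d := s.R⁻¹ • (s.Q - s.p)

lemma St.q_pos (s : St P) : 0 < ‖s.q‖ := by
  unfold St.q
  rw [norm_smul, Real.norm_eq_abs, abs_of_pos (inv_pos.2 s.hR)]
  exact mul_pos (inv_pos.2 s.hR) (norm_pos_iff.2 (sub_ne_zero.2 s.Q_ne))

lemma St.q_le (s : St P) : ‖s.q‖ ≤ 1 := by
  unfold St.q
  rw [norm_smul, Real.norm_eq_abs, abs_of_pos (inv_pos.2 s.hR), inv_mul_le_iff₀ s.hR, mul_one]
  exact s.Q_le

/-- the displacement -/
def St.a (s : St P) : ℝ := aa d s.m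

/-- the radius at which the tubes begin -/
def St.th (s : St P) : ℝ := ‖s.q‖ / 8

/-- the radius at which the tubes end -/
def St.rho (s : St P) : ℝ := s.th * Real.exp (-((s.a + s.w * ‖s.q‖) / (s.w * s.th)))

lemma St.th_pos (s : St P) : 0 < s.th := by
  have := s.q_pos
  unfold St.th; linarith

lemma St.rho_pos (s : St P) : 0 < s.rho := mul_pos s.th_pos (Real.exp_pos _)

/-- the child states -/
def St.ch (s : St P) (b : Bool) : St P where
  p := if b then s.Q else s.p
  R := s.R * (s.rho / 4)
  w := s.w * (‖s.q‖ / 32)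
  m := s.m + 1
  hp := by
    cases b
    · simpa using s.hp
    · simpa using s.Q_mem
  hR := mul_pos s.hR (by have := s.rho_pos; linarith)
  hw := mul_pos s.hw (by have := s.q_pos; linarith)
  hwm := by
    have h1 := s.hwm
    have h2 := s.q_le
    have h3 := s.hw
    have h4 := s.q_pos
    have h5 : (0 : ℝ) ≤ P.ε / 8 * (1 / 16) ^ s.m := h3.le.trans h1
    calc s.w * (‖s.q‖ / 32) ≤ (P.ε / 8 * (1 / 16) ^ s.m) * (1 / 16) := by
          apply mul_le_mul h1 (by linarith) (by positivity) h5
      _ = _ := by rw [pow_succ]; ring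

/-- from the neighbourhood of a marked point to the coordinates of the child -/
def St.sub (s : St P) (b : Bool) (x : V d) : V d :=
  (4 / s.rho) • ((x.1 - mp s.q b, x.2) : V d)

section dir

variable [NeZero d]

def St.sgn (s : St P) : ℝ := if 0 ≤ s.q (dm d s.m) then 1 else -1

/-- the displacement vectors of the two children -/
def St.A (s : St P) (b : Bool) : H d :=
  ((if b then 1 else -1) * s.sgn * s.a) • EuclideanSpace.single (dm d s.m) (1 : ℝ)

/-- the slope of the two tubes -/
def St.S (s : St P) (b : Bool) : H d :=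
  (s.a + s.w * ‖s.q‖)⁻¹ • (s.A b - s.w • mp s.q b)

/-- the two tubes -/
def St.tube (s : St P) (b : Bool) (x : V d) : V d :=
  TB (s.w * s.th) (Real.log s.th) (s.w * (‖s.q‖ + s.th)) (s.w • mp s.q b) (s.S b) (mp s.q b) x

/-- one step of the recursion -/
def St.Phi (s : St P) (h : Bool → V d → V d) (x : V d) : V d :=
  if tau s.q x ≤ s.rho then
    (s.A (sd s.q x.1), -s.a) + h (sd s.q x.1) (s.sub (sd s.q x.1) x)
  else if tau s.q x ≤ s.th then s.tube (sd s.q x.1) x
  else s.w • W s.q x

def Gk : ℕ → St P → V d → V d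
  | 0, s, x => s.w • W s.q x
  | k + 1, s, x => s.Phi (fun b => Gk k (s.ch b)) x

/-- the limit map of the state `s` -/
def GG (s : St P) (x : V d) : V d := limUnder atTop (fun k => Gk k s x)

end dir

/-! ### the source and the bounds -/

/-- closed model domain -/
def UU (d : ℕ) : Set (V d) := {x | 0 ≤ x.2 ∧ x.2 + ‖x.1‖ ≤ 4}

/-- open model domain -/
def UI (d : ℕ) : Set (V d) := {x | 0 < x.2 ∧ x.2 + ‖x.1‖ < 4}

/-- the bounds that hold at level `m` -/
def Bd (m : ℕ) (w : ℝ) (p : V d) : Prop :=
  (∀ i, |p.1 i| ≤ RR d m i) ∧ -vv d m ≤ p.2 ∧ p.2 ≤ 4 * w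

/-! ### the Cantor set -/

/-- the approximations of the Cantor set of level `m` -/
def KK (d : ℕ) [NeZero d] : ℕ → ℕ → Set (Fin d → ℝ)
  | 0, m => {c | ∀ i, |c i| ≤ RR d m i}
  | k + 1, m => {c | c - Pi.single (dm d m) (aa d m) ∈ KK d k (m + 1)} ∪
      {c | c + Pi.single (dm d m) (aa d m) ∈ KK d k (m + 1)}

/-! ### Euclidean space and the round ball -/

/-- the ambient Euclidean space -/
abbrev En (d : ℕ) : Type := EuclideanSpace ℝ (Fin (d + 1))

def J (x : V d) : En d := WithLp.toLp 2 (Fin.snoc (fun i => x.1 i) x.2)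

def Ji (y : En d) : V d := (WithLp.toLp 2 (fun i : Fin d => y i.castSucc), y (Fin.last d))

/-- the gauge of the model domain with respect to its centre -/
def pp (u : V d) : ℝ := max (-u.2) (u.2 + ‖u.1‖) / 2

def qq (u : V d) : ℝ := ‖J u‖

/-- radial rescaling -/
def rad (q p : V d → ℝ) (x : V d) : V d := (q x / p x) • x

/-- centre of the model domain -/
def zc (d : ℕ) : V d := (0, 2)

/-- from the round ball onto the model domain -/
def TT (y : En d) : V d := zc d + rad qq pp (Ji y)

def Ti (x : V d) : En d := J (rad pp qq (x - zc d))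

end

end Pool.Agent.Lib.MP739abe.BN
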