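import Mathlib
import Pool.Agent.Lib.MP_739abe_an.BN.Defs

/-!
MP_739abe_an, wave 24: the exceptional sets of boundary absolute continuity of quasiconformal maps
of the ball onto Jordan domains with finite boundary measure are exactly the countable sets.

The modules are independent; each proves `specXXX (hYYY : SpecYYY) .. : SpecXXX`.
Models: the files of helper99 (git show 7f64c0da7:Pool/Agent/Lib/MP_739abe_an/{Maps,Lim,Cont,Loc,
Cantor,Area,Ball,NotAC}.lean), where the same statements are proved for `d = 2` with four marked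
points and parameters that depend on the level only.
-/

namespace Pool.Agent.Lib.MP739abe.BN

open Topology Filter Set Metric MeasureTheory Measure
open scoped ENNReal NNReal

noncomputable section

/-- **SEQ.** The sequences.  `Ni d m i` counts the `k < m` with `k % d = i`: for `m = k d + j` and
`i < d` it is `k + 1` if `i < j` and `k` if `i ≥ j`; so `Ni d m (m % d) = m / d`.  Hence
`RR d m i = RR d (m+1) i` for `i ≠ dm d m`, `RR d m (dm d m) = aa d m + RR d (m+1) (dm d m)`, and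
`RR d (m+1) (dm d m) = rr (m/d+1) < aa d m` since `aa = (1/2)^k/2 + (3/4)(1/4)^k` and
`rr (k+1) = (1/2)^k/2 + (1/4)^k/4`.  The bounds by `(1/16)^m / 8`: `RR d m i ≥ rr (m/d + 1) ≥
(1/2)^(m+1)` because `Ni d m i ≤ m/d + 1 ≤ m + 1`, and `4 * ((1/16)^m/8) ≤ (1/2)^(m+1)`; the same
for `aa d m ≥ (1/2)^(m/d)/2`.  `vv` is a sum of terms `≤ 2 (1/2)^(m/d)`, so it tends to `0`. -/
def SpecSEQ : Prop := ∀ (d : ℕ) [NeZero d],
  (∀ m, 0 < aa d m) ∧
  (∀ m i, 0 < RR d m i) ∧
  (∀ m i, i ≠ dm d m → RR d (m + 1) i = RR d m i) ∧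
  (∀ m, aa d m + RR d (m + 1) (dm d m) = RR d m (dm d m)) ∧
  (∀ m, RR d (m + 1) (dm d m) < aa d m) ∧
  (∀ m, aa d m + vv d (m + 1) = vv d m) ∧
  (∀ m, 0 < vv d m) ∧
  (∀ m i, RR d m i ≤ vv d m) ∧
  (∀ m i, 4 * ((1 / 16 : ℝ) ^ m / 8) ≤ RR d m i) ∧
  (∀ m, 4 * ((1 / 16 : ℝ) ^ m / 8) ≤ aa d m) ∧
  (∀ m, aa d m ≤ 2) ∧
  Tendsto (fun m => vv d m) atTop (𝓝 0)

/-- **MAP.** The node map and the tube map.  `W q` is `5`-Lipschitz with the `5`-Lipschitz inverse
`Wi q` (`‖y‖ ≤ ‖q‖ + nn q y` gives `dd ≥ 0`, then the two formulas are inverse to each other by cases;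
`nn` is `1`-Lipschitz and `dd` is `2`-Lipschitz); the tube map is, for a slope of norm at most `1`,
locally `24`-bi-Lipschitz up to the factor `r / (x.2 + ‖x.1 - e‖)`, and injective. -/
def SpecMAP : Prop := ∀ d : ℕ,
  (∀ (q y z : H d), |nn q y - nn q z| ≤ ‖y - z‖) ∧
  (∀ (q : H d) (x y : V d), dist (W q x) (W q y) ≤ 5 * dist x y) ∧
  (∀ (q : H d) (x y : V d), dist (Wi q x) (Wi q y) ≤ 5 * dist x y) ∧
  (∀ (q : H d) (x : V d), Wi q (W q x) = x) ∧
  (∀ (q : H d) (x : V d), W q (Wi q x) = x) ∧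
  (∀ (r l h : ℝ) (c S e : H d) (x : V d), 0 < r → ‖S‖ ≤ 1 → 0 < x.2 →
    QB 24 (r * (x.2 + ‖x.1 - e‖)⁻¹) (TB r l h c S e) x) ∧
  (∀ (r l h : ℝ) (c S e : H d) (x : V d), 0 < x.2 + ‖x.1 - e‖ →
    ContinuousAt (TB r l h c S e) x) ∧
  (∀ (r l h : ℝ) (c S e : H d) (x y : V d), 0 < r → 0 < x.2 + ‖x.1 - e‖ →
    0 < y.2 + ‖y.1 - e‖ → TB r l h c S e x = TB r l h c S e y → x = y)

/-- **NOD.** Elementary geometry of the two marked points (`mp q (sd q y)` is the nearest one) and of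
the node map: near a marked point and on the roof `W` is explicit, and its height is large away
from the marked points. -/
def SpecNOD : Prop := ∀ (d : ℕ) (q : H d), q ≠ 0 → ‖q‖ ≤ 1 →
  (∀ y, nn q y = ‖y - mp q (sd q y)‖) ∧
  (∀ b y, ‖y - mp q b‖ < ‖q‖ / 2 → sd q y = b) ∧
  (∀ b, ‖mp q b‖ ≤ ‖q‖) ∧
  (∀ y, ‖y‖ ≤ ‖q‖ + nn q y) ∧
  (∀ x : V d, 0 ≤ x.2 → tau q x ≤ ‖q‖ → W q x = (x.1, ‖q‖ + tau q x)) ∧
  (∀ x : V d, x.2 + ‖x.1‖ = 4 → W q x = (x.1, 4)) ∧
  (∀ x ∈ UU d, 0 ≤ (W q x).2 ∧ (W q x).2 ≤ 4) ∧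
  (∀ x ∈ UU d, ∀ t < ‖q‖, t < tau q x → ‖q‖ + t < (W q x).2)

/-- **TUB.** The tubes.  Write `t = x.2 + ‖x.1 - mp s.q b‖`, `r = s.w * s.th`.  At `t = s.th` the tube
map is `s.w • W`, at `t = s.rho` it is the node map of the child on the roof of the child, in
between the height goes from `s.w * (‖s.q‖ + s.th)` to `r - s.a`, the coordinates are bounded, and
the functional `y ↦ ⟪y, v⟫`, `v = s.q + (‖s.q‖ * s.sgn) • e_dm`, separates the two tubes: with
`c = s.sgn * s.q (dm) ∈ [0, ‖s.q‖]` the centre line at `lam ∈ [0,1]` has the value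
`(‖q‖ + c)(w ‖q‖ (1 - lam) + lam a) ≥ (‖q‖ + c) w ‖q‖` for `b = true` and `-(‖q‖ + c) lam a ≤ 0` for
`b = false`, and the radius contributes at most `r ‖v‖ ≤ (w ‖q‖ / 8) 2 (‖q‖ + c)`. -/
def SpecTUB : Prop := ∀ (d : ℕ) [NeZero d] (P : PP d) (s : St P),
  s.rho < s.th ∧ s.rho ≤ 1 / 2 ∧
  (∀ b, ‖s.S b‖ ≤ 1) ∧
  (∀ b, ‖s.A b‖ = s.a) ∧
  (∀ b, ∀ x : V d, 0 ≤ x.2 → x.2 + ‖x.1 - mp s.q b‖ = s.th → s.tube b x = s.w • W s.q x) ∧
  (∀ b, ∀ x : V d, x.2 + ‖x.1 - mp s.q b‖ = s.rho →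
    s.tube b x = (s.A b, -s.a) + (s.ch b).w • W (s.ch b).q (s.sub b x)) ∧
  (∀ b, ∀ x : V d, s.rho ≤ x.2 + ‖x.1 - mp s.q b‖ → x.2 + ‖x.1 - mp s.q b‖ ≤ s.th →
    s.w * s.th - s.a ≤ (s.tube b x).2 ∧ (s.tube b x).2 ≤ s.w * (‖s.q‖ + s.th)) ∧
  (∀ b, ∀ x : V d, s.rho < x.2 + ‖x.1 - mp s.q b‖ → s.w * s.th - s.a < (s.tube b x).2) ∧
  (∀ b, ∀ x ∈ UU d, s.rho ≤ x.2 + ‖x.1 - mp s.q b‖ → x.2 + ‖x.1 - mp s.q b‖ ≤ s.th →
    Bd s.m s.w (s.tube b x)) ∧
  (∀ x ∈ UU d, ∀ y ∈ UU d, s.rho ≤ x.2 + ‖x.1 - mp s.q true‖ →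
    x.2 + ‖x.1 - mp s.q true‖ ≤ s.th → s.rho ≤ y.2 + ‖y.1 - mp s.q false‖ →
    y.2 + ‖y.1 - mp s.q false‖ ≤ s.th → s.tube true x ≠ s.tube false y)

/-- the facts about the limit map which the other modules use -/
structure LimFacts (d : ℕ) [NeZero d] (P : PP d) : Prop where
  bd : ∀ (s : St P), ∀ x ∈ UU d, Bd s.m s.w (GG s x)
  A : ∀ (s : St P), ∀ x ∈ UU d, s.th ≤ tau s.q x → GG s x = s.w • W s.q x
  B : ∀ (s : St P), ∀ x ∈ UU d, s.rho ≤ tau s.q x → tau s.q x ≤ s.th →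
    GG s x = s.tube (sd s.q x.1) x
  C : ∀ (s : St P), ∀ x ∈ UU d, tau s.q x ≤ s.rho →
    GG s x = (s.A (sd s.q x.1), -s.a) + GG (s.ch (sd s.q x.1)) (s.sub (sd s.q x.1) x)
  sub : ∀ (s : St P), ∀ x ∈ UU d, tau s.q x ≤ s.rho → s.sub (sd s.q x.1) x ∈ UU d
  conv : ∀ (s : St P), TendstoUniformlyOn (fun k => Gk k s) (GG s) atTop (UU d)

/-- **LIM.** Existence of the limit: by induction on `k`, `Gk k s` satisfies `Bd s.m s.w` on `UU`,
and `dist (Gk k s x) (Gk (k+j) s x) ≤ 2 * vv d (s.m + k)` (at depth `k` both are shifted points which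
satisfy `Bd`, and `Bd m w p` with `4 w ≤ vv d m` gives `‖p‖ ≤ vv d m` because the Euclidean norm is at
most the sum of the coordinates); now use `cauchySeq_of_le_tendsto_0`. -/
def SpecLIM : Prop := ∀ (d : ℕ) [NeZero d] (P : PP d), LimFacts d P

/-- **CON.** Continuity: `Gk k s` is continuous on `UU` by induction (closed cover by the node, the
two tubes and the two child parts, with the values on the interfaces from `TUB`), and the
convergence is uniform. -/
def SpecCON : Prop := ∀ (d : ℕ) [NeZero d] (P : PP d) (s : St P), ContinuousOn (GG s) (UU d)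

/-- **INJ.** Injectivity: the height separates node, tubes and child parts; the side is determined by
`TUB` for the tubes and by the sign of the coordinate `dm` for the child parts (`|.| ≤ RR < aa`);
by induction on `k`, `GG s x = GG s y` implies `dist x y ≤ 8 (1/8)^k`. -/
def SpecINJ : Prop := ∀ (d : ℕ) [NeZero d] (P : PP d) (s : St P), InjOn (GG s) (UU d)

/-- **LOC.** The limit map is locally scaled bi-Lipschitz at the interior points, with the constant
`24`. -/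
def SpecLOC : Prop := ∀ (d : ℕ) [NeZero d] (P : PP d) (s : St P), ∀ x ∈ UI d,
  ∃ l > 0, QB 24 l (GG s) x

/-- **CAN.** The Cantor set has positive measure: `volume (KK d k m) = 2^k * ∏ i, 2 * RR d (m+k) i`
(the two translates are disjoint because `RR d (m+1) (dm d m) < aa d m`), the sets decrease with
`k`, and for `m = 0` the volume is at least `1` because `∑ i, Ni d k i = k` and `2^n * rr n ≥ 1`. -/
def SpecCAN : Prop := ∀ (d : ℕ) [NeZero d],
  (1 : ℝ≥0∞) ≤ volume (⋂ k, KK d k 0)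

/-- **ATT.** Every point of the Cantor set of level `s.m`, at the height `-vv d s.m`, is attained. -/
def SpecATT : Prop := ∀ (d : ℕ) [NeZero d] (P : PP d) (s : St P) (c : Fin d → ℝ),
  (∀ k, c ∈ KK d k s.m) → ∃ x ∈ UU d, GG s x = (WithLp.toLp 2 c, -vv d s.m)

/-- **NUL.** The points of the bottom come from `C`: by induction on `k` there is `c ∈ C` with
`‖s.p + s.R • x.1 - c‖ ≤ 4 * s.R * (1/8)^k`, and `x.2 ≤ 4 (1/8)^k`. -/
def SpecNUL : Prop := ∀ (d : ℕ) [NeZero d] (P : PP d) (s : St P), ∀ x ∈ UU d,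
  (GG s x).2 = -vv d s.m → x.2 = 0 ∧ s.p + s.R • x.1 ∈ closure P.C

/-- **TUA.** Area of a tube: the image under `TB` of the floor annulus `ρ ≤ ‖y - e‖ ≤ θ` has
`d`-dimensional measure at most `C r^(d-1) (r + r log (θ/ρ))`.  Proof: on the shell
`2^(-j-1) θ < ‖y - e‖ ≤ 2^(-j) θ` the map is Lipschitz with the constant `8 r 2^j / θ`, and the shell lies
in a ball of measure `≤ C (2^(-j) θ)^d`; there are at most `log (θ/ρ)/log 2 + 1` shells.  (Use
`LipschitzOnWith.hausdorffMeasure_image_le`; `μH[d]` of a ball of radius `t` in `H d` is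
`t^d * μH[d] (ball 0 1)`, finite.) -/
def SpecTUA : Prop := ∀ d : ℕ, ∃ C : ℝ, 0 ≤ C ∧ ∀ (r l h ρ θ : ℝ) (c S e : H d),
  0 < r → ‖S‖ ≤ 1 → 0 < ρ → ρ < θ →
  μH[(d : ℝ)] ((fun y : H d => TB r l h c S e ((y, 0) : V d)) '' {y | ρ ≤ ‖y - e‖ ∧ ‖y - e‖ ≤ θ}) ≤
    ENNReal.ofReal (C * r ^ d * (1 + Real.log (θ / ρ)))

/-- **ARE.** Area of the boundary: apart from the bottom, the image of the boundary of `UU` has
measure at most `C ε`, with `C` depending on `d ≥ 2` only.  Floor of a node: `≤ (5 w)^d C`; two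
tubes: `log (θ/ρ) = (a + w‖q‖)/(w θ)`, so `TUA` gives `≤ C (w θ)^(d-1) (a + ..) ≤ C w`; there are `2^k`
states of level `k`, with `w ≤ ε/8 (1/16)^k`; the roof has measure `≤ C w^d`.  A floor point whose
image lies in none of these pieces has height `≤ -vv d m + 2 vv d (m+k)` for all `k`. -/
def SpecARE : Prop := ∀ d : ℕ, 2 ≤ d → ∃ C : ℝ≥0∞, C < ⊤ ∧ ∀ [NeZero d] (P : PP d) (s : St P),
  s.m = 0 →
  μH[(d : ℝ)] (GG s '' (UU d \ UI d) \ {p | p.2 = -vv d 0}) ≤ C * ENNReal.ofReal P.ε ∧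
  μH[(d : ℝ)] (GG s '' (UU d \ UI d)) < ⊤

/-- **BAL.** The round ball and the model domain: `TT` is a bi-Lipschitz homeomorphism with inverse
`Ti` (the constants do not depend on `d`), and `J` is a bijection with inverse `Ji`,
`‖Ji y‖ ≤ ‖y‖ ≤ 2 ‖Ji y‖`. -/
def SpecBAL : Prop := ∀ d : ℕ,
  (∀ x : V d, Ji (J x) = x) ∧ (∀ y : En d, J (Ji y) = y) ∧
  (∀ y z : En d, dist (Ji y) (Ji z) ≤ dist y z) ∧
  (∀ x y : V d, dist (J x) (J y) ≤ 2 * dist x y) ∧
  (∀ y : En d, Ti (TT y) = y) ∧ (∀ x : V d, TT (Ti x) = x) ∧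
  (∀ y z : En d, dist (TT y) (TT z) ≤ 160 * dist y z) ∧
  (∀ x y : V d, dist (Ti x) (Ti y) ≤ 160 * dist x y) ∧
  (∀ y : En d, TT y ∈ UU d ↔ y ∈ closedBall (0 : En d) 1) ∧
  (∀ y : En d, TT y ∈ UI d ↔ y ∈ ball (0 : En d) 1) ∧
  (∀ y : En d, y (Fin.last d) = -1 → ‖y‖ = 1 → TT y = 0)

/-- **PER.** An uncountable Borel set of a complete separable metric space contains a nonempty
compact set without isolated points.  (Make the set closed for a finer Polish topology, take the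
continuous injection of the Cantor space `ℕ → Bool` given by the perfect set theorem, and its
image.) -/
def SpecPER : Prop := ∀ (n : ℕ) (E : Set (EuclideanSpace ℝ (Fin n))), MeasurableSet E →
  ¬ E.Countable → ∃ K ⊆ E, IsCompact K ∧ K.Nonempty ∧ Preperfect K

/-- **ROT.** A compact subset `K` of the unit sphere without isolated points can be moved, by a
linear isometry `g`, so that the set of the `y` with `‖y‖ < 1` and `(y, 0) ∈ TT (g K)` contains `0`
and has no isolated points. -/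
def SpecROT : Prop := ∀ d : ℕ, ∀ K : Set (En d), K ⊆ sphere 0 1 → IsCompact K → K.Nonempty →
  Preperfect K → ∃ g : En d ≃ₗᵢ[ℝ] En d,
    ∃ C : Set (H d), C = {y | ‖y‖ < 1 ∧ ((y, 0) : V d) ∈ TT '' (g '' K)} ∧ 0 ∈ C ∧
    (∀ p ∈ C, ∀ R : ℝ, 0 < R → ∃ q ∈ C, q ≠ p ∧ ‖q - p‖ ≤ R)

/-! ### the final statement -/

/-- A Jordan domain: a bounded domain whose boundary is homeomorphic to the unit sphere. -/
structure IsJordanDomain {n : ℕ} (D : Set (EuclideanSpace ℝ (Fin n))) : Prop where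
  isOpen : IsOpen D
  isConnected : IsConnected D
  isBounded : Bornology.IsBounded D
  boundary : Nonempty (frontier D ≃ₜ Metric.sphere (0 : EuclideanSpace ℝ (Fin n)) 1)

/-- Quasiconformality, metric definition with the constant `K` at every point. -/
def BoundedDilatation {n : ℕ} (K : ℝ)
    (f : EuclideanSpace ℝ (Fin n) → EuclideanSpace ℝ (Fin n))
    (U : Set (EuclideanSpace ℝ (Fin n))) : Prop :=
  ∀ x ∈ U, ∃ δ > 0, ∀ y z, dist y x < δ → dist y x = dist z x →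
    dist (f y) (f x) ≤ K * dist (f z) (f x)

/-- `f` restricts to a homeomorphism of the open unit ball onto `D` with dilatation at most `K` and
to a homeomorphism of the closed unit ball onto the closure of `D` (a continuous injective map on a
compact space is a homeomorphism onto its image). -/
structure IsQuasiconformalParametrization {n : ℕ} (K : ℝ)
    (f : EuclideanSpace ℝ (Fin n) → EuclideanSpace ℝ (Fin n))
    (D : Set (EuclideanSpace ℝ (Fin n))) : Prop where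
  continuousOn : ContinuousOn f (Metric.closedBall 0 1)
  injOn : InjOn f (Metric.closedBall 0 1)
  image_ball : f '' Metric.ball 0 1 = D
  image_closedBall : f '' Metric.closedBall 0 1 = closure D
  image_sphere : f '' Metric.sphere 0 1 = frontier D
  quasiconformal : BoundedDilatation K f (Metric.ball 0 1)

/-- A stronger local property, which implies quasiconformality under each of the usual definitions:
near every point `x` of `U` the map changes all distances by the factor `l`, depending on `x`, up to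
a multiplicative constant `K` which does not depend on `x`. -/
def LocallyScaledBiLipschitz {n : ℕ} (K : ℝ)
    (f : EuclideanSpace ℝ (Fin n) → EuclideanSpace ℝ (Fin n))
    (U : Set (EuclideanSpace ℝ (Fin n))) : Prop :=
  ∀ x ∈ U, ∃ l > 0, ∃ δ > 0, ∀ y ∈ Metric.ball x δ, ∀ z ∈ Metric.ball x δ,
    l * dist y z ≤ dist (f y) (f z) ∧ dist (f y) (f z) ≤ K * l * dist y z

/-- **FIN.** The theorem, part one. -/
def SpecFIN : Prop := ∃ K : ℝ, ∀ n : ℕ, 3 ≤ n →
  ∀ E ⊆ sphere (0 : EuclideanSpace ℝ (Fin n)) 1, MeasurableSet E → ¬ E.Countable →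
  ∀ ε > 0, ∃ (D : Set (EuclideanSpace ℝ (Fin n)))
    (f : EuclideanSpace ℝ (Fin n) → EuclideanSpace ℝ (Fin n)),
    IsJordanDomain D ∧ μH[(n : ℝ) - 1] (frontier D) < ⊤ ∧
    IsQuasiconformalParametrization K f D ∧ LocallyScaledBiLipschitz K f (ball 0 1) ∧
    0 < μH[(n : ℝ) - 1] (f '' E) ∧
    μH[(n : ℝ) - 1] (frontier D \ f '' E) < ENNReal.ofReal ε * μH[(n : ℝ) - 1] (f '' E)

end

end Pool.Agent.Lib.MP739abe.BN
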