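import Mathlib
import Pool.Agent.Lib.MP_739abe_an.BN.Spec

/-!
MP_739abe_an, BN: module ATT (every point of the Cantor set is attained).
-/

set_option autoImplicit false

namespace Pool.Agent.Lib.MP739abe.BN

open Topology Filter Set Metric MeasureTheory Measure
open scoped ENNReal NNReal

noncomputable section

namespace ATTM

variable {d : ℕ}

lemma zero_mem_UU : (0 : V d) ∈ UU d := by
  unfold UU; simp

lemma norm_le_sum (y : H d) : ‖y‖ ≤ ∑ i, |y i| := by
  have h := (EuclideanSpace.basisFun (Fin d) ℝ).sum_repr y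
  calc ‖y‖ = ‖∑ i, (EuclideanSpace.basisFun (Fin d) ℝ).repr y i • EuclideanSpace.basisFun (Fin d) ℝ i‖ := by
        rw [h]
    _ ≤ ∑ i, ‖(EuclideanSpace.basisFun (Fin d) ℝ).repr y i • EuclideanSpace.basisFun (Fin d) ℝ i‖ :=
        norm_sum_le _ _
    _ = ∑ i, |y i| := by
        refine Finset.sum_congr rfl fun i _ => ?_
        rw [norm_smul, (EuclideanSpace.basisFun (Fin d) ℝ).norm_eq_one, mul_one, Real.norm_eq_abs,
          EuclideanSpace.basisFun_repr]

lemma dist_V (x y : V d) : dist x y = max ‖x.1 - y.1‖ |x.2 - y.2| := by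
  rw [Prod.dist_eq, dist_eq_norm, Real.dist_eq]

lemma isClosed_UU : IsClosed (UU d) := by
  unfold UU
  apply IsClosed.inter
  · exact isClosed_le continuous_const continuous_snd
  · exact isClosed_le (continuous_snd.add continuous_fst.norm) continuous_const

lemma isCompact_UU : IsCompact (UU d) := by
  apply Metric.isCompact_of_isClosed_isBounded isClosed_UU
  refine (Metric.isBounded_closedBall (x := (0 : V d)) (r := 4)).subset ?_
  intro x hx
  rw [mem_closedBall, dist_V]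
  have h1 := hx.1
  have h2 := hx.2
  have h3 := norm_nonneg x.1
  apply max_le
  · show ‖x.1 - 0‖ ≤ 4
    rw [sub_zero]; linarith
  · show |x.2 - 0| ≤ 4
    rw [sub_zero, abs_of_nonneg h1]; linarith

/-- put a point into the child -/
def par {P : PP d} (s : St P) (b : Bool) (u : V d) : V d :=
  (mp s.q b + (s.rho / 4) • u.1, s.rho / 4 * u.2)

variable [NeZero d] {P : PP d}

lemma par_mem (hNOD : SpecNOD) (hTUB : SpecTUB) (s : St P) (b : Bool) {u : V d} (hu : u ∈ UU d) :
    par s b u ∈ UU d ∧ tau s.q (par s b u) ≤ s.rho ∧ sd s.q (par s b u).1 = b ∧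
      s.sub b (par s b u) = u := by
  have hr := s.rho_pos
  obtain ⟨hr1, hr2, -⟩ := hTUB d P s
  have hq0 := s.q_pos
  have hq1 := s.q_le
  obtain ⟨n1, n2, n3, -⟩ := hNOD d s.q (norm_pos_iff.1 hq0) hq1
  have h1 : (par s b u).1 - mp s.q b = (s.rho / 4) • u.1 := by
    show mp s.q b + (s.rho / 4) • u.1 - mp s.q b = _
    abel
  have h2 : (par s b u).2 = s.rho / 4 * u.2 := rfl
  have h3 : (par s b u).2 + ‖(par s b u).1 - mp s.q b‖ ≤ s.rho := by
    rw [h1, h2, norm_smul, Real.norm_eq_abs, abs_of_pos (by positivity)]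
    have := hu.2
    nlinarith
  have h4 : 0 ≤ (par s b u).2 := by
    rw [h2]; have := hu.1; positivity
  have hth : s.th = ‖s.q‖ / 8 := rfl
  have h5 : ‖(par s b u).1 - mp s.q b‖ < ‖s.q‖ / 2 := by linarith
  have h6 : sd s.q (par s b u).1 = b := n2 b _ h5
  have h7 : ‖(par s b u).1‖ ≤ ‖s.q‖ + ‖(par s b u).1 - mp s.q b‖ := by
    calc ‖(par s b u).1‖ = ‖mp s.q b + ((par s b u).1 - mp s.q b)‖ := by congr 1; abel
      _ ≤ ‖mp s.q b‖ + _ := norm_add_le _ _
      _ ≤ _ := by gcongr; exact n3 b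
  refine ⟨⟨h4, by linarith⟩, ?_, h6, ?_⟩
  · unfold tau
    rw [n1, h6]; exact h3
  · have h8 : 4 / s.rho * (s.rho / 4) = 1 := by field_simp
    unfold St.sub
    ext1
    · show (4 / s.rho) • ((par s b u).1 - mp s.q b) = u.1
      rw [h1, smul_smul, h8, one_smul]
    · show (4 / s.rho) * (par s b u).2 = u.2
      rw [h2, ← mul_assoc, h8, one_mul]

lemma exists_side (s : St P) (σ : ℝ) (hσ : σ = 1 ∨ σ = -1) :
    ∃ b : Bool, s.A b = (σ * aa d s.m) • EuclideanSpace.single (dm d s.m) (1 : ℝ) := by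
  unfold St.A St.a St.sgn
  rcases hσ with rfl | rfl
  · by_cases h : 0 ≤ s.q (dm d s.m)
    · exact ⟨true, by simp [h]⟩
    · exact ⟨false, by simp [h]⟩
  · by_cases h : 0 ≤ s.q (dm d s.m)
    · exact ⟨false, by simp [h]⟩
    · exact ⟨true, by simp [h]⟩

lemma four_w_le (hSEQ : SpecSEQ) (s : St P) : 4 * s.w ≤ vv d s.m := by
  obtain ⟨-, -, -, -, -, -, -, s1, s2, -⟩ := hSEQ d
  have h1 := s2 s.m (dm d s.m)
  have h2 := s1 s.m (dm d s.m)
  have h3 := s.hwm
  have h4 := P.ε_le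
  have h5 : (0 : ℝ) < (1 / 16) ^ s.m := by positivity
  have h6 : P.ε / 8 * (1 / 16) ^ s.m ≤ (1 / 16) ^ s.m / 8 := by
    nlinarith
  linarith

lemma KK_le (hSEQ : SpecSEQ) (k : ℕ) : ∀ (m : ℕ) (c : Fin d → ℝ), c ∈ KK d k m → ∀ i, |c i| ≤ RR d m i := by
  obtain ⟨q1, q2, q3, q4, q5, -⟩ := hSEQ d
  induction k with
  | zero => intro m c hc i; exact hc i
  | succ k ih =>
    intro m c hc i
    rcases hc with hc | hc
    · have h := ih (m + 1) _ hc i
      rcases eq_or_ne i (dm d m) with rfl | hi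
      · rw [Pi.sub_apply, Pi.single_eq_same] at h
        rw [← q4 m]
        have ha := q1 m
        rw [abs_le] at h ⊢
        have := q2 (m + 1) (dm d m)
        constructor <;> linarith [h.1, h.2]
      · rw [Pi.sub_apply, Pi.single_eq_of_ne hi, sub_zero, q3 m i hi] at h
        exact h
    · have h := ih (m + 1) _ hc i
      rcases eq_or_ne i (dm d m) with rfl | hi
      · rw [Pi.add_apply, Pi.single_eq_same] at h
        rw [← q4 m]
        have ha := q1 m
        rw [abs_le] at h ⊢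
        have := q2 (m + 1) (dm d m)
        constructor <;> linarith [h.1, h.2]
      · rw [Pi.add_apply, Pi.single_eq_of_ne hi, add_zero, q3 m i hi] at h
        exact h

lemma toLp_add_single (c : Fin d → ℝ) (i : Fin d) (t : ℝ) :
    (WithLp.toLp 2 (c + Pi.single i t) : H d) =
      WithLp.toLp 2 c + t • EuclideanSpace.single i (1 : ℝ) := by
  ext j
  rcases eq_or_ne j i with rfl | hj
  · simp
  · simp [hj]

lemma approx (hSEQ : SpecSEQ) (hNOD : SpecNOD) (hTUB : SpecTUB) (hLIM : SpecLIM) (k : ℕ) :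
    ∀ (s : St P) (c : Fin d → ℝ), c ∈ KK d k s.m →
    ∃ x ∈ UU d, dist (GG s x) ((WithLp.toLp 2 c, -vv d s.m) : V d) ≤ 2 * vv d (s.m + k) := by
  obtain ⟨q1, q2, q3, q4, q5, q6, q7, q8, -⟩ := hSEQ d
  have hL := hLIM d P
  induction k with
  | zero =>
    intro s c hc
    refine ⟨0, zero_mem_UU, ?_⟩
    obtain ⟨b1, b2, b3⟩ := hL.bd s 0 zero_mem_UU
    have h1 : ‖(GG s 0).1‖ ≤ vv d s.m := (norm_le_sum _).trans (Finset.sum_le_sum fun i _ => b1 i)
    have h2 : ‖(WithLp.toLp 2 c : H d)‖ ≤ vv d s.m :=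
      (norm_le_sum _).trans (Finset.sum_le_sum fun i _ => hc i)
    rw [dist_V, add_zero]
    apply max_le
    · calc ‖(GG s 0).1 - WithLp.toLp 2 c‖ ≤ ‖(GG s 0).1‖ + ‖(WithLp.toLp 2 c : H d)‖ := norm_sub_le _ _
        _ ≤ vv d s.m + vv d s.m := add_le_add h1 h2
        _ = 2 * vv d s.m := by ring
    · show |(GG s 0).2 - -vv d s.m| ≤ _
      have := four_w_le hSEQ s
      rw [abs_le]
      constructor <;> linarith [q7 s.m]
  | succ k ih =>
    intro s c hc
    obtain ⟨σ, hσ, hc'⟩ : ∃ σ : ℝ, (σ = 1 ∨ σ = -1) ∧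
        c + Pi.single (dm d s.m) (-(σ * aa d s.m)) ∈ KK d k (s.m + 1) := by
      rcases hc with hc | hc
      · refine ⟨1, Or.inl rfl, ?_⟩
        have e : c + Pi.single (dm d s.m) (-(1 * aa d s.m)) = c - Pi.single (dm d s.m) (aa d s.m) := by
          rw [one_mul, Pi.single_neg, sub_eq_add_neg]
        rw [e]; exact hc
      · refine ⟨-1, Or.inr rfl, ?_⟩
        have e : c + Pi.single (dm d s.m) (-(-1 * aa d s.m)) = c + Pi.single (dm d s.m) (aa d s.m) := by
          congr 2; ring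
        rw [e]; exact hc
    obtain ⟨b, hb⟩ := exists_side s σ hσ
    obtain ⟨u, hu, hd⟩ := ih (s.ch b) _ hc'
    obtain ⟨p1, p2, p3, p4⟩ := par_mem hNOD hTUB s b hu
    refine ⟨par s b u, p1, ?_⟩
    rw [hL.C s _ p1 p2, p3, p4]
    have e1 : ((WithLp.toLp 2 c, -vv d s.m) : V d) = (s.A b, -s.a) +
        ((WithLp.toLp 2 (c + Pi.single (dm d s.m) (-(σ * aa d s.m))), -vv d (s.m + 1)) : V d) := by
      ext1
      · show (WithLp.toLp 2 c : H d) = s.A b + WithLp.toLp 2 (c + Pi.single (dm d s.m) (-(σ * aa d s.m)))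
        rw [toLp_add_single, hb, neg_smul]; abel
      · show -vv d s.m = -s.a + -vv d (s.m + 1)
        have : s.a = aa d s.m := rfl
        linarith [q6 s.m]
    rw [e1, dist_add_left]
    have e : s.m + 1 + k = s.m + (k + 1) := by ring
    rw [← e]
    exact hd

end ATTM

open ATTM in
theorem specATT (hSEQ : SpecSEQ) (hNOD : SpecNOD) (hTUB : SpecTUB) (hLIM : SpecLIM) (hCON : SpecCON) :
    SpecATT := by
  intro d _ P s c hc
  have hcomp : IsCompact (GG s '' UU d) := isCompact_UU.image_of_continuousOn (hCON d P s)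
  have hvv : Tendsto (fun k => 2 * vv d (s.m + k)) atTop (𝓝 0) := by
    obtain ⟨-, -, -, -, -, -, -, -, -, -, -, ht⟩ := hSEQ d
    have h1 := ((tendsto_add_atTop_iff_nat s.m).2 ht).const_mul 2
    rw [mul_zero] at h1
    refine h1.congr fun k => ?_
    rw [add_comm]
  have hmem : ((WithLp.toLp 2 c, -vv d s.m) : V d) ∈ closure (GG s '' UU d) := by
    rw [Metric.mem_closure_iff]
    intro ε hε
    obtain ⟨k, hk⟩ := (hvv.eventually (gt_mem_nhds hε)).exists
    obtain ⟨x, hx, hd⟩ := approx hSEQ hNOD hTUB hLIM k s c (hc k)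
    refine ⟨GG s x, mem_image_of_mem _ hx, ?_⟩
    rw [dist_comm]
    exact hd.trans_lt hk
  rw [hcomp.isClosed.closure_eq] at hmem
  obtain ⟨x, hx, h⟩ := hmem
  exact ⟨x, hx, h⟩

end

end Pool.Agent.Lib.MP739abe.BN
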