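import Pool.Agent.Lib.MP_739abe_an.BN.Spec

/-!
BAL: a bi-Lipschitz homeomorphism from the round ball onto the model domain.
-/

namespace Pool.Agent.Lib.MP739abe.BN

open Topology Filter Set Metric MeasureTheory Measure
open scoped ENNReal NNReal

noncomputable section

namespace BALM

variable {d : ℕ}

lemma radial_lip_aux {q p : V d → ℝ} {c C : ℝ} (hc : 0 < c) (hC : 0 < C)
    (hq : ∀ x y, |q x - q y| ≤ C * ‖x - y‖) (hp : ∀ x y, |p x - p y| ≤ C * ‖x - y‖)
    (hq1 : ∀ x, 0 ≤ q x) (hq2 : ∀ x, q x ≤ C * ‖x‖) (hp1 : ∀ x, c * ‖x‖ ≤ p x)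
    {x y : V d} (h : ‖y‖ ≤ ‖x‖) :
    ‖rad q p x - rad q p y‖ ≤ (2 * (C / c) + (C / c) * (C / c)) * ‖x - y‖ := by
  have hqp : ∀ z, q z / p z ≤ C / c := by
    intro z
    rcases eq_or_ne z 0 with rfl | hz
    · have : q 0 = 0 := le_antisymm (by simpa using hq2 0) (hq1 0)
      rw [this, zero_div]; positivity
    · have hz' : 0 < ‖z‖ := norm_pos_iff.2 hz
      have hpz : 0 < p z := (mul_pos hc hz').trans_le (hp1 z)
      rw [div_le_div_iff₀ hpz hc]
      calc q z * c ≤ C * ‖z‖ * c := by gcongr; exact hq2 z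
        _ = C * (c * ‖z‖) := by ring
        _ ≤ C * p z := by gcongr; exact hp1 z
  rcases eq_or_ne y 0 with rfl | hy
  · have h0 : rad q p 0 = 0 := by simp [rad]
    rw [h0, sub_zero, sub_zero]
    unfold rad
    have hpx : 0 ≤ p x := (mul_nonneg hc.le (norm_nonneg _)).trans (hp1 x)
    rw [norm_smul, Real.norm_eq_abs, abs_of_nonneg (div_nonneg (hq1 x) hpx)]
    have h1 := hqp x
    have h2 : 0 ≤ C / c := by positivity
    calc q x / p x * ‖x‖ ≤ C / c * ‖x‖ := by gcongr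
      _ ≤ (2 * (C / c) + C / c * (C / c)) * ‖x‖ := by
        gcongr
        nlinarith
  · have hy' : 0 < ‖y‖ := norm_pos_iff.2 hy
    have hx' : 0 < ‖x‖ := hy'.trans_le h
    have hpy : 0 < p y := (mul_pos hc hy').trans_le (hp1 y)
    have hpx : 0 < p x := (mul_pos hc hx').trans_le (hp1 x)
    have e : rad q p x - rad q p y = (q x / p x) • (x - y) + (q x / p x - q y / p y) • y := by
      unfold rad; module
    rw [e]
    have h1 : |q x / p x - q y / p y| * ‖y‖ ≤ (C / c + C / c * (C / c)) * ‖x - y‖ := by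
      have e1 : q x / p x - q y / p y =
          (q x - q y) / p x + q y / p y * ((p y - p x) / p x) := by
        field_simp; ring
      have h2 : ‖y‖ / p x ≤ 1 / c := by
        rw [div_le_div_iff₀ hpx hc, one_mul, mul_comm]
        exact (mul_le_mul_of_nonneg_left h hc.le).trans (hp1 x)
      have h3 : |(q x - q y) / p x| * ‖y‖ ≤ C * ‖x - y‖ * (1 / c) := by
        rw [abs_div, abs_of_pos hpx]
        calc |q x - q y| / p x * ‖y‖ = |q x - q y| * (‖y‖ / p x) := by ring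
          _ ≤ C * ‖x - y‖ * (1 / c) := by
            gcongr
            exact hq x y
      have h4 : |(p y - p x) / p x| * ‖y‖ ≤ C * ‖x - y‖ * (1 / c) := by
        rw [abs_div, abs_of_pos hpx, abs_sub_comm]
        calc |p x - p y| / p x * ‖y‖ = |p x - p y| * (‖y‖ / p x) := by ring
          _ ≤ C * ‖x - y‖ * (1 / c) := by
            gcongr
            exact hp x y
      have h5 : 0 ≤ q y / p y := div_nonneg (hq1 y) hpy.le
      calc |q x / p x - q y / p y| * ‖y‖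
          ≤ (|(q x - q y) / p x| + |q y / p y * ((p y - p x) / p x)|) * ‖y‖ := by
            rw [e1]; gcongr; exact abs_add_le _ _
        _ = |(q x - q y) / p x| * ‖y‖ + q y / p y * (|(p y - p x) / p x| * ‖y‖) := by
            rw [abs_mul, abs_of_nonneg h5]; ring
        _ ≤ C * ‖x - y‖ * (1 / c) + C / c * (C * ‖x - y‖ * (1 / c)) := by
            have h6 := hqp y
            gcongr
        _ = _ := by ring
    calc ‖(q x / p x) • (x - y) + (q x / p x - q y / p y) • y‖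
        ≤ ‖(q x / p x) • (x - y)‖ + ‖(q x / p x - q y / p y) • y‖ := norm_add_le _ _
      _ = q x / p x * ‖x - y‖ + |q x / p x - q y / p y| * ‖y‖ := by
          rw [norm_smul, norm_smul, Real.norm_eq_abs, Real.norm_eq_abs,
            abs_of_nonneg (div_nonneg (hq1 x) hpx.le)]
      _ ≤ C / c * ‖x - y‖ + (C / c + C / c * (C / c)) * ‖x - y‖ := by
          have h6 := hqp x
          gcongr
      _ = _ := by ring

lemma radial_lip {q p : V d → ℝ} {c C : ℝ} (hc : 0 < c) (hC : 0 < C)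
    (hq : ∀ x y, |q x - q y| ≤ C * ‖x - y‖) (hp : ∀ x y, |p x - p y| ≤ C * ‖x - y‖)
    (hq1 : ∀ x, 0 ≤ q x) (hq2 : ∀ x, q x ≤ C * ‖x‖) (hp1 : ∀ x, c * ‖x‖ ≤ p x)
    (x y : V d) :
    dist (rad q p x) (rad q p y) ≤ (2 * (C / c) + (C / c) * (C / c)) * dist x y := by
  rw [dist_eq_norm, dist_eq_norm]
  rcases le_total ‖y‖ ‖x‖ with h | h
  · exact radial_lip_aux hc hC hq hp hq1 hq2 hp1 h
  · rw [norm_sub_rev, norm_sub_rev x y]
    exact radial_lip_aux hc hC hq hp hq1 hq2 hp1 h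

lemma Ji_J (x : V d) : Ji (J x) = x := by
  unfold Ji J
  refine Prod.ext ?_ ?_
  · ext i
    simp
  · simp

lemma J_Ji (y : En d) : J (Ji y) = y := by
  unfold Ji J
  ext i
  induction i using Fin.lastCases with
  | last => simp
  | cast i => simp

lemma Ji_sub (x y : En d) : Ji (x - y) = Ji x - Ji y := by
  unfold Ji
  refine Prod.ext ?_ ?_
  · ext i
    simp
  · simp

lemma J_sub (x y : V d) : J (x - y) = J x - J y := by
  unfold J
  ext i
  induction i using Fin.lastCases with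
  | last => simp
  | cast i => simp

lemma J_smul (c : ℝ) (x : V d) : J (c • x) = c • J x := by
  unfold J
  ext i
  induction i using Fin.lastCases with
  | last => simp
  | cast i => simp

lemma norm_sq_En (y : En d) : ‖y‖ ^ 2 = ‖(Ji y).1‖ ^ 2 + (Ji y).2 ^ 2 := by
  rw [EuclideanSpace.norm_sq_eq, EuclideanSpace.norm_sq_eq, Fin.sum_univ_castSucc]
  simp [Ji]

lemma norm_Ji (y : En d) : ‖Ji y‖ = max ‖(Ji y).1‖ |(Ji y).2| := by
  rw [Prod.norm_def, Real.norm_eq_abs]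

lemma Ji_le (y : En d) : ‖Ji y‖ ≤ ‖y‖ := by
  rw [norm_Ji]
  have h := norm_sq_En y
  have hn := norm_nonneg y
  apply max_le
  · apply le_of_sq_le_sq _ hn
    nlinarith [sq_nonneg (Ji y).2]
  · apply abs_le_of_sq_le_sq _ hn
    nlinarith [sq_nonneg ‖(Ji y).1‖]

lemma le_Ji (y : En d) : ‖y‖ ≤ 2 * ‖Ji y‖ := by
  have h := norm_sq_En y
  have hn := norm_nonneg (Ji y)
  have h0 : ‖(Ji y).1‖ ≤ ‖Ji y‖ := by
    rw [norm_Ji]; exact le_max_left _ _
  have h2 : |(Ji y).2| ≤ ‖Ji y‖ := by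
    rw [norm_Ji]; exact le_max_right _ _
  have h0' : ‖(Ji y).1‖ ^ 2 ≤ ‖Ji y‖ ^ 2 := pow_le_pow_left₀ (norm_nonneg _) h0 2
  have h2' : (Ji y).2 ^ 2 ≤ ‖Ji y‖ ^ 2 :=
    sq_le_sq' (by linarith [(abs_le.1 h2).1]) (abs_le.1 h2).2
  apply le_of_sq_le_sq _ (by positivity)
  nlinarith [sq_nonneg (‖Ji y‖)]

lemma J_le (x : V d) : ‖J x‖ ≤ 2 * ‖x‖ := by
  have := le_Ji (J x)
  rwa [Ji_J] at this

lemma le_J (x : V d) : ‖x‖ ≤ ‖J x‖ := by
  have := Ji_le (J x)
  rwa [Ji_J] at this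

lemma dist_Ji_le (y z : En d) : dist (Ji y) (Ji z) ≤ dist y z := by
  rw [dist_eq_norm, dist_eq_norm, ← Ji_sub]; exact Ji_le _

lemma dist_J_le (x y : V d) : dist (J x) (J y) ≤ 2 * dist x y := by
  rw [dist_eq_norm, dist_eq_norm, ← J_sub]; exact J_le _

lemma V_norm (u : V d) : ‖u‖ = max ‖u.1‖ |u.2| := by
  rw [Prod.norm_def, Real.norm_eq_abs]

lemma pp_lip (x y : V d) : |pp x - pp y| ≤ 2 * ‖x - y‖ := by
  unfold pp
  rw [V_norm]
  have h1 : |max (-x.2) (x.2 + ‖x.1‖) - max (-y.2) (y.2 + ‖y.1‖)| ≤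
      |x.2 - y.2| + ‖x.1 - y.1‖ := by
    refine (abs_max_sub_max_le_max _ _ _ _).trans (max_le ?_ ?_)
    · have : -x.2 - -y.2 = -(x.2 - y.2) := by ring
      rw [this, abs_neg]
      linarith [norm_nonneg (x.1 - y.1)]
    · calc |x.2 + ‖x.1‖ - (y.2 + ‖y.1‖)| = |(x.2 - y.2) + (‖x.1‖ - ‖y.1‖)| := by
            congr 1; ring
        _ ≤ _ := abs_add_le _ _
        _ ≤ _ := by gcongr; exact abs_norm_sub_norm_le _ _
  have h2 : ‖x.1 - y.1‖ ≤ max ‖(x - y).1‖ |(x - y).2| := le_max_left _ _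
  have h3 : |x.2 - y.2| ≤ max ‖(x - y).1‖ |(x - y).2| := le_max_right _ _
  have h4 := abs_le.1 h1
  rw [abs_le]
  constructor <;> linarith [h4.1, h4.2, abs_nonneg (x.2 - y.2), norm_nonneg (x.1 - y.1)]

lemma qq_lip (x y : V d) : |qq x - qq y| ≤ 2 * ‖x - y‖ := by
  unfold qq
  refine (abs_norm_sub_norm_le _ _).trans ?_
  rw [← J_sub]; exact J_le _

lemma pp_ge (x : V d) : 1 / 4 * ‖x‖ ≤ pp x := by
  unfold pp
  rw [V_norm]
  have h1 := le_max_left (-x.2) (x.2 + ‖x.1‖)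
  have h2 := le_max_right (-x.2) (x.2 + ‖x.1‖)
  have h3 := norm_nonneg x.1
  have : max ‖x.1‖ |x.2| ≤ 2 * max (-x.2) (x.2 + ‖x.1‖) := by
    apply max_le
    · linarith
    · rw [abs_le]; constructor <;> linarith
  linarith

lemma qq_ge (x : V d) : 1 / 4 * ‖x‖ ≤ qq x := by
  have := le_J x
  unfold qq
  linarith [norm_nonneg x]

lemma pp_nonneg (x : V d) : 0 ≤ pp x := by linarith [pp_ge x, norm_nonneg x]
lemma qq_nonneg (x : V d) : 0 ≤ qq x := norm_nonneg _

lemma pp_zero : pp (0 : V d) = 0 := by simp [pp]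
lemma qq_zero : qq (0 : V d) = 0 := by
  have := J_le (0 : V d)
  unfold qq
  simp at this
  simp [this]

lemma pp_le (x : V d) : pp x ≤ 2 * ‖x‖ := by
  have := pp_lip x 0
  rw [pp_zero, sub_zero, sub_zero] at this
  exact (le_abs_self _).trans this

lemma qq_le (x : V d) : qq x ≤ 2 * ‖x‖ := J_le x

lemma pp_smul {c : ℝ} (hc : 0 ≤ c) (x : V d) : pp (c • x) = c * pp x := by
  unfold pp
  rw [Prod.smul_fst, Prod.smul_snd, norm_smul, Real.norm_eq_abs, abs_of_nonneg hc, smul_eq_mul]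
  have h1 : -(c * x.2) = c * (-x.2) := by ring
  have h2 : c * x.2 + c * ‖x.1‖ = c * (x.2 + ‖x.1‖) := by ring
  rw [h1, h2, ← mul_max_of_nonneg _ _ hc]
  ring

lemma qq_smul {c : ℝ} (hc : 0 ≤ c) (x : V d) : qq (c • x) = c * qq x := by
  unfold qq
  rw [J_smul, norm_smul, Real.norm_eq_abs, abs_of_nonneg hc]

lemma pp_pos {x : V d} (h : x ≠ 0) : 0 < pp x := by
  have := norm_pos_iff.2 h
  linarith [pp_ge x]

lemma qq_pos {x : V d} (h : x ≠ 0) : 0 < qq x := by
  have := norm_pos_iff.2 h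
  linarith [qq_ge x]

lemma pp_rad (x : V d) : pp (rad qq pp x) = qq x := by
  rcases eq_or_ne x 0 with rfl | h
  · simp [rad, pp_zero, qq_zero]
  · unfold rad
    rw [pp_smul (div_nonneg (qq_nonneg _) (pp_nonneg _))]
    have := pp_pos h
    field_simp

lemma qq_rad (x : V d) : qq (rad pp qq x) = pp x := by
  rcases eq_or_ne x 0 with rfl | h
  · simp [rad, pp_zero, qq_zero]
  · unfold rad
    rw [qq_smul (div_nonneg (pp_nonneg _) (qq_nonneg _))]
    have := qq_pos h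
    field_simp

lemma rad_rad (x : V d) : rad pp qq (rad qq pp x) = x := by
  rcases eq_or_ne x 0 with rfl | h
  · simp [rad]
  · have h1 := pp_pos h
    have h2 := qq_pos h
    have h3 : rad qq pp x = (qq x / pp x) • x := rfl
    have h4 : qq (rad qq pp x) = qq x / pp x * qq x := by
      rw [h3, qq_smul (by positivity)]
    have h5 : rad pp qq (rad qq pp x) = (pp (rad qq pp x) / qq (rad qq pp x)) • rad qq pp x := rfl
    rw [h5, pp_rad, h4, h3, smul_smul]
    have : qq x / (qq x / pp x * qq x) * (qq x / pp x) = 1 := by field_simp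
    rw [this, one_smul]

lemma rad_rad' (x : V d) : rad qq pp (rad pp qq x) = x := by
  rcases eq_or_ne x 0 with rfl | h
  · simp [rad]
  · have h1 := pp_pos h
    have h2 := qq_pos h
    have h3 : rad pp qq x = (pp x / qq x) • x := rfl
    have h4 : pp (rad pp qq x) = pp x / qq x * pp x := by
      rw [h3, pp_smul (by positivity)]
    have h5 : rad qq pp (rad pp qq x) = (qq (rad pp qq x) / pp (rad pp qq x)) • rad pp qq x := rfl
    rw [h5, qq_rad, h4, h3, smul_smul]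
    have : pp x / (pp x / qq x * pp x) * (pp x / qq x) = 1 := by field_simp
    rw [this, one_smul]

lemma Ti_TT (y : En d) : Ti (TT y) = y := by
  unfold Ti TT
  rw [add_sub_cancel_left, rad_rad, J_Ji]

lemma TT_Ti (x : V d) : TT (Ti x) = x := by
  unfold Ti TT
  rw [Ji_J, rad_rad', add_sub_cancel]

lemma TT_lip (y z : En d) : dist (TT y) (TT z) ≤ 80 * dist y z := by
  unfold TT
  rw [dist_add_left]
  have h := radial_lip (c := 1 / 4) (C := 2) (by norm_num) (by norm_num) qq_lip pp_lip qq_nonneg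
    qq_le pp_ge (Ji y) (Ji z)
  have h2 := dist_Ji_le y z
  have e : (2 * ((2 : ℝ) / (1 / 4)) + 2 / (1 / 4) * (2 / (1 / 4))) = 80 := by norm_num
  rw [e] at h
  linarith

lemma Ti_lip (x y : V d) : dist (Ti x) (Ti y) ≤ 160 * dist x y := by
  unfold Ti
  have h := radial_lip (c := 1 / 4) (C := 2) (by norm_num) (by norm_num) pp_lip qq_lip pp_nonneg
    pp_le qq_ge (x - zc d) (y - zc d)
  have h2 := dist_J_le (rad pp qq (x - zc d)) (rad pp qq (y - zc d))
  have e : (2 * ((2 : ℝ) / (1 / 4)) + 2 / (1 / 4) * (2 / (1 / 4))) = 80 := by norm_num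
  rw [e, dist_sub_right] at h
  linarith

lemma pp_TT (y : En d) : pp (TT y - zc d) = ‖y‖ := by
  unfold TT
  rw [add_sub_cancel_left, pp_rad]
  unfold qq
  rw [J_Ji]

lemma mem_UU_iff (x : V d) : x ∈ UU d ↔ pp (x - zc d) ≤ 1 := by
  unfold UU pp zc
  rw [div_le_one (by norm_num), max_le_iff]
  show 0 ≤ x.2 ∧ x.2 + ‖x.1‖ ≤ 4 ↔ -(x.2 - 2) ≤ 2 ∧ x.2 - 2 + ‖x.1 - 0‖ ≤ 2
  rw [sub_zero]
  constructor <;> rintro ⟨h1, h2⟩ <;> constructor <;> linarith

lemma mem_UI_iff (x : V d) : x ∈ UI d ↔ pp (x - zc d) < 1 := by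
  unfold UI pp zc
  rw [div_lt_one (by norm_num), max_lt_iff]
  show 0 < x.2 ∧ x.2 + ‖x.1‖ < 4 ↔ -(x.2 - 2) < 2 ∧ x.2 - 2 + ‖x.1 - 0‖ < 2
  rw [sub_zero]
  constructor <;> rintro ⟨h1, h2⟩ <;> constructor <;> linarith

lemma TT_mem_UU (y : En d) : TT y ∈ UU d ↔ y ∈ closedBall (0 : En d) 1 := by
  rw [mem_UU_iff, pp_TT, mem_closedBall_zero_iff]

lemma TT_mem_UI (y : En d) : TT y ∈ UI d ↔ y ∈ ball (0 : En d) 1 := by
  rw [mem_UI_iff, pp_TT, mem_ball_zero_iff]

lemma TT_pole (y : En d) (h1 : y (Fin.last d) = -1) (h2 : ‖y‖ = 1) : TT y = 0 := by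
  have h3 := norm_sq_En y
  have h4 : (Ji y).2 = -1 := h1
  rw [h4, h2] at h3
  have h5 : ‖(Ji y).1‖ = 0 := by nlinarith [norm_nonneg (Ji y).1]
  have h6 : (Ji y).1 = 0 := norm_eq_zero.1 h5
  have h7 : pp (Ji y) = 1 / 2 := by
    unfold pp
    rw [h4, h6, norm_zero]
    norm_num
  have h8 : qq (Ji y) = 1 := by
    unfold qq
    rw [J_Ji, h2]
  unfold TT rad zc
  rw [h7, h8]
  refine Prod.ext ?_ ?_
  · simp [h6]
  · simp only [Prod.snd_add, Prod.smul_snd, smul_eq_mul, h4, Prod.snd_zero]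
    norm_num

end BALM

open BALM in
theorem specBAL : SpecBAL := by
  intro d
  refine ⟨Ji_J, J_Ji, dist_Ji_le, dist_J_le, Ti_TT, TT_Ti, ?_, Ti_lip, TT_mem_UU, TT_mem_UI,
    TT_pole⟩
  intro y z
  have h := TT_lip y z
  have h0 := dist_nonneg (x := y) (y := z)
  linarith

end

end Pool.Agent.Lib.MP739abe.BN
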