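import Pool.Agent.Lib.MP_739abe_an.BN.Spec

/-!
CAN: the Cantor set has positive measure.
-/

namespace Pool.Agent.Lib.MP739abe.BN

open Topology Filter Set Metric MeasureTheory Measure
open scoped ENNReal NNReal

noncomputable section

namespace CANM

lemma hermite (d : ℕ) (hd : 0 < d) (m : ℕ) : ∑ j ∈ Finset.range d, (m + j) / d = m := by
  induction m with
  | zero =>
    apply Finset.sum_eq_zero
    intro j hj
    rw [Finset.mem_range] at hj
    rw [zero_add]
    exact Nat.div_eq_of_lt hj
  | succ m ih =>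
    have h1 := Finset.sum_range_succ (fun j => (m + j) / d) d
    have h2 := Finset.sum_range_succ' (fun j => (m + j) / d) d
    simp only [ih] at h1
    have h3 : (m + d) / d = m / d + 1 := Nat.add_div_right m hd
    simp only [h3, add_zero] at h1 h2
    have h4 : ∑ j ∈ Finset.range d, (m + 1 + j) / d = ∑ j ∈ Finset.range d, (m + (j + 1)) / d := by
      apply Finset.sum_congr rfl
      intro j _
      congr 1
      ring
    rw [h4]
    omega

lemma sum_Ni (d : ℕ) [NeZero d] (m : ℕ) : ∑ i : Fin d, Ni d m i = m := by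
  have h1 : ∑ i : Fin d, Ni d m i = ∑ j ∈ Finset.range d, Ni d m j :=
    Fin.sum_univ_eq_sum_range (fun j => Ni d m j) d
  rw [h1]
  unfold Ni
  rw [Finset.sum_range_reflect (fun j => (m + j) / d) d]
  exact hermite d (NeZero.pos d) m

lemma rr_ge (n : ℕ) : (1 / 2 : ℝ) ^ n ≤ 2 * rr n := by
  unfold rr
  have h1 : (0 : ℝ) ≤ (1 / 2) ^ n := by positivity
  have h2 : (0 : ℝ) ≤ (1 / 4) ^ n := by positivity
  linarith

lemma prod_ge (d : ℕ) [NeZero d] (k : ℕ) : 1 ≤ (2 : ℝ) ^ k * ∏ i : Fin d, 2 * RR d k i := by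
  have h1 : ∏ i : Fin d, (1 / 2 : ℝ) ^ (Ni d k i) ≤ ∏ i : Fin d, 2 * RR d k i :=
    Finset.prod_le_prod (fun i _ => by positivity) (fun i _ => rr_ge _)
  rw [Finset.prod_pow_eq_pow_sum, sum_Ni] at h1
  calc (1 : ℝ) = 2 ^ k * (1 / 2) ^ k := by rw [← mul_pow]; norm_num
    _ ≤ _ := by gcongr

variable {d : ℕ} [NeZero d]

lemma KK_subset (hS : SpecSEQ) (k : ℕ) : ∀ m, KK d k m ⊆ {c | ∀ i, |c i| ≤ RR d m i} := by
  obtain ⟨-, -, h3, h4, -⟩ := hS d
  induction k with
  | zero => intro m; exact Subset.rfl
  | succ k ih =>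
    intro m c hc i
    have haux : ∀ (e : ℝ), |e| = aa d m → (c + Pi.single (dm d m) e) ∈ KK d k (m + 1) →
        |c i| ≤ RR d m i := by
      intro e he hce
      have h5 := ih (m + 1) hce i
      rcases eq_or_ne i (dm d m) with rfl | hi
      · rw [Pi.add_apply, Pi.single_eq_same] at h5
        have h6 : |c (dm d m)| ≤ |c (dm d m) + e| + |e| := by
          calc |c (dm d m)| = |(c (dm d m) + e) - e| := by congr 1; ring
            _ ≤ _ := abs_sub _ _
        rw [← h4 m]
        linarith
      · rw [Pi.add_apply, Pi.single_eq_of_ne hi, add_zero, h3 m i hi] at h5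
        exact h5
    have ha : 0 < aa d m := (hS d).1 m
    rcases hc with hc | hc
    · apply haux (-(aa d m)) (by rw [abs_neg, abs_of_pos ha])
      rw [Pi.single_neg, ← sub_eq_add_neg]
      exact hc
    · exact haux (aa d m) (abs_of_pos ha) hc

lemma KK_anti_succ (hS : SpecSEQ) (k : ℕ) : ∀ m, KK d (k + 1) m ⊆ KK d k m := by
  induction k with
  | zero => intro m; exact KK_subset hS 1 m
  | succ k ih =>
    intro m t ht
    rcases ht with h | h
    · exact Or.inl (ih (m + 1) h)
    · exact Or.inr (ih (m + 1) h)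

lemma KK_anti (hS : SpecSEQ) (m : ℕ) : Antitone (fun k => KK d k m) :=
  antitone_nat_of_succ_le fun k => KK_anti_succ hS k m

lemma box_eq (m : ℕ) : {c : Fin d → ℝ | ∀ i, |c i| ≤ RR d m i} =
    Icc (fun i => -RR d m i) (fun i => RR d m i) := by
  ext c
  simp only [mem_ofPred_eq, mem_Icc, Pi.le_def, abs_le]
  exact forall_and

lemma isClosed_KK (k : ℕ) : ∀ m, IsClosed (KK d k m) := by
  induction k with
  | zero =>
    intro m
    show IsClosed {c : Fin d → ℝ | ∀ i, |c i| ≤ RR d m i}
    rw [box_eq]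
    exact isClosed_Icc
  | succ k ih =>
    intro m
    exact ((ih (m + 1)).preimage (continuous_id.sub continuous_const)).union
      ((ih (m + 1)).preimage (continuous_id.add continuous_const))

lemma volume_KK (hS : SpecSEQ) (k : ℕ) : ∀ m, volume (KK d k m) =
    ENNReal.ofReal (2 ^ k * ∏ i : Fin d, 2 * RR d (m + k) i) := by
  obtain ⟨-, h2, -, -, h5, -⟩ := hS d
  have hpos : ∀ n, 0 ≤ ∏ i : Fin d, 2 * RR d n i := fun n =>
    Finset.prod_nonneg fun i _ => by
      have := h2 n i
      positivity
  induction k with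
  | zero =>
    intro m
    show volume {c : Fin d → ℝ | ∀ i, |c i| ≤ RR d m i} = _
    rw [box_eq, Real.volume_Icc_pi, ← ENNReal.ofReal_prod_of_nonneg]
    · congr 1
      rw [pow_zero, one_mul, add_zero]
      apply Finset.prod_congr rfl
      intro i _
      ring
    · intro i _
      have := h2 m i
      linarith
  | succ k ih =>
    intro m
    have hd : Disjoint {c : Fin d → ℝ | c - Pi.single (dm d m) (aa d m) ∈ KK d k (m + 1)}
        {c | c + Pi.single (dm d m) (aa d m) ∈ KK d k (m + 1)} := by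
      rw [Set.disjoint_left]
      intro c h6 h7
      have h8 := (abs_le.1 (KK_subset hS k (m + 1) h6 (dm d m))).1
      have h9 := (abs_le.1 (KK_subset hS k (m + 1) h7 (dm d m))).2
      rw [Pi.sub_apply, Pi.single_eq_same] at h8
      rw [Pi.add_apply, Pi.single_eq_same] at h9
      have := h5 m
      linarith
    have hm : MeasurableSet {c : Fin d → ℝ | c + Pi.single (dm d m) (aa d m) ∈ KK d k (m + 1)} :=
      ((isClosed_KK k (m + 1)).preimage (continuous_id.add continuous_const)).measurableSet
    show volume ({c : Fin d → ℝ | c - Pi.single (dm d m) (aa d m) ∈ KK d k (m + 1)} ∪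
      {c | c + Pi.single (dm d m) (aa d m) ∈ KK d k (m + 1)}) = _
    rw [measure_union hd hm]
    have e0 : {c : Fin d → ℝ | c - Pi.single (dm d m) (aa d m) ∈ KK d k (m + 1)} =
        (fun c => c + -Pi.single (dm d m) (aa d m)) ⁻¹' KK d k (m + 1) := by
      ext t
      rw [mem_preimage, ← sub_eq_add_neg]
      exact Iff.rfl
    have e1 : volume {c : Fin d → ℝ | c - Pi.single (dm d m) (aa d m) ∈ KK d k (m + 1)} =
        volume (KK d k (m + 1)) := by
      rw [e0]
      exact measure_preimage_add_right (volume : Measure (Fin d → ℝ)) _ (KK d k (m + 1))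
    have e2 : volume {c : Fin d → ℝ | c + Pi.single (dm d m) (aa d m) ∈ KK d k (m + 1)} =
        volume (KK d k (m + 1)) :=
      measure_preimage_add_right (volume : Measure (Fin d → ℝ)) _ (KK d k (m + 1))
    rw [e1, e2, ih (m + 1), ← ENNReal.ofReal_add]
    · congr 1
      have : m + 1 + k = m + (k + 1) := by ring
      rw [this, pow_succ]; ring
    · have := hpos (m + 1 + k); positivity
    · have := hpos (m + 1 + k); positivity

end CANM

open CANM in
theorem specCAN (hSEQ : SpecSEQ) : SpecCAN := by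
  intro d _
  have h1 : Tendsto (fun k => volume (KK d k 0)) atTop (𝓝 (volume (⋂ k, KK d k 0))) := by
    apply tendsto_measure_iInter_atTop
    · intro k; exact (isClosed_KK k 0).measurableSet.nullMeasurableSet
    · exact KK_anti hSEQ 0
    · refine ⟨0, ?_⟩
      rw [volume_KK hSEQ]
      exact ENNReal.ofReal_ne_top
  refine ge_of_tendsto' h1 fun k => ?_
  rw [volume_KK hSEQ, zero_add]
  exact ENNReal.one_le_ofReal.2 (prod_ge d k)

end

end Pool.Agent.Lib.MP739abe.BN
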