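import Pool.Agent.Lib.MP_739abe_an.BN.Spec

/-!
MP_739abe_an, module CON: continuity of the limit map on the closed model domain.
-/

namespace Pool.Agent.Lib.MP739abe.BN

open Topology Filter Set Metric MeasureTheory Measure
open scoped ENNReal NNReal

noncomputable section

namespace CONM

variable {d : ℕ}

lemma isClosed_UU : IsClosed (UU d) := by
  unfold UU
  apply IsClosed.inter
  · exact isClosed_le continuous_const continuous_snd
  · exact isClosed_le (f := fun x : V d => x.2 + ‖x.1‖) (by fun_prop) continuous_const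

lemma continuous_tau (q : H d) : Continuous (tau q) := by
  unfold tau nn
  fun_prop

lemma continuous_W (hMAP : SpecMAP) (q : H d) : Continuous (W q) := by
  have h : LipschitzWith 5 (W q) := LipschitzWith.of_dist_le_mul fun x y => by
    simpa using (hMAP d).2.1 q x y
  exact h.continuous

lemma q_ne {P : PP d} (s : St P) : s.q ≠ 0 := norm_pos_iff.1 s.q_pos

/-- the closed part of the node -/
def SA {P : PP d} (s : St P) : Set (V d) := UU d ∩ {x | s.th ≤ tau s.q x}

/-- the closed part of a tube -/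
def SB {P : PP d} (s : St P) (b : Bool) : Set (V d) :=
  UU d ∩ {x | ‖x.1 - mp s.q b‖ ≤ s.th ∧ s.rho ≤ tau s.q x ∧ tau s.q x ≤ s.th}

/-- the closed part of a child -/
def SC {P : PP d} (s : St P) (b : Bool) : Set (V d) :=
  UU d ∩ {x | ‖x.1 - mp s.q b‖ ≤ s.th ∧ tau s.q x ≤ s.rho}

lemma isClosed_SA {P : PP d} (s : St P) : IsClosed (SA s) :=
  isClosed_UU.inter (isClosed_le continuous_const (continuous_tau s.q))

lemma isClosed_SB {P : PP d} (s : St P) (b : Bool) : IsClosed (SB s b) := by
  apply isClosed_UU.inter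
  apply IsClosed.inter
  · exact isClosed_le (f := fun x : V d => ‖x.1 - mp s.q b‖) (by fun_prop) continuous_const
  · apply IsClosed.inter
    · exact isClosed_le continuous_const (continuous_tau s.q)
    · exact isClosed_le (continuous_tau s.q) continuous_const

lemma isClosed_SC {P : PP d} (s : St P) (b : Bool) : IsClosed (SC s b) := by
  apply isClosed_UU.inter
  apply IsClosed.inter
  · exact isClosed_le (f := fun x : V d => ‖x.1 - mp s.q b‖) (by fun_prop) continuous_const
  · exact isClosed_le (continuous_tau s.q) continuous_const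

lemma sd_eq (hNOD : SpecNOD) {P : PP d} (s : St P) {b : Bool} {y : H d} (h : ‖y - mp s.q b‖ ≤ s.th) :
    sd s.q y = b := by
  apply (hNOD d s.q (q_ne s) s.q_le).2.1 b y
  have h1 := s.q_pos
  unfold St.th at h
  linarith

lemma tau_eq (hNOD : SpecNOD) {P : PP d} (s : St P) (x : V d) :
    tau s.q x = x.2 + ‖x.1 - mp s.q (sd s.q x.1)‖ := by
  unfold tau
  rw [(hNOD d s.q (q_ne s) s.q_le).1 x.1]

lemma UU_eq (hNOD : SpecNOD) {P : PP d} (s : St P) (hrt : s.rho < s.th) :
    UU d = SA s ∪ ((⋃ b, SB s b) ∪ ⋃ b, SC s b) := by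
  ext x
  constructor
  · intro hx
    by_cases h : s.th ≤ tau s.q x
    · exact Or.inl ⟨hx, h⟩
    · right
      push Not at h
      have hn : ‖x.1 - mp s.q (sd s.q x.1)‖ ≤ s.th := by
        have h1 := tau_eq hNOD s x
        have h2 := hx.1
        linarith
      by_cases h2 : s.rho ≤ tau s.q x
      · exact Or.inl (mem_iUnion.2 ⟨sd s.q x.1, hx, hn, h2, h.le⟩)
      · exact Or.inr (mem_iUnion.2 ⟨sd s.q x.1, hx, hn, (not_le.1 h2).le⟩)
  · rintro (h | h | h)
    · exact h.1
    · obtain ⟨b, hb⟩ := mem_iUnion.1 h; exact hb.1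
    · obtain ⟨b, hb⟩ := mem_iUnion.1 h; exact hb.1

lemma sub_size {P : PP d} (s : St P) (b : Bool) (x : V d) :
    (s.sub b x).2 + ‖(s.sub b x).1‖ = (4 / s.rho) * (x.2 + ‖x.1 - mp s.q b‖) := by
  have hk : 0 < 4 / s.rho := div_pos (by norm_num) s.rho_pos
  show (4 / s.rho) * x.2 + ‖(4 / s.rho) • (x.1 - mp s.q b)‖ = _
  rw [norm_smul, Real.norm_eq_abs, abs_of_pos hk]
  ring

lemma continuous_sub {P : PP d} (s : St P) (b : Bool) : Continuous (s.sub b) := by
  unfold St.sub
  fun_prop

/-- the roof condition -/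
def Roof {P : PP d} (s : St P) (h : V d → V d) : Prop :=
  ∀ u ∈ UU d, u.2 + ‖u.1‖ = 4 → h u = s.w • W s.q u

variable [NeZero d]

lemma continuousOn_Phi (hMAP : SpecMAP) (hNOD : SpecNOD) (hTUB : SpecTUB) (hLIM : SpecLIM)
    {P : PP d} (s : St P) {h : Bool → V d → V d} (hc : ∀ b, ContinuousOn (h b) (UU d))
    (hr : ∀ b, Roof (s.ch b) (h b)) : ContinuousOn (s.Phi h) (UU d) := by
  obtain ⟨hrt, -, -, -, hth, hrho, -⟩ := hTUB d P s
  have hA : ContinuousOn (s.Phi h) (SA s) := by
    have : ContinuousOn (fun x => s.w • W s.q x) (SA s) :=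
      ((continuous_W hMAP s.q).const_smul s.w).continuousOn
    refine this.congr ?_
    rintro x ⟨hx, hx1⟩
    have hx1' : s.th ≤ tau s.q x := hx1
    unfold St.Phi
    rw [if_neg (not_le.2 (hrt.trans_le hx1'))]
    rcases hx1'.lt_or_eq with h1 | h1
    · rw [if_neg (not_le.2 h1)]
    · rw [if_pos h1.ge]
      exact hth _ x hx.1 (by rw [← tau_eq hNOD s]; exact h1.symm)
  have hB : ∀ b, ContinuousOn (s.Phi h) (SB s b) := by
    intro b
    have : ContinuousOn (s.tube b) (SB s b) := by
      rintro x ⟨hx, hx1, hx2, hx3⟩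
      apply ContinuousAt.continuousWithinAt
      have he := sd_eq hNOD s hx1
      rw [tau_eq hNOD s, he] at hx2
      exact (hMAP d).2.2.2.2.2.2.1 _ _ _ _ _ _ x (s.rho_pos.trans_le hx2)
    refine this.congr ?_
    rintro x ⟨hx, hx1, hx2, hx3⟩
    have he := sd_eq hNOD s hx1
    unfold St.Phi
    rcases hx2.lt_or_eq with h1 | h1
    · rw [if_neg (not_le.2 h1), if_pos hx3, he]
    · rw [if_pos h1.ge, he]
      have h2 : x.2 + ‖x.1 - mp s.q b‖ = s.rho := by
        have h3 := tau_eq hNOD s x
        rw [he] at h3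
        rw [← h3]
        exact h1.symm
      have h3 : (s.sub b x).2 + ‖(s.sub b x).1‖ = 4 := by
        rw [sub_size, h2]
        have := s.rho_pos
        field_simp
      have h4 : s.sub b x ∈ UU d := by
        have h5 := (hLIM d P).sub s x hx h1.ge
        rwa [he] at h5
      rw [hr b _ h4 h3, hrho b x h2]
  have hC : ∀ b, ContinuousOn (s.Phi h) (SC s b) := by
    intro b
    have : ContinuousOn (fun x => ((s.A b, -s.a) : V d) + h b (s.sub b x)) (SC s b) := by
      apply ContinuousOn.add continuousOn_const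
      apply (hc b).comp (continuous_sub s b).continuousOn
      rintro x ⟨hx, hx1, hx2⟩
      have he := sd_eq hNOD s hx1
      have h5 := (hLIM d P).sub s x hx hx2
      rwa [he] at h5
    refine this.congr ?_
    rintro x ⟨hx, hx1, hx2⟩
    have he := sd_eq hNOD s hx1
    have hx2' : tau s.q x ≤ s.rho := hx2
    unfold St.Phi
    rw [if_pos hx2', he]
  rw [UU_eq hNOD s hrt]
  apply ContinuousOn.union_of_isClosed hA _ (isClosed_SA s)
  · apply IsClosed.union
    · exact isClosed_iUnion_of_finite fun b => isClosed_SB s b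
    · exact isClosed_iUnion_of_finite fun b => isClosed_SC s b
  · apply ContinuousOn.union_of_isClosed
    · exact (locallyFinite_of_finite _).continuousOn_iUnion (fun b => isClosed_SB s b) hB
    · exact (locallyFinite_of_finite _).continuousOn_iUnion (fun b => isClosed_SC s b) hC
    · exact isClosed_iUnion_of_finite fun b => isClosed_SB s b
    · exact isClosed_iUnion_of_finite fun b => isClosed_SC s b

lemma roof_tau (hNOD : SpecNOD) {P : PP d} (s : St P) {u : V d} (h : u.2 + ‖u.1‖ = 4) :
    s.th < tau s.q u := by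
  have h1 := (hNOD d s.q (q_ne s) s.q_le).2.2.2.1 u.1
  have h2 := s.q_le
  have h3 := s.q_pos
  unfold tau St.th
  linarith

lemma roof_Gk (hNOD : SpecNOD) (hTUB : SpecTUB) {P : PP d} (k : ℕ) (s : St P) : Roof s (Gk k s) := by
  intro u _ h
  have h1 := roof_tau hNOD s h
  have hrt := (hTUB d P s).1
  cases k with
  | zero => rfl
  | succ k =>
    show s.Phi _ u = _
    unfold St.Phi
    rw [if_neg (not_le.2 (hrt.trans h1)), if_neg (not_le.2 h1)]

lemma continuousOn_Gk (hMAP : SpecMAP) (hNOD : SpecNOD) (hTUB : SpecTUB) (hLIM : SpecLIM)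
    {P : PP d} (k : ℕ) : ∀ s : St P, ContinuousOn (Gk k s) (UU d) := by
  induction k with
  | zero => intro s; exact ((continuous_W hMAP s.q).const_smul s.w).continuousOn
  | succ k ih =>
    intro s
    exact continuousOn_Phi hMAP hNOD hTUB hLIM s (fun b => ih (s.ch b))
      (fun b => roof_Gk hNOD hTUB k (s.ch b))

end CONM

open CONM in
theorem specCON (hMAP : SpecMAP) (hNOD : SpecNOD) (hTUB : SpecTUB) (hLIM : SpecLIM) : SpecCON := by
  intro d _ P s
  exact ((hLIM d P).conv s).continuousOn
    (Frequently.of_forall fun k => continuousOn_Gk hMAP hNOD hTUB hLIM k s)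

end

end Pool.Agent.Lib.MP739abe.BN
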