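import Pool.Agent.Lib.MP_739abe_an.BN.Spec

/-!
Module FIN: the theorem, part one (adapted from `NotAC.lean` of helper99).
-/

namespace Pool.Agent.Lib.MP739abe.BN

open Topology Filter Set Metric MeasureTheory Measure
open scoped ENNReal NNReal

noncomputable section

namespace FINM

variable {d : ℕ} [NeZero d] {P : PP d}

/-- the parametrization -/
def ff (s : St P) (g : En d ≃ₗᵢ[ℝ] En d) (y : En d) : En d := J (GG s (TT (g y)))

lemma memUU (hB : SpecBAL) (g : En d ≃ₗᵢ[ℝ] En d) (y : En d) :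
    TT (g y) ∈ UU d ↔ y ∈ closedBall (0 : En d) 1 := by
  obtain ⟨-, -, -, -, -, -, -, -, h, -, -⟩ := hB d
  rw [h (g y), mem_closedBall_zero_iff, mem_closedBall_zero_iff, g.norm_map]

lemma memUI (hB : SpecBAL) (g : En d ≃ₗᵢ[ℝ] En d) (y : En d) :
    TT (g y) ∈ UI d ↔ y ∈ ball (0 : En d) 1 := by
  obtain ⟨-, -, -, -, -, -, -, -, -, h, -⟩ := hB d
  rw [h (g y), mem_ball_zero_iff, mem_ball_zero_iff, g.norm_map]

lemma QB_TTg (hB : SpecBAL) (g : En d ≃ₗᵢ[ℝ] En d) (x : En d) :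
    QB 160 1 (fun y => TT (g y)) x := by
  obtain ⟨-, -, -, -, h5, h6, h7, h8, -, -, -⟩ := hB d
  refine QB.of_global (g := fun p => g.symm (Ti p)) ?_ ?_ ?_ ?_ x
  · intro y z
    have := h7 (g y) (g z)
    rw [g.dist_map] at this
    rw [mul_one]
    exact this
  · intro p q
    show dist (g.symm (Ti p)) (g.symm (Ti q)) ≤ 160 / 1 * dist p q
    rw [g.symm.dist_map, div_one]
    exact h8 p q
  · intro y
    show g.symm (Ti (TT (g y))) = y
    rw [h5, g.symm_apply_apply]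
  · intro p
    show TT (g (g.symm (Ti p))) = p
    rw [g.apply_symm_apply, h6]

lemma QB_J (hB : SpecBAL) (x : V d) : QB 2 1 (J : V d → En d) x := by
  obtain ⟨h1, h2, h3, h4, -, -, -, -, -, -, -⟩ := hB d
  refine QB.of_global (g := Ji) ?_ ?_ h1 h2 x
  · intro y z
    rw [mul_one]
    exact h4 y z
  · intro p q
    have := h3 p q
    have h0 : 0 ≤ dist p q := dist_nonneg
    rw [div_one]
    linarith

lemma QB_ff (hB : SpecBAL) (hLOC : SpecLOC) (s : St P) (g : En d ≃ₗᵢ[ℝ] En d) {x : En d}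
    (hx : x ∈ ball (0 : En d) 1) : ∃ l > 0, QB 7680 l (ff s g) x := by
  have hU : TT (g x) ∈ UI d := (memUI hB g x).2 hx
  obtain ⟨l, hl, hq⟩ := hLOC d P s _ hU
  refine ⟨l, hl, ?_⟩
  have h1 := QB.comp (by norm_num) (by norm_num) (by norm_num) hl (QB_TTg hB g x) hq
  have h2 := QB.comp (by norm_num) (by positivity) (by norm_num) (by norm_num) h1
    (QB_J hB ((GG s ∘ fun y => TT (g y)) x))
  have e : (2 : ℝ) * (24 * 160) = 7680 := by norm_num
  rw [e, one_mul, mul_one] at h2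
  exact h2

lemma continuous_TT (hB : SpecBAL) : Continuous (TT : En d → V d) := by
  obtain ⟨-, -, -, -, -, -, h7, -, -, -, -⟩ := hB d
  exact (LipschitzWith.of_dist_le' h7).continuous

lemma lip_J (hB : SpecBAL) : LipschitzWith (Real.toNNReal 2) (J : V d → En d) := by
  obtain ⟨-, -, -, h4, -, -, -, -, -, -, -⟩ := hB d
  exact LipschitzWith.of_dist_le' h4

lemma continuousOn_ff (hB : SpecBAL) (hCON : SpecCON) (s : St P) (g : En d ≃ₗᵢ[ℝ] En d) :
    ContinuousOn (ff s g) (closedBall 0 1) := by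
  apply (lip_J hB).continuous.comp_continuousOn
  apply (hCON d P s).comp ((continuous_TT hB).comp g.continuous).continuousOn
  intro y hy
  exact (memUU hB g y).2 hy

lemma injOn_ff (hB : SpecBAL) (hINJ : SpecINJ) (s : St P) (g : En d ≃ₗᵢ[ℝ] En d) :
    InjOn (ff s g) (closedBall 0 1) := by
  intro x hx y hy h
  obtain ⟨b1, -, -, -, b5, -, -, -, -, -, -⟩ := hB d
  have h1 : GG s (TT (g x)) = GG s (TT (g y)) := by
    have := congrArg Ji h
    unfold ff at this
    rwa [b1, b1] at this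
  have h2 := hINJ d P s ((memUU hB g x).2 hx) ((memUU hB g y).2 hy) h1
  have h3 : g x = g y := by rw [← b5 (g x), ← b5 (g y), h2]
  exact g.injective h3

section img

variable {f : En d → En d}

lemma isCompact_image (hc : ContinuousOn f (closedBall 0 1)) : IsCompact (f '' closedBall 0 1) :=
  (isCompact_closedBall 0 1).image_of_continuousOn hc

lemma isOpen_image (hq : ∀ x ∈ ball (0 : En d) 1, ∃ l > 0, QB 7680 l f x) :
    IsOpen (f '' ball 0 1) := by
  rw [isOpen_iff_mem_nhds]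
  rintro _ ⟨x, hx, rfl⟩
  obtain ⟨l, hl, hq⟩ := hq x hx
  exact hq.open_at (isOpen_ball.mem_nhds hx)

lemma closure_image (hc : ContinuousOn f (closedBall 0 1)) :
    f '' closedBall 0 1 = closure (f '' ball 0 1) := by
  apply Subset.antisymm
  · rw [← closure_ball (0 : En d) one_ne_zero]
    apply ContinuousOn.image_closure
    rw [closure_ball (0 : En d) one_ne_zero]
    exact hc
  · exact closure_minimal (image_mono ball_subset_closedBall) (isCompact_image hc).isClosed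

lemma frontier_image (hc : ContinuousOn f (closedBall 0 1)) (hi : InjOn f (closedBall 0 1))
    (hq : ∀ x ∈ ball (0 : En d) 1, ∃ l > 0, QB 7680 l f x) :
    f '' sphere 0 1 = frontier (f '' ball 0 1) := by
  rw [frontier, ← closure_image hc, (isOpen_image hq).interior_eq]
  ext p
  constructor
  · rintro ⟨x, hx, rfl⟩
    refine ⟨⟨x, sphere_subset_closedBall hx, rfl⟩, ?_⟩
    rintro ⟨y, hy, h⟩
    have := hi (ball_subset_closedBall hy) (sphere_subset_closedBall hx) h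
    subst this
    rw [mem_sphere_zero_iff_norm] at hx
    rw [mem_ball_zero_iff] at hy
    linarith
  · rintro ⟨⟨x, hx, rfl⟩, h⟩
    refine ⟨x, ?_, rfl⟩
    rw [mem_sphere_zero_iff_norm]
    rw [mem_closedBall_zero_iff] at hx
    apply le_antisymm hx
    by_contra hc
    push Not at hc
    exact h ⟨x, by rwa [mem_ball_zero_iff], rfl⟩

lemma boundary_homeo (hc : ContinuousOn f (closedBall 0 1)) (hi : InjOn f (closedBall 0 1))
    (hq : ∀ x ∈ ball (0 : En d) 1, ∃ l > 0, QB 7680 l f x) :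
    Nonempty (frontier (f '' ball 0 1) ≃ₜ sphere (0 : En d) 1) := by
  have hb : BijOn f (sphere 0 1) (frontier (f '' ball 0 1)) := by
    rw [← frontier_image hc hi hq]
    exact (hi.mono sphere_subset_closedBall).bijOn_image
  have : CompactSpace (sphere (0 : En d) 1) :=
    isCompact_iff_compactSpace.1 (isCompact_sphere 0 1)
  have hc : Continuous (BijOn.equiv f hb) := by
    apply Continuous.subtype_mk
    exact (hc.mono sphere_subset_closedBall).domRestrict
  exact ⟨(hc.homeoOfEquivCompactToT2).symm⟩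

lemma jordan (hc : ContinuousOn f (closedBall 0 1)) (hi : InjOn f (closedBall 0 1))
    (hq : ∀ x ∈ ball (0 : En d) 1, ∃ l > 0, QB 7680 l f x) :
    IsJordanDomain (n := d + 1) (f '' ball 0 1) where
  isOpen := isOpen_image hq
  isConnected := by
    refine ⟨⟨f 0, 0, by simp, rfl⟩, ?_⟩
    exact (convex_ball (0 : En d) 1).isPreconnected.image _
      (hc.mono ball_subset_closedBall)
  isBounded := (isCompact_image hc).isBounded.subset (image_mono ball_subset_closedBall)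
  boundary := boundary_homeo hc hi hq

lemma dilatation (hq : ∀ x ∈ ball (0 : En d) 1, ∃ l > 0, QB 7680 l f x) :
    BoundedDilatation (n := d + 1) (7680 * 7680) f (ball 0 1) := by
  intro x hx
  obtain ⟨l, hl, hq⟩ := hq x hx
  obtain ⟨N, hN, h⟩ := hq.two_sided (by norm_num) hl
  obtain ⟨δ, hδ, hb⟩ := Metric.mem_nhds_iff.1 hN
  refine ⟨δ, hδ, fun y z hy hyz => ?_⟩
  have hyN : y ∈ N := hb hy
  have hzN : z ∈ N := hb (by rw [mem_ball, ← hyz]; exact hy)
  have hxN : x ∈ N := mem_of_mem_nhds hN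
  have h1 := (h y hyN x hxN).2
  have h2 := (h z hzN x hxN).1
  rw [hyz] at h1
  calc dist (f y) (f x) ≤ 7680 * l * dist z x := h1
    _ = 7680 * 7680 * (l / 7680 * dist z x) := by ring
    _ ≤ 7680 * 7680 * dist (f z) (f x) := by gcongr

lemma scaled (hq : ∀ x ∈ ball (0 : En d) 1, ∃ l > 0, QB 7680 l f x) :
    LocallyScaledBiLipschitz (n := d + 1) (7680 * 7680) f (ball 0 1) := by
  intro x hx
  obtain ⟨l, hl, hq⟩ := hq x hx
  obtain ⟨N, hN, h⟩ := hq.two_sided (by norm_num) hl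
  obtain ⟨δ, hδ, hb⟩ := Metric.mem_nhds_iff.1 hN
  refine ⟨l / 7680, by positivity, δ, hδ, fun y hy z hz => ?_⟩
  obtain ⟨h1, h2⟩ := h y (hb hy) z (hb hz)
  refine ⟨h1, h2.trans (le_of_eq ?_)⟩
  ring

end img

/-- the sphere goes into the image of the boundary of the model domain -/
lemma image_sphere_subset (hB : SpecBAL) (s : St P) (g : En d ≃ₗᵢ[ℝ] En d) :
    ff s g '' sphere 0 1 ⊆ J '' (GG s '' (UU d \ UI d)) := by
  rintro _ ⟨x, hx, rfl⟩
  refine ⟨GG s (TT (g x)), ⟨TT (g x), ⟨?_, ?_⟩, rfl⟩, rfl⟩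
  · exact (memUU hB g x).2 (sphere_subset_closedBall hx)
  · intro h
    have h2 := (memUI hB g x).1 h
    rw [mem_sphere_zero_iff_norm] at hx
    rw [mem_ball_zero_iff] at h2
    linarith

lemma measure_J_le (hB : SpecBAL) (S : Set (V d)) :
    μH[(d : ℝ)] (J '' S : Set (En d)) ≤ ((Real.toNNReal 2 : ℝ≥0) : ℝ≥0∞) ^ (d : ℝ) * μH[(d : ℝ)] S :=
  (lip_J hB).hausdorffMeasure_image_le (Nat.cast_nonneg d) S

/-- the bottom comes from the given set -/
lemma bottom (hNUL : SpecNUL) (hB : SpecBAL) (s : St P) (g : En d ≃ₗᵢ[ℝ] En d) (K0 : Set (En d))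
    (hK0 : IsCompact K0) (hC : P.C ⊆ {y | ((y, 0) : V d) ∈ TT '' (g '' K0)}) (hp : s.p = 0)
    (hR : s.R = 1) {x : V d} (hx : x ∈ UU d) (h : (GG s x).2 = -vv d s.m) :
    ∃ k ∈ K0, ff s g k = J (GG s x) := by
  obtain ⟨h1, h2⟩ := hNUL d P s x hx h
  rw [hp, hR, one_smul, zero_add] at h2
  have hcomp : IsCompact (TT '' (g '' K0) : Set (V d)) :=
    (hK0.image g.continuous).image (continuous_TT hB)
  have hcl : IsClosed {y : H d | ((y, 0) : V d) ∈ TT '' (g '' K0)} :=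
    hcomp.isClosed.preimage (by fun_prop : Continuous fun y : H d => ((y, 0) : V d))
  have h3 : x.1 ∈ {y : H d | ((y, 0) : V d) ∈ TT '' (g '' K0)} := closure_minimal hC hcl h2
  obtain ⟨_, ⟨k, hk, rfl⟩, h4⟩ := h3
  refine ⟨k, hk, ?_⟩
  have h5 : TT (g k) = x := by
    rw [h4]
    exact Prod.ext rfl h1.symm
  show J (GG s (TT (g k))) = _
  rw [h5]

/-- the coordinates are `1`-Lipschitz -/
lemma lip_coord : LipschitzWith 1 (fun (y : En d) (i : Fin d) => y i.castSucc) := by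
  refine LipschitzWith.of_dist_le_mul fun x y => ?_
  rw [NNReal.coe_one, one_mul]
  refine (dist_pi_le_iff dist_nonneg).2 fun i => ?_
  rw [dist_eq_norm, dist_eq_norm]
  exact PiLp.norm_apply_le (x - y) i.castSucc

/-- lower bound for the image of the set -/
lemma one_le (hATT : SpecATT) (hCAN : SpecCAN) (hNUL : SpecNUL) (hB : SpecBAL) (s : St P)
    (g : En d ≃ₗᵢ[ℝ] En d) (K0 : Set (En d)) (hK0 : IsCompact K0)
    (hC : P.C ⊆ {y | ((y, 0) : V d) ∈ TT '' (g '' K0)}) (hp : s.p = 0) (hR : s.R = 1)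
    (hm : s.m = 0) : (1 : ℝ≥0∞) ≤ μH[(d : ℝ)] (ff s g '' K0) := by
  have h1 : (⋂ k, KK d k 0) ⊆ (fun (y : En d) (i : Fin d) => y i.castSucc) '' (ff s g '' K0) := by
    intro c hc
    rw [mem_iInter] at hc
    obtain ⟨x, hx, h⟩ := hATT d P s c (by rw [hm]; exact hc)
    obtain ⟨k, hk, h2⟩ := bottom hNUL hB s g K0 hK0 hC hp hR hx (by rw [h])
    refine ⟨ff s g k, ⟨k, hk, rfl⟩, ?_⟩
    rw [h2, h]
    funext i
    simp [J]
  have h2 := lip_coord.hausdorffMeasure_image_le (d := (d : ℝ)) (Nat.cast_nonneg d)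
    (ff s g '' K0)
  have h3 : (μH[(d : ℝ)] : Measure (Fin d → ℝ)) = volume := by
    have := hausdorffMeasure_pi_real (ι := Fin d)
    simpa using this
  rw [h3] at h2
  have h4 := (hCAN d).trans ((measure_mono h1).trans h2)
  simpa using h4

end FINM

open FINM in
theorem specFIN (_hMAP : SpecMAP) (_hLIM : SpecLIM) (hCON : SpecCON) (hINJ : SpecINJ)
    (hLOC : SpecLOC) (hCAN : SpecCAN) (hATT : SpecATT) (hNUL : SpecNUL) (hARE : SpecARE)
    (hBAL : SpecBAL) (hPER : SpecPER) (hROT : SpecROT) : SpecFIN := by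
  refine ⟨7680 * 7680, ?_⟩
  intro n hn E hE hEm hEc ε hε
  obtain ⟨d, rfl⟩ : ∃ d, n = d + 1 := ⟨n - 1, by omega⟩
  have hd : 2 ≤ d := by omega
  have : NeZero d := ⟨by omega⟩
  obtain ⟨K0, hK0E, hK0c, hK0n, hK0p⟩ := hPER (d + 1) E hEm hEc
  obtain ⟨g, C, hCdef, hC0, hCacc⟩ := hROT d K0 (hK0E.trans hE) hK0c hK0n hK0p
  obtain ⟨A, hA, hAre⟩ := hARE d hd
  -- the small number
  set a : ℝ≥0∞ := ((Real.toNNReal 2 : ℝ≥0) : ℝ≥0∞) ^ (d : ℝ) * A with ha
  have h2top : ((Real.toNNReal 2 : ℝ≥0) : ℝ≥0∞) ^ (d : ℝ) < ⊤ :=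
    ENNReal.rpow_lt_top_of_nonneg (Nat.cast_nonneg d) ENNReal.coe_ne_top
  have hatop : a < ⊤ := ENNReal.mul_lt_top h2top hA
  set ε' : ℝ := min 1 (ε / (2 * (a.toReal + 1))) with hε'
  have ha0 : 0 ≤ a.toReal := ENNReal.toReal_nonneg
  have hε'0 : 0 < ε' := lt_min one_pos (by positivity)
  have hε'1 : a.toReal * ε' < ε := by
    have h1 : ε' ≤ ε / (2 * (a.toReal + 1)) := min_le_right _ _
    calc a.toReal * ε' ≤ a.toReal * (ε / (2 * (a.toReal + 1))) :=
          mul_le_mul_of_nonneg_left h1 ha0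
      _ ≤ (a.toReal + 1) * (ε / (2 * (a.toReal + 1))) :=
          mul_le_mul_of_nonneg_right (by linarith) (by positivity)
      _ = ε / 2 := by field_simp
      _ < ε := by linarith
  set P : PP d := ⟨C, hCacc, ε', hε'0, min_le_left _ _⟩ with hP
  set s : St P := ⟨0, 1, ε' / 8, 0, hC0, one_pos, by positivity, by
    show ε' / 8 ≤ ε' / 8 * (1 / 16) ^ 0
    simp⟩ with hs
  have hCsub : P.C ⊆ {y | ((y, 0) : V d) ∈ TT '' (g '' K0)} := by
    intro y hy
    have h1 : y ∈ C := hy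
    rw [hCdef] at h1
    exact h1.2
  have hc := continuousOn_ff hBAL hCON s g
  have hi := injOn_ff hBAL hINJ s g
  have hq : ∀ x ∈ ball (0 : En d) 1, ∃ l > 0, QB 7680 l (ff s g) x :=
    fun x hx => QB_ff hBAL hLOC s g hx
  have hdim : (((d + 1 : ℕ) : ℝ) - 1) = (d : ℝ) := by push_cast; ring
  obtain ⟨hA1, hA2⟩ := hAre P s rfl
  have hlow : (1 : ℝ≥0∞) ≤ μH[(d : ℝ)] (ff s g '' E) :=
    (one_le hATT hCAN hNUL hBAL s g K0 hK0c hCsub rfl rfl rfl).trans
      (measure_mono (image_mono hK0E))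
  refine ⟨ff s g '' ball 0 1, ff s g, jordan hc hi hq, ?_, ⟨hc, hi, rfl, closure_image hc,
    frontier_image hc hi hq, dilatation hq⟩, scaled hq, ?_, ?_⟩
  · rw [hdim, ← frontier_image hc hi hq]
    refine (measure_mono (image_sphere_subset hBAL s g)).trans_lt ?_
    exact (measure_J_le hBAL _).trans_lt (ENNReal.mul_lt_top h2top hA2)
  · rw [hdim]
    exact lt_of_lt_of_le one_pos hlow
  · rw [hdim, ← frontier_image hc hi hq]
    have h1 : ff s g '' sphere 0 1 \ ff s g '' E ⊆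
        J '' (GG s '' (UU d \ UI d) \ {p | p.2 = -vv d 0}) := by
      rintro y ⟨hy, hyE⟩
      obtain ⟨p, ⟨x, hx, rfl⟩, rfl⟩ := image_sphere_subset hBAL s g hy
      refine ⟨GG s x, ⟨⟨x, hx, rfl⟩, ?_⟩, rfl⟩
      intro h
      obtain ⟨k, hk, h2⟩ := bottom hNUL hBAL s g K0 hK0c hCsub rfl rfl hx.1 h
      exact hyE ⟨k, hK0E hk, h2⟩
    calc μH[(d : ℝ)] (ff s g '' sphere 0 1 \ ff s g '' E)
        ≤ μH[(d : ℝ)] (J '' (GG s '' (UU d \ UI d) \ {p | p.2 = -vv d 0}) : Set (En d)) :=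
          measure_mono h1
      _ ≤ ((Real.toNNReal 2 : ℝ≥0) : ℝ≥0∞) ^ (d : ℝ) *
          μH[(d : ℝ)] (GG s '' (UU d \ UI d) \ {p | p.2 = -vv d 0}) := measure_J_le hBAL _
      _ ≤ ((Real.toNNReal 2 : ℝ≥0) : ℝ≥0∞) ^ (d : ℝ) * (A * ENNReal.ofReal P.ε) :=
          mul_le_mul_right hA1 _
      _ = a * ENNReal.ofReal ε' := by rw [ha, mul_assoc]
      _ = ENNReal.ofReal (a.toReal * ε') := by
          rw [ENNReal.ofReal_mul ha0, ENNReal.ofReal_toReal hatop.ne]
      _ < ENNReal.ofReal ε := (ENNReal.ofReal_lt_ofReal_iff hε).2 hε'1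
      _ = ENNReal.ofReal ε * 1 := (mul_one _).symm
      _ ≤ ENNReal.ofReal ε * μH[(d : ℝ)] (ff s g '' E) := mul_le_mul_right hlow _

end

end Pool.Agent.Lib.MP739abe.BN
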