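import Pool.Agent.Lib.MP_739abe_an.BN.Spec

/-!
# INJ: the limit map is injective (from SEQ, MAP, NOD, TUB, LIM)
-/

set_option autoImplicit false

namespace Pool.Agent.Lib.MP739abe.BN

open Topology Filter Set Metric MeasureTheory Measure
open scoped ENNReal NNReal

noncomputable section

namespace INJM

variable {d : ℕ}

theorem norm_le {x : V d} (hx : x ∈ UU d) : ‖x.1‖ ≤ 4 ∧ 0 ≤ x.2 ∧ x.2 ≤ 4 := by
  obtain ⟨h1, h2⟩ := hx
  have := norm_nonneg x.1
  exact ⟨by linarith, h1, by linarith⟩

theorem dist_le {x y : V d} (hx : x ∈ UU d) (hy : y ∈ UU d) : dist x y ≤ 8 := by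
  obtain ⟨h1, h2, h3⟩ := norm_le hx
  obtain ⟨h4, h5, h6⟩ := norm_le hy
  rw [Prod.dist_eq, max_le_iff]
  constructor
  · rw [dist_eq_norm]
    exact (norm_sub_le _ _).trans (by linarith)
  · rw [Real.dist_eq, abs_le]
    constructor <;> linarith

theorem sub_dist [NeZero d] {P : PP d} (s : St P) (b : Bool) (x y : V d) :
    dist (s.sub b x) (s.sub b y) = 4 / s.rho * dist x y := by
  have h0 : 0 < 4 / s.rho := div_pos (by norm_num) s.rho_pos
  unfold St.sub
  rw [dist_smul₀, Real.norm_of_nonneg h0.le]
  congr 1
  rw [Prod.dist_eq, Prod.dist_eq]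
  congr 1
  simp only [dist_eq_norm]
  congr 1
  abel

theorem child_w {P : PP d} (s : St P) (b : Bool) : 4 * (s.ch b).w = s.w * s.th := by
  change 4 * (s.w * (‖s.q‖ / 32)) = s.w * (‖s.q‖ / 8)
  ring

end INJM

open INJM

theorem specINJ (hSEQ : SpecSEQ) (hMAP : SpecMAP) (hNOD : SpecNOD) (hTUB : SpecTUB)
    (hLIM : SpecLIM) : SpecINJ := by
  intro d _ P s0 x0 hx0 y0 hy0 hxy0
  have hL := hLIM d P
  obtain ⟨haa, -, -, -, hRa, -⟩ := hSEQ d
  obtain ⟨-, -, -, hWi, -, -, -, hTBinj⟩ := hMAP d
  have key : ∀ k : ℕ, ∀ s : St P, ∀ x ∈ UU d, ∀ y ∈ UU d, GG s x = GG s y →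
      dist x y ≤ 8 * (1 / 8) ^ k := by
    intro k
    induction k with
    | zero =>
      intro s x hx y hy _
      rw [pow_zero, mul_one]
      exact dist_le hx hy
    | succ k ih =>
      intro s x hx y hy hxy
      have hpos : (0 : ℝ) ≤ 8 * (1 / 8) ^ (k + 1) := by positivity
      have hq0 : s.q ≠ 0 := norm_pos_iff.1 s.q_pos
      obtain ⟨n1, -, -, -, -, -, -, n8⟩ := hNOD d s.q hq0 s.q_le
      obtain ⟨t1, t2, -, -, -, -, t7, t8, -, t10⟩ := hTUB d P s
      have ha : 0 < s.a := haa s.m
      have hw := s.hw
      have hth := s.th_pos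
      have hq := s.q_pos
      have htau : ∀ z : V d, tau s.q z = z.2 + ‖z.1 - mp s.q (sd s.q z.1)‖ := by
        intro z
        unfold tau
        rw [n1]
      -- heights
      have hC : ∀ z ∈ UU d, tau s.q z ≤ s.rho → (GG s z).2 ≤ s.w * s.th - s.a := by
        intro z hz ht
        rw [hL.C s z hz ht, Prod.snd_add]
        have h1 := (hL.bd (s.ch (sd s.q z.1)) _ (hL.sub s z hz ht)).2.2
        rw [child_w] at h1
        change -s.a + _ ≤ _
        linarith
      have hT : ∀ z ∈ UU d, s.rho < tau s.q z → tau s.q z ≤ s.th →
          s.w * s.th - s.a < (GG s z).2 ∧ (GG s z).2 ≤ s.w * (‖s.q‖ + s.th) := by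
        intro z hz h1 h2
        rw [hL.B s z hz h1.le h2]
        rw [htau] at h1 h2
        exact ⟨t8 _ z h1, (t7 _ z h1.le h2).2⟩
      have hN : ∀ z ∈ UU d, s.th < tau s.q z → s.w * (‖s.q‖ + s.th) < (GG s z).2 := by
        intro z hz h1
        rw [hL.A s z hz h1.le]
        have h2 : s.th < ‖s.q‖ := by unfold St.th; linarith
        have h3 := n8 z hz s.th h2 h1
        change _ < s.w * (W s.q z).2
        exact mul_lt_mul_of_pos_left h3 hw
      have hmid : s.w * s.th - s.a < s.w * (‖s.q‖ + s.th) := by nlinarith
      have hxy2 : (GG s x).2 = (GG s y).2 := by rw [hxy]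
      rcases lt_or_ge s.th (tau s.q x) with hx1 | hx1
      · -- node
        have h1 := hN x hx hx1
        have hy1 : s.th < tau s.q y := by
          by_contra hcon
          push Not at hcon
          rcases le_or_gt (tau s.q y) s.rho with h2 | h2
          · have := hC y hy h2
            linarith
          · have := (hT y hy h2 hcon).2
            linarith
        rw [hL.A s x hx hx1.le, hL.A s y hy hy1.le] at hxy
        have h2 : W s.q x = W s.q y := smul_right_injective _ hw.ne' hxy
        have h3 : x = y := by rw [← hWi s.q x, h2, hWi]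
        rw [h3, dist_self]
        exact hpos
      rcases lt_or_ge s.rho (tau s.q x) with hx2 | hx2
      · -- tube
        have h1 := hT x hx hx2 hx1
        have hy1 : tau s.q y ≤ s.th := by
          by_contra hcon
          push Not at hcon
          have := hN y hy hcon
          linarith
        have hy2 : s.rho < tau s.q y := by
          by_contra hcon
          push Not at hcon
          have := hC y hy hcon
          linarith
        rw [hL.B s x hx hx2.le hx1, hL.B s y hy hy2.le hy1] at hxy
        rw [htau] at hx1 hx2 hy1 hy2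
        rcases hbx : sd s.q x.1 with _ | _
        · rcases hby : sd s.q y.1 with _ | _
          · rw [hbx, hby] at hxy
            rw [hbx] at hx2
            rw [hby] at hy2
            have h3 := hTBinj _ _ _ _ _ _ x y (mul_pos hw hth) (s.rho_pos.trans hx2) (s.rho_pos.trans hy2) hxy
            rw [h3, dist_self]
            exact hpos
          · rw [hbx, hby] at hxy
            rw [hbx] at hx1 hx2
            rw [hby] at hy1 hy2
            exact absurd hxy.symm (t10 y hy x hx hy2.le hy1 hx2.le hx1)
        · rcases hby : sd s.q y.1 with _ | _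
          · rw [hbx, hby] at hxy
            rw [hbx] at hx1 hx2
            rw [hby] at hy1 hy2
            exact absurd hxy (t10 x hx y hy hx2.le hx1 hy2.le hy1)
          · rw [hbx, hby] at hxy
            rw [hbx] at hx2
            rw [hby] at hy2
            have h3 := hTBinj _ _ _ _ _ _ x y (mul_pos hw hth) (s.rho_pos.trans hx2) (s.rho_pos.trans hy2) hxy
            rw [h3, dist_self]
            exact hpos
      · -- children
        have h1 := hC x hx hx2
        have hy2 : tau s.q y ≤ s.rho := by
          by_contra hcon
          push Not at hcon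
          rcases le_or_gt (tau s.q y) s.th with h2 | h2
          · have := (hT y hy hcon h2).1
            linarith
          · have := hN y hy h2
            linarith
        rw [hL.C s x hx hx2, hL.C s y hy hy2] at hxy
        have hsx := hL.sub s x hx hx2
        have hsy := hL.sub s y hy hy2
        have hbx' := (hL.bd (s.ch (sd s.q x.1)) _ hsx).1 (dm d s.m)
        have hby' := (hL.bd (s.ch (sd s.q y.1)) _ hsy).1 (dm d s.m)
        have hRa' := hRa s.m
        have hmx : (s.ch (sd s.q x.1)).m = s.m + 1 := rfl
        have hmy : (s.ch (sd s.q y.1)).m = s.m + 1 := rfl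
        rw [hmx] at hbx'
        rw [hmy] at hby'
        by_cases hb : sd s.q x.1 = sd s.q y.1
        · rw [← hb] at hxy hsy
          have h2 := add_left_cancel hxy
          have h3 := ih (s.ch (sd s.q x.1)) _ hsx _ hsy h2
          rw [sub_dist] at h3
          have hρ := s.rho_pos
          have h4 : dist x y = s.rho / 4 * (4 / s.rho * dist x y) := by
            field_simp
          rw [h4]
          calc s.rho / 4 * (4 / s.rho * dist x y) ≤ s.rho / 4 * (8 * (1 / 8) ^ k) :=
                mul_le_mul_of_nonneg_left h3 (by linarith)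
            _ ≤ 1 / 8 * (8 * (1 / 8) ^ k) := by
                refine mul_le_mul_of_nonneg_right (by linarith) (by positivity)
            _ = 8 * (1 / 8) ^ (k + 1) := by rw [pow_succ]; ring
        · exfalso
          have hfst := congrArg (fun z : V d => z.1 (dm d s.m)) hxy
          simp only [Prod.fst_add, PiLp.add_apply] at hfst
          have hsgn : s.sgn = 1 ∨ s.sgn = -1 := by
            unfold St.sgn
            split_ifs
            · exact Or.inl rfl
            · exact Or.inr rfl
          have hAt : s.A true (dm d s.m) = s.sgn * s.a := by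
            unfold St.A
            simp
          have hAf : s.A false (dm d s.m) = -(s.sgn * s.a) := by
            unfold St.A
            simp
          have haa' : s.a = aa d s.m := rfl
          rw [abs_le] at hbx' hby'
          obtain ⟨b1, b2⟩ := hbx'
          obtain ⟨b3, b4⟩ := hby'
          rcases hbx : sd s.q x.1 with _ | _
          · have hby : sd s.q y.1 = true := by
              rcases h : sd s.q y.1 with _ | _
              · exact absurd (hbx.trans h.symm) hb
              · rfl
            rw [hbx] at hfst b1 b2
            rw [hby] at hfst b3 b4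
            change (s.A false) (dm d s.m) + _ = (s.A true) (dm d s.m) + _ at hfst
            rw [hAt, hAf] at hfst
            rcases hsgn with h | h <;> rw [h] at hfst <;> linarith
          · have hby : sd s.q y.1 = false := by
              rcases h : sd s.q y.1 with _ | _
              · rfl
              · exact absurd (hbx.trans h.symm) hb
            rw [hbx] at hfst b1 b2
            rw [hby] at hfst b3 b4
            change (s.A true) (dm d s.m) + _ = (s.A false) (dm d s.m) + _ at hfst
            rw [hAt, hAf] at hfst
            rcases hsgn with h | h <;> rw [h] at hfst <;> linarith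
  have hlim : Tendsto (fun k : ℕ => (8 : ℝ) * (1 / 8) ^ k) atTop (𝓝 (8 * 0)) :=
    (tendsto_pow_atTop_nhds_zero_of_lt_one (by norm_num) (by norm_num)).const_mul 8
  rw [mul_zero] at hlim
  have h0 : dist x0 y0 ≤ 0 := ge_of_tendsto' hlim fun k => key k s0 x0 hx0 y0 hy0 hxy0
  exact dist_le_zero.1 h0

end

end Pool.Agent.Lib.MP739abe.BN
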