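import Pool.Agent.Lib.MP_739abe_an.BN.Spec

/-!
MP_739abe_an, wave 24, module LIM: existence of the limit map and its functional equation.
-/

namespace Pool.Agent.Lib.MP739abe.BN

open Topology Filter Set Metric MeasureTheory Measure
open scoped ENNReal NNReal

noncomputable section

namespace LIMM

variable {d : ℕ}

/-! ### norms and coordinates -/

lemma coord_le (y : H d) (i : Fin d) : |y i| ≤ ‖y‖ := by
  have h := PiLp.norm_apply_le y i
  simpa [Real.norm_eq_abs] using h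

lemma norm_le_sum (y : H d) : ‖y‖ ≤ ∑ i, |y i| := by
  rw [EuclideanSpace.norm_eq]
  apply Real.sqrt_le_iff.2
  refine ⟨Finset.sum_nonneg fun i _ => abs_nonneg _, ?_⟩
  have h : ∀ (S : Finset (Fin d)), ∑ i ∈ S, ‖y i‖ ^ 2 ≤ (∑ i ∈ S, |y i|) ^ 2 := by
    intro S
    induction S using Finset.induction_on with
    | empty => simp
    | insert a S ha ih =>
      rw [Finset.sum_insert ha, Finset.sum_insert ha, Real.norm_eq_abs]
      have h1 : 0 ≤ ∑ i ∈ S, |y i| := Finset.sum_nonneg fun i _ => abs_nonneg _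
      nlinarith [abs_nonneg (y a), mul_nonneg (abs_nonneg (y a)) h1]
  exact h Finset.univ

lemma Bd_norm {m : ℕ} {w : ℝ} {p : V d} (h4 : 4 * w ≤ vv d m) (h : Bd m w p) :
    ‖p‖ ≤ vv d m := by
  obtain ⟨h1, h2, h3⟩ := h
  rw [Prod.norm_def]
  refine max_le ?_ ?_
  · exact (norm_le_sum p.1).trans (Finset.sum_le_sum fun i _ => h1 i)
  · rw [Real.norm_eq_abs, abs_le]
    exact ⟨h2, h3.trans h4⟩

/-! ### the sequences -/

variable {P : PP d}

lemma w_le (s : St P) : 4 * s.w ≤ 4 * ((1 / 16 : ℝ) ^ s.m / 8) := by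
  have h1 := s.hwm
  have h2 := P.ε_le
  have h3 : (0 : ℝ) < (1 / 16) ^ s.m := by positivity
  have h4 : P.ε / 8 * (1 / 16) ^ s.m ≤ 1 / 8 * (1 / 16) ^ s.m := by
    apply mul_le_mul_of_nonneg_right _ h3.le
    linarith
  linarith

lemma q_ne (s : St P) : s.q ≠ 0 := norm_pos_iff.1 s.q_pos

lemma th_le (s : St P) : s.th ≤ 1 / 8 := by
  have := s.q_le
  unfold St.th
  linarith

lemma kap_pos (s : St P) : 0 < 4 / s.rho := div_pos (by norm_num) s.rho_pos

lemma norm_fst_le {x : V d} (hx : x ∈ UU d) : ‖x.1‖ ≤ 4 := by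
  have := hx.1; have := hx.2; linarith

variable [NeZero d]

lemma a_pos (hSEQ : SpecSEQ) (s : St P) : 0 < s.a := (hSEQ d).1 s.m

lemma w_le_RR (hSEQ : SpecSEQ) (s : St P) (i : Fin d) : 4 * s.w ≤ RR d s.m i :=
  (w_le s).trans ((hSEQ d).2.2.2.2.2.2.2.2.1 s.m i)

lemma w_le_vv (hSEQ : SpecSEQ) (s : St P) : 4 * s.w ≤ vv d s.m :=
  (w_le_RR hSEQ s (dm d s.m)).trans ((hSEQ d).2.2.2.2.2.2.2.1 s.m _)

/-! ### the bounds -/

lemma Bd_W (hSEQ : SpecSEQ) (hNOD : SpecNOD) (s : St P) {x : V d} (hx : x ∈ UU d) :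
    Bd s.m s.w (s.w • W s.q x) := by
  have hw := s.hw
  obtain ⟨-, -, -, -, -, -, n7, -⟩ := hNOD d s.q (q_ne s) s.q_le
  obtain ⟨h1, h2⟩ := n7 x hx
  refine ⟨fun i => ?_, ?_, ?_⟩
  · show |s.w * x.1 i| ≤ _
    rw [abs_mul, abs_of_pos hw]
    calc s.w * |x.1 i| ≤ s.w * 4 := by
          apply mul_le_mul_of_nonneg_left _ hw.le
          exact (coord_le _ _).trans (norm_fst_le hx)
      _ ≤ RR d s.m i := by linarith [w_le_RR hSEQ s i]
  · show _ ≤ s.w * (W s.q x).2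
    have h3 : 0 ≤ s.w * (W s.q x).2 := mul_nonneg hw.le h1
    have h4 := (hSEQ d).2.2.2.2.2.2.1 s.m
    linarith
  · show s.w * (W s.q x).2 ≤ _
    nlinarith

lemma A_apply (s : St P) (b : Bool) (i : Fin d) :
    |(s.A b) i| ≤ if i = dm d s.m then |s.a| else 0 := by
  have h0 : (s.A b) i = ((if b then 1 else -1) * s.sgn * s.a) *
      (EuclideanSpace.single (dm d s.m) (1 : ℝ)) i := rfl
  have h1 : |(if b then (1 : ℝ) else -1)| = 1 := by cases b <;> simp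
  have h2 : |s.sgn| = 1 := by
    unfold St.sgn
    split_ifs <;> simp
  rw [h0, PiLp.single_apply]
  generalize (if b then (1 : ℝ) else -1) = c at h1
  by_cases h : i = dm d s.m
  · rw [if_pos h, if_pos h, mul_one, abs_mul, abs_mul, h1, h2]; simp
  · rw [if_neg h, if_neg h]; simp

lemma Bd_child (hSEQ : SpecSEQ) (s : St P) {b : Bool} {p : V d}
    (hp : Bd (s.m + 1) (s.ch b).w p) : Bd s.m s.w ((s.A b, -s.a) + p) := by
  have ha := a_pos hSEQ s
  obtain ⟨h1, h2, h3⟩ := hp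
  obtain ⟨-, -, s3, s4, -, s6, -⟩ := hSEQ d
  refine ⟨fun i => ?_, ?_, ?_⟩
  · show |(s.A b) i + p.1 i| ≤ _
    refine (abs_add_le _ _).trans ?_
    have hA := A_apply s b i
    have hp1 := h1 i
    by_cases hi : i = dm d s.m
    · rw [if_pos hi, abs_of_pos ha] at hA
      rw [hi] at hA hp1 ⊢
      have h4 := s4 s.m
      have : s.a = aa d s.m := rfl
      linarith
    · rw [if_neg hi] at hA
      rw [← s3 s.m i hi]
      linarith
  · show _ ≤ -s.a + p.2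
    have h4 := s6 s.m
    have : s.a = aa d s.m := rfl
    linarith
  · show -s.a + p.2 ≤ _
    have h4 : (s.ch b).w = s.w * (‖s.q‖ / 32) := rfl
    rw [h4] at h3
    have h5 := s.hw
    have h6 := s.q_le
    have h7 := s.q_pos
    nlinarith

/-! ### the coordinates of the child -/

lemma tau_eq (hNOD : SpecNOD) (s : St P) (x : V d) :
    tau s.q x = x.2 + ‖x.1 - mp s.q (sd s.q x.1)‖ := by
  unfold tau
  rw [(hNOD d s.q (q_ne s) s.q_le).1]

lemma sub_size (s : St P) (b : Bool) (x : V d) :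
    (s.sub b x).2 + ‖(s.sub b x).1‖ = (4 / s.rho) * (x.2 + ‖x.1 - mp s.q b‖) := by
  show (4 / s.rho) * x.2 + ‖(4 / s.rho) • (x.1 - mp s.q b)‖ = _
  rw [norm_smul, Real.norm_eq_abs, abs_of_pos (kap_pos s)]
  ring

lemma sub_size' (hNOD : SpecNOD) (s : St P) (x : V d) :
    (s.sub (sd s.q x.1) x).2 + ‖(s.sub (sd s.q x.1) x).1‖ = (4 / s.rho) * tau s.q x := by
  rw [sub_size, tau_eq hNOD]

lemma sub_mem (hNOD : SpecNOD) (s : St P) {x : V d} (hx : x ∈ UU d) (h : tau s.q x ≤ s.rho) :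
    s.sub (sd s.q x.1) x ∈ UU d := by
  refine ⟨?_, ?_⟩
  · show 0 ≤ (4 / s.rho) * x.2
    exact mul_nonneg (kap_pos s).le hx.1
  · rw [sub_size' hNOD]
    have := s.rho_pos
    rw [div_mul_eq_mul_div, div_le_iff₀ this]
    linarith

lemma Bd_Phi (hSEQ : SpecSEQ) (hNOD : SpecNOD) (hTUB : SpecTUB) (s : St P)
    {h : Bool → V d → V d} (hh : ∀ b, ∀ x ∈ UU d, Bd (s.m + 1) (s.ch b).w (h b x))
    {x : V d} (hx : x ∈ UU d) : Bd s.m s.w (s.Phi h x) := by
  unfold St.Phi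
  split_ifs with h1 h2
  · exact Bd_child hSEQ s (hh _ _ (sub_mem hNOD s hx h1))
  · obtain ⟨-, -, -, -, -, -, -, -, t9, -⟩ := hTUB d P s
    rw [tau_eq hNOD] at h1 h2
    exact t9 _ x hx (not_le.1 h1).le h2
  · exact Bd_W hSEQ hNOD s hx

lemma Bd_Gk (hSEQ : SpecSEQ) (hNOD : SpecNOD) (hTUB : SpecTUB) (k : ℕ) :
    ∀ s : St P, ∀ x ∈ UU d, Bd s.m s.w (Gk k s x) := by
  induction k with
  | zero => intro s x hx; exact Bd_W hSEQ hNOD s hx
  | succ k ih =>
    intro s x hx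
    exact Bd_Phi hSEQ hNOD hTUB s (h := fun b => Gk k (s.ch b)) (fun b y hy => ih (s.ch b) y hy) hx

/-- the maps of depth at least `k` are close to each other -/
lemma Gk_dist (hSEQ : SpecSEQ) (hNOD : SpecNOD) (hTUB : SpecTUB) (k : ℕ) :
    ∀ s : St P, ∀ x ∈ UU d, ∀ i j, k ≤ i → k ≤ j →
      dist (Gk i s x) (Gk j s x) ≤ 2 * vv d (s.m + k) := by
  induction k with
  | zero =>
    intro s x hx i j _ _
    rw [dist_eq_norm]
    have hw := w_le_vv hSEQ s
    calc _ ≤ ‖Gk i s x‖ + ‖Gk j s x‖ := norm_sub_le _ _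
      _ ≤ vv d s.m + vv d s.m := add_le_add (Bd_norm hw (Bd_Gk hSEQ hNOD hTUB i s x hx))
          (Bd_norm hw (Bd_Gk hSEQ hNOD hTUB j s x hx))
      _ = 2 * vv d (s.m + 0) := by rw [add_zero]; ring
  | succ k ih =>
    intro s x hx i j hi hj
    obtain ⟨i, rfl⟩ : ∃ i', i = i' + 1 := ⟨i - 1, by omega⟩
    obtain ⟨j, rfl⟩ : ∃ j', j = j' + 1 := ⟨j - 1, by omega⟩
    show dist (s.Phi (fun b => Gk i (s.ch b)) x) (s.Phi (fun b => Gk j (s.ch b)) x) ≤ _
    unfold St.Phi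
    have hr : 0 ≤ 2 * vv d (s.m + (k + 1)) := by
      have := (hSEQ d).2.2.2.2.2.2.1 (s.m + (k + 1))
      linarith
    split_ifs with h1 h2
    · rw [dist_add_left]
      have h3 := ih (s.ch (sd s.q x.1)) _ (sub_mem hNOD s hx h1) i j (by omega) (by omega)
      have e : (s.ch (sd s.q x.1)).m + k = s.m + (k + 1) := by
        show s.m + 1 + k = _
        ring
      rwa [e] at h3
    · rw [dist_self]; exact hr
    · rw [dist_self]; exact hr

lemma vv_tendsto (hSEQ : SpecSEQ) (m : ℕ) :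
    Tendsto (fun k => 2 * vv d (m + k)) atTop (𝓝 0) := by
  have h := (hSEQ d).2.2.2.2.2.2.2.2.2.2.2
  have h1 : Tendsto (fun k => vv d (m + k)) atTop (𝓝 0) := by
    have h2 := h.comp (tendsto_add_atTop_nat m)
    refine h2.congr fun k => ?_
    show vv d (k + m) = vv d (m + k)
    rw [add_comm]
  simpa using h1.const_mul 2

lemma GG_tendsto (hSEQ : SpecSEQ) (hNOD : SpecNOD) (hTUB : SpecTUB) (s : St P) {x : V d}
    (hx : x ∈ UU d) : Tendsto (fun k => Gk k s x) atTop (𝓝 (GG s x)) := by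
  have : CauchySeq (fun k => Gk k s x) :=
    cauchySeq_of_le_tendsto_0 (fun k => 2 * vv d (s.m + k))
      (fun n m N hn hm => Gk_dist hSEQ hNOD hTUB N s x hx n m hn hm) (vv_tendsto hSEQ s.m)
  exact this.tendsto_limUnder

lemma GG_dist (hSEQ : SpecSEQ) (hNOD : SpecNOD) (hTUB : SpecTUB) (s : St P) {x : V d}
    (hx : x ∈ UU d) (k : ℕ) : dist (GG s x) (Gk k s x) ≤ 2 * vv d (s.m + k) := by
  have h1 : Tendsto (fun j => dist (Gk j s x) (Gk k s x)) atTop (𝓝 (dist (GG s x) (Gk k s x))) :=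
    (GG_tendsto hSEQ hNOD hTUB s hx).dist tendsto_const_nhds
  refine le_of_tendsto h1 ?_
  filter_upwards [eventually_ge_atTop k] with j hj
  exact Gk_dist hSEQ hNOD hTUB k s x hx j k hj le_rfl

lemma Bd_GG (hSEQ : SpecSEQ) (hNOD : SpecNOD) (hTUB : SpecTUB) (s : St P) {x : V d}
    (hx : x ∈ UU d) : Bd s.m s.w (GG s x) := by
  have ht := GG_tendsto hSEQ hNOD hTUB s hx
  have h1 : Tendsto (fun k => (Gk k s x).1) atTop (𝓝 (GG s x).1) :=
    (continuous_fst.tendsto _).comp ht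
  have h2 : Tendsto (fun k => (Gk k s x).2) atTop (𝓝 (GG s x).2) :=
    (continuous_snd.tendsto _).comp ht
  refine ⟨fun i => ?_, ?_, ?_⟩
  · have h3 : Tendsto (fun k => |(Gk k s x).1 i|) atTop (𝓝 |(GG s x).1 i|) := by
      have hc : Continuous fun y : H d => |y i| := by fun_prop
      exact (hc.tendsto _).comp h1
    exact le_of_tendsto' h3 fun k => (Bd_Gk hSEQ hNOD hTUB k s x hx).1 i
  · exact ge_of_tendsto' h2 fun k => (Bd_Gk hSEQ hNOD hTUB k s x hx).2.1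
  · exact le_of_tendsto' h2 fun k => (Bd_Gk hSEQ hNOD hTUB k s x hx).2.2

/-- the functional equation -/
lemma GG_eq (hSEQ : SpecSEQ) (hNOD : SpecNOD) (hTUB : SpecTUB) (s : St P) {x : V d}
    (hx : x ∈ UU d) : GG s x = s.Phi (fun b => GG (s.ch b)) x := by
  have ht : Tendsto (fun k => Gk (k + 1) s x) atTop (𝓝 (GG s x)) :=
    (GG_tendsto hSEQ hNOD hTUB s hx).comp (tendsto_add_atTop_nat 1)
  apply tendsto_nhds_unique ht
  show Tendsto (fun k => s.Phi (fun b => Gk k (s.ch b)) x) atTop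
    (𝓝 (s.Phi (fun b => GG (s.ch b)) x))
  unfold St.Phi
  split_ifs with h1 h2
  · exact (GG_tendsto hSEQ hNOD hTUB _ (sub_mem hNOD s hx h1)).const_add _
  · exact tendsto_const_nhds
  · exact tendsto_const_nhds

lemma GG_C (hSEQ : SpecSEQ) (hNOD : SpecNOD) (hTUB : SpecTUB) (s : St P) {x : V d}
    (hx : x ∈ UU d) (h : tau s.q x ≤ s.rho) :
    GG s x = (s.A (sd s.q x.1), -s.a) + GG (s.ch (sd s.q x.1)) (s.sub (sd s.q x.1) x) := by
  rw [GG_eq hSEQ hNOD hTUB s hx]; unfold St.Phi; rw [if_pos h]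

lemma GG_A (hSEQ : SpecSEQ) (hNOD : SpecNOD) (hTUB : SpecTUB) (s : St P) {x : V d}
    (hx : x ∈ UU d) (h : s.th ≤ tau s.q x) : GG s x = s.w • W s.q x := by
  obtain ⟨t1, -, -, -, t5, -⟩ := hTUB d P s
  rw [GG_eq hSEQ hNOD hTUB s hx]; unfold St.Phi
  rw [if_neg (not_le.2 (t1.trans_le h))]
  split_ifs with h2
  · have h3 : tau s.q x = s.th := le_antisymm h2 h
    rw [tau_eq hNOD] at h3
    exact t5 _ x hx.1 h3
  · rfl

lemma GG_B (hSEQ : SpecSEQ) (hNOD : SpecNOD) (hTUB : SpecTUB) (s : St P) {x : V d}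
    (hx : x ∈ UU d) (h : s.rho ≤ tau s.q x) (h2 : tau s.q x ≤ s.th) :
    GG s x = s.tube (sd s.q x.1) x := by
  obtain ⟨-, -, -, -, -, t6, -⟩ := hTUB d P s
  rcases h.lt_or_eq with h3 | h3
  · rw [GG_eq hSEQ hNOD hTUB s hx]; unfold St.Phi; rw [if_neg (not_le.2 h3), if_pos h2]
  · have h4 : x.2 + ‖x.1 - mp s.q (sd s.q x.1)‖ = s.rho := by rw [← tau_eq hNOD, ← h3]
    rw [GG_C hSEQ hNOD hTUB s hx h3.ge, t6 _ x h4]
    congr 1
    have hm := sub_mem hNOD s hx h3.ge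
    apply GG_A hSEQ hNOD hTUB _ hm
    have h5 := sub_size' hNOD s x
    rw [← h3, div_mul_cancel₀ _ s.rho_pos.ne'] at h5
    have h6 := (hNOD d (s.ch (sd s.q x.1)).q (q_ne _) (St.q_le _)).2.2.2.1
      (s.sub (sd s.q x.1) x).1
    have h7 := th_le (s.ch (sd s.q x.1))
    have h8 := (s.ch (sd s.q x.1)).q_le
    unfold tau
    linarith

end LIMM

theorem specLIM (hSEQ : SpecSEQ) (hMAP : SpecMAP) (hNOD : SpecNOD) (hTUB : SpecTUB) :
    SpecLIM := by
  intro d _ P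
  have _ := hMAP
  refine ⟨fun s x hx => LIMM.Bd_GG hSEQ hNOD hTUB s hx,
    fun s x hx h => LIMM.GG_A hSEQ hNOD hTUB s hx h,
    fun s x hx h h2 => LIMM.GG_B hSEQ hNOD hTUB s hx h h2,
    fun s x hx h => LIMM.GG_C hSEQ hNOD hTUB s hx h,
    fun s x hx h => LIMM.sub_mem hNOD s hx h, fun s => ?_⟩
  rw [Metric.tendstoUniformlyOn_iff]
  intro e he
  have h := LIMM.vv_tendsto hSEQ (d := d) s.m
  have h1 := h.eventually (gt_mem_nhds he)
  filter_upwards [h1] with k hk x hx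
  exact (LIMM.GG_dist hSEQ hNOD hTUB s hx k).trans_lt hk

end

end Pool.Agent.Lib.MP739abe.BN
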