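import Mathlib
import Pool.Agent.Lib.MP_739abe_an.BN.Spec

/-!
MP_739abe_an, module LOC: the limit map is locally scaled bi-Lipschitz at every point of the open
model domain, with the constant `24`.
-/

namespace Pool.Agent.Lib.MP739abe.BN

open Topology Filter Set Metric

noncomputable section

namespace LOCM

variable {d : ℕ} {P : PP d}

/-- a similarity -/
lemma QB_sim (c : V d) {k : ℝ} (hk : 0 < k) (x : V d) : QB 1 k (fun y : V d => c + k • y) x := by
  refine QB.of_global (g := fun p : V d => k⁻¹ • (p - c)) ?_ ?_ ?_ ?_ x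
  · intro y z
    rw [dist_add_left, dist_smul₀, Real.norm_eq_abs, abs_of_pos hk, one_mul]
  · intro p q
    rw [dist_smul₀, dist_sub_right, Real.norm_eq_abs, abs_of_pos (inv_pos.2 hk), one_div]
  · intro y
    show k⁻¹ • (c + k • y - c) = y
    rw [add_sub_cancel_left, smul_smul, inv_mul_cancel₀ hk.ne', one_smul]
  · intro p
    show c + k • (k⁻¹ • (p - c)) = p
    rw [smul_smul, mul_inv_cancel₀ hk.ne', one_smul, add_sub_cancel]

lemma QB_W (hMAP : SpecMAP) (q : H d) (x : V d) : QB 5 1 (W q) x := by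
  have h := hMAP d
  refine QB.of_global (g := Wi q) ?_ ?_ (h.2.2.2.1 q) (h.2.2.2.2.1 q) x
  · intro y z; rw [mul_one]; exact h.2.1 q y z
  · intro y z; rw [div_one]; exact h.2.2.1 q y z

lemma QB_wW (hMAP : SpecMAP) (q : H d) (c : V d) {w : ℝ} (hw : 0 < w) (x : V d) :
    QB 5 w (fun y => c + w • W q y) x := by
  have h := QB.comp (by norm_num) (by norm_num) (by norm_num) hw (QB_W hMAP q x)
    (QB_sim c hw (W q x))
  rw [one_mul, mul_one] at h
  exact h

lemma kap_pos (s : St P) : 0 < 4 / s.rho := div_pos (by norm_num) s.rho_pos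

lemma QB_sub (s : St P) (b : Bool) (x : V d) : QB 1 (4 / s.rho) (s.sub b) x := by
  refine (QB_sim (-((4 / s.rho) • ((mp s.q b, 0) : V d))) (kap_pos s) x).congr ?_
  refine Eventually.of_forall fun y => ?_
  show (4 / s.rho) • ((y.1 - mp s.q b, y.2) : V d)
    = -((4 / s.rho) • ((mp s.q b, 0) : V d)) + (4 / s.rho) • y
  ext1
  · show (4 / s.rho) • (y.1 - mp s.q b) = -((4 / s.rho) • mp s.q b) + (4 / s.rho) • y.1
    module
  · show (4 / s.rho) * y.2 = -((4 / s.rho) * 0) + (4 / s.rho) * y.2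
    ring

lemma continuous_sub (s : St P) (b : Bool) : Continuous (s.sub b) := by
  unfold St.sub; fun_prop

lemma isOpen_UI : IsOpen (UI d) := by
  unfold UI
  apply IsOpen.inter
  · exact isOpen_lt continuous_const continuous_snd
  · exact isOpen_lt (f := fun x : V d => x.2 + ‖x.1‖) (by fun_prop) continuous_const

lemma UI_subset : UI d ⊆ UU d := fun _ hx => ⟨hx.1.le, hx.2.le⟩

lemma ev_UI {x : V d} (hx : x ∈ UI d) : ∀ᶠ y : V d in 𝓝 x, y ∈ UI d := isOpen_UI.mem_nhds hx

lemma continuous_tau (q : H d) : Continuous (tau q) := by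
  unfold tau nn; fun_prop

lemma tau_eq (hNOD : SpecNOD) (s : St P) (x : V d) :
    tau s.q x = x.2 + ‖x.1 - mp s.q (sd s.q x.1)‖ := by
  unfold tau
  rw [(hNOD d s.q (norm_pos_iff.1 s.q_pos) s.q_le).1]

lemma sd_near (hNOD : SpecNOD) (s : St P) (b : Bool) (y : H d) (h : ‖y - mp s.q b‖ < ‖s.q‖ / 2) :
    sd s.q y = b := (hNOD d s.q (norm_pos_iff.1 s.q_pos) s.q_le).2.1 b y h

lemma W_near (hNOD : SpecNOD) (s : St P) (x : V d) (h0 : 0 ≤ x.2) (h : tau s.q x ≤ ‖s.q‖) :
    W s.q x = (x.1, ‖s.q‖ + tau s.q x) :=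
  (hNOD d s.q (norm_pos_iff.1 s.q_pos) s.q_le).2.2.2.2.1 x h0 h

lemma sub_snd (s : St P) (b : Bool) (x : V d) : (s.sub b x).2 = 4 / s.rho * x.2 := rfl

lemma sub_size (s : St P) (b : Bool) (x : V d) :
    (s.sub b x).2 + ‖(s.sub b x).1‖ = 4 / s.rho * (x.2 + ‖x.1 - mp s.q b‖) := by
  show 4 / s.rho * x.2 + ‖(4 / s.rho) • (x.1 - mp s.q b)‖ = _
  rw [norm_smul, Real.norm_eq_abs, abs_of_pos (kap_pos s)]; ring

lemma th_lt (s : St P) : s.th < ‖s.q‖ := by
  have := s.q_pos
  unfold St.th; linarith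

lemma ev_corner (hNOD : SpecNOD) (s : St P) {x : V d} {b : Bool}
    (h : ‖x.1 - mp s.q b‖ < ‖s.q‖ / 2) :
    ∀ᶠ y : V d in 𝓝 x, sd s.q y.1 = b ∧ tau s.q y = y.2 + ‖y.1 - mp s.q b‖ := by
  have : IsOpen {y : V d | ‖y.1 - mp s.q b‖ < ‖s.q‖ / 2} :=
    isOpen_lt (f := fun x : V d => ‖x.1 - mp s.q b‖) (by fun_prop) continuous_const
  filter_upwards [this.mem_nhds h] with y hy
  have h1 : sd s.q y.1 = b := sd_near hNOD s b y.1 hy
  exact ⟨h1, by rw [tau_eq hNOD, h1]⟩

lemma corner_near (hNOD : SpecNOD) (s : St P) {x : V d} (hx : x ∈ UI d) (h : tau s.q x ≤ s.th) :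
    ‖x.1 - mp s.q (sd s.q x.1)‖ < ‖s.q‖ / 2 := by
  have h1 := tau_eq hNOD s x
  have h2 := hx.1
  have h3 := s.q_pos
  unfold St.th at h
  linarith

lemma log_sign {t r : ℝ} (ht : 0 < t) (hr : 0 < r) :
    (0 ≤ Real.log t - Real.log r ↔ 0 ≤ t - r) ∧ (Real.log t - Real.log r ≤ 0 ↔ t - r ≤ 0) := by
  rw [sub_nonneg, sub_nonpos, Real.log_le_log_iff hr ht, Real.log_le_log_iff ht hr,
    sub_nonneg, sub_nonpos]
  exact ⟨Iff.rfl, Iff.rfl⟩

lemma ZZ_sign {η s t : ℝ} (hη : η ≤ 1) : (4 ≤ ZZ η s t ↔ 4 ≤ s) ∧ (ZZ η s t ≤ 4 ↔ s ≤ 4) := by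
  unfold ZZ
  constructor
  · constructor
    · intro h
      rcases le_max_iff.1 h with h1 | h1
      · exact h1
      · have := (le_min_iff.1 h1).2
        linarith
    · intro h; exact le_max_of_le_left h
  · constructor
    · intro h; exact (max_le_iff.1 h).1
    · intro h
      exact max_le h ((min_le_right _ _).trans (by linarith))

lemma mul_sign {k t u : ℝ} (hk : 0 < k) (h : (0 ≤ t ↔ 0 ≤ u) ∧ (t ≤ 0 ↔ u ≤ 0)) :
    (0 ≤ k * t ↔ 0 ≤ u) ∧ (k * t ≤ 0 ↔ u ≤ 0) := by
  rw [mul_nonneg_iff_of_pos_left hk, h.1, ← h.2]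
  refine ⟨Iff.rfl, fun h' => nonpos_of_mul_nonpos_right h' hk,
    fun h' => mul_nonpos_of_nonneg_of_nonpos hk.le h'⟩

section main

variable [NeZero d]

lemma tube_snd (s : St P) (b : Bool) (x : V d) : (s.tube b x).2 =
    s.w * (‖s.q‖ + s.th) + s.w * s.th * (Real.log (x.2 + ‖x.1 - mp s.q b‖) - Real.log s.th) := rfl

lemma log_rho (s : St P) : s.w * s.th * Real.log s.rho =
    s.w * s.th * Real.log s.th - (s.a + s.w * ‖s.q‖) := by
  have h1 := s.th_pos
  have h2 := s.hw
  unfold St.rho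
  rw [Real.log_mul h1.ne' (Real.exp_pos _).ne', Real.log_exp]
  field_simp
  ring

lemma tube_rho (s : St P) (b : Bool) (x : V d) : (s.tube b x).2 - (s.w * s.th - s.a) =
    s.w * s.th * (Real.log (x.2 + ‖x.1 - mp s.q b‖) - Real.log s.rho) := by
  rw [tube_snd]
  have := log_rho s
  linarith

/-- the tube is locally scaled bi-Lipschitz -/
lemma QB_tube (hMAP : SpecMAP) (hTUB : SpecTUB) (s : St P) (b : Bool) {x : V d} (hx : 0 < x.2) :
    QB 24 (s.w * s.th * (x.2 + ‖x.1 - mp s.q b‖)⁻¹) (s.tube b) x :=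
  (hMAP d).2.2.2.2.2.1 (s.w * s.th) (Real.log s.th) (s.w * (‖s.q‖ + s.th)) (s.w • mp s.q b)
    (s.S b) (mp s.q b) x (mul_pos s.hw s.th_pos) ((hTUB d P s).2.2.1 b) hx

lemma rho_lt (hTUB : SpecTUB) (s : St P) : s.rho < s.th := (hTUB d P s).1

lemma rho_le (hTUB : SpecTUB) (s : St P) : s.rho ≤ 1 / 2 := (hTUB d P s).2.1

/-- interior points of the node -/
lemma loc_A (hMAP : SpecMAP) (hL : LimFacts d P) (s : St P) {x : V d} (hx : x ∈ UI d)
    (h : s.th < tau s.q x) : QB 24 s.w (GG s) x := by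
  refine ((QB_wW hMAP s.q 0 s.hw x).congr ?_).mono s.hw (by norm_num)
  filter_upwards [ev_UI hx, (continuous_tau s.q).continuousAt.eventually (lt_mem_nhds h)]
    with y h1 h2
  rw [zero_add]
  exact hL.A s y (UI_subset h1) h2.le

/-- interior points of the tube -/
lemma loc_B (hMAP : SpecMAP) (hNOD : SpecNOD) (hTUB : SpecTUB) (hL : LimFacts d P) (s : St P)
    {x : V d} (hx : x ∈ UI d) (h : s.rho < tau s.q x) (h2 : tau s.q x < s.th) :
    QB 24 (s.w * s.th * (tau s.q x)⁻¹) (GG s) x := by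
  have h0 := QB_tube hMAP hTUB s (sd s.q x.1) hx.1
  rw [← tau_eq hNOD] at h0
  refine h0.congr ?_
  filter_upwards [ev_UI hx, (continuous_tau s.q).continuousAt.eventually (lt_mem_nhds h),
    (continuous_tau s.q).continuousAt.eventually (gt_mem_nhds h2),
    ev_corner hNOD s (corner_near hNOD s hx h2.le)] with y h3 h4 h5 h6
  rw [hL.B s y (UI_subset h3) h4.le h5.le, h6.1]

/-- the mouth of the tube -/
lemma loc_AB (hMAP : SpecMAP) (hNOD : SpecNOD) (hTUB : SpecTUB) (hL : LimFacts d P) (s : St P)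
    {x : V d} (hx : x ∈ UI d) (h : tau s.q x = s.th) : QB 24 s.w (GG s) x := by
  have hw := s.hw
  have hth := s.th_pos
  have hwt : 0 < s.w * s.th := mul_pos hw hth
  have hcor := ev_corner hNOD s (corner_near hNOD s hx h.le)
  set b := sd s.q x.1 with hb
  have q1 : QB 24 s.w (fun y => 0 + s.w • W s.q y) x :=
    (QB_wW hMAP s.q 0 hw x).mono hw (by norm_num)
  have q2 : QB 24 s.w (s.tube b) x := by
    have := QB_tube hMAP hTUB s b hx.1
    rw [hb, ← tau_eq hNOD, h, mul_assoc, mul_inv_cancel₀ hth.ne', mul_one] at this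
    exact this
  have hlt : s.rho < tau s.q x := by rw [h]; exact rho_lt hTUB s
  have hlt1 : tau s.q x < ‖s.q‖ := by rw [h]; exact th_lt s
  refine QB.glue (f1 := fun y => 0 + s.w • W s.q y) (f2 := s.tube b)
    (a := fun y => tau s.q y - s.th) (b := fun p => p.2 - s.w * (‖s.q‖ + s.th))
    ((continuous_tau s.q).sub continuous_const) (continuous_snd.sub continuous_const)
    (by simp [h]) q1 q2 ?_ ?_ ?_ ?_
  · filter_upwards [ev_UI hx] with y h1 h2
    rw [zero_add]
    exact hL.A s y (UI_subset h1) (by linarith)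
  · filter_upwards [ev_UI hx, hcor,
      (continuous_tau s.q).continuousAt.eventually (lt_mem_nhds hlt)] with y h1 h2 h3 h4
    rw [hL.B s y (UI_subset h1) h3.le (by linarith), h2.1]
  · filter_upwards [ev_UI hx, (continuous_tau s.q).continuousAt.eventually (gt_mem_nhds hlt1)]
      with y h1 h2
    have h3 := W_near hNOD s y h1.1.le h2.le
    have h4 : ((0 : V d) + s.w • W s.q y).2 - s.w * (‖s.q‖ + s.th)
        = s.w * (tau s.q y - s.th) := by
      rw [zero_add, h3]
      show s.w * (‖s.q‖ + tau s.q y) - s.w * (‖s.q‖ + s.th) = _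
      ring
    rw [h4]
    exact mul_sign hw ⟨Iff.rfl, Iff.rfl⟩
  · filter_upwards [ev_UI hx, hcor,
      (continuous_tau s.q).continuousAt.eventually (lt_mem_nhds hlt)] with y h1 h2 h3
    have ht : 0 < tau s.q y := s.rho_pos.trans h3
    have h4 : (s.tube b y).2 - s.w * (‖s.q‖ + s.th) =
        s.w * s.th * (Real.log (tau s.q y) - Real.log s.th) := by
      rw [tube_snd, ← h2.2]; ring
    rw [h4]
    exact mul_sign hwt (log_sign ht hth)

/-- the end of the tube -/
lemma loc_BC (hMAP : SpecMAP) (hNOD : SpecNOD) (hTUB : SpecTUB) (hL : LimFacts d P) (s : St P)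
    {x : V d} (hx : x ∈ UI d) (h : tau s.q x = s.rho) :
    QB 24 (s.w * s.th * s.rho⁻¹) (GG s) x := by
  have hw := s.hw
  have hth := s.th_pos
  have hr := s.rho_pos
  have hwt : 0 < s.w * s.th := mul_pos hw hth
  have hlt : tau s.q x < s.th := by rw [h]; exact rho_lt hTUB s
  have hcor := ev_corner hNOD s (corner_near hNOD s hx hlt.le)
  have hl : 0 < s.w * s.th * s.rho⁻¹ := mul_pos hwt (inv_pos.2 hr)
  set b := sd s.q x.1 with hb
  have hsx : (s.sub b x).2 + ‖(s.sub b x).1‖ = 4 := by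
    rw [sub_size, hb, ← tau_eq hNOD, h]; field_simp
  set c : V d := (s.A b, -s.a) with hc
  have hw1 := (s.ch b).hw
  have hw4 : 4 * (s.ch b).w = s.w * s.th := by
    show 4 * (s.w * (‖s.q‖ / 32)) = s.w * (‖s.q‖ / 8)
    ring
  have q1 : QB 24 (s.w * s.th * s.rho⁻¹) (s.tube b) x := by
    have := QB_tube hMAP hTUB s b hx.1
    rw [hb, ← tau_eq hNOD, h] at this
    exact this
  have q2 : QB 24 (s.w * s.th * s.rho⁻¹)
      (fun y => c + (s.ch b).w • W (s.ch b).q (s.sub b y)) x := by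
    have h1 := QB.comp (by norm_num) (kap_pos s) (by norm_num) hw1 (QB_sub s b x)
      (QB_wW hMAP (s.ch b).q c hw1 (s.sub b x))
    have e1 : (s.ch b).w * (4 / s.rho) = s.w * s.th * s.rho⁻¹ := by
      rw [← hw4]; field_simp
    rw [e1] at h1
    exact QB.mono hl (by norm_num) h1
  refine QB.glue (f1 := s.tube b)
    (f2 := fun y => c + (s.ch b).w • W (s.ch b).q (s.sub b y))
    (a := fun y => tau s.q y - s.rho) (b := fun p => p.2 - (s.w * s.th - s.a))
    ((continuous_tau s.q).sub continuous_const) (continuous_snd.sub continuous_const)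
    (by simp [h]) q1 q2 ?_ ?_ ?_ ?_
  · filter_upwards [ev_UI hx, hcor,
      (continuous_tau s.q).continuousAt.eventually (gt_mem_nhds hlt)] with y h1 h2 h3 h4
    rw [hL.B s y (UI_subset h1) (by linarith) h3.le, h2.1]
  · have hroof : (s.ch b).th < tau (s.ch b).q (s.sub b x) := by
      have e1 : ‖(s.sub b x).1‖ ≤ ‖(s.sub b x).1 - (s.ch b).q‖ + ‖(s.ch b).q‖ := by
        simpa using norm_add_le ((s.sub b x).1 - (s.ch b).q) (s.ch b).q
      have e2 := (s.ch b).q_le
      have e3 : ‖(s.sub b x).1‖ - 1 ≤ nn (s.ch b).q (s.sub b x).1 := by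
        unfold nn
        exact le_min (by linarith) (by linarith)
      have e4 : (s.ch b).th ≤ 1 / 8 := by unfold St.th; linarith
      unfold tau
      linarith
    have hcc : Continuous (fun y => tau (s.ch b).q (s.sub b y)) :=
      (continuous_tau _).comp (continuous_sub s b)
    filter_upwards [ev_UI hx, hcor,
      hcc.continuousAt.eventually (lt_mem_nhds hroof)] with y h1 h2 h3 h4
    have h5 : tau s.q y ≤ s.rho := by linarith
    have h6 := hL.sub s y (UI_subset h1) h5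
    rw [hL.C s y (UI_subset h1) h5]
    rw [h2.1] at h6 ⊢
    rw [hL.A (s.ch b) _ h6 h3.le]
  · filter_upwards [ev_UI hx, hcor] with y h1 h2
    have ht : 0 < tau s.q y := by
      rw [h2.2]
      have h3 := h1.1
      have h4 := norm_nonneg (y.1 - mp s.q b)
      linarith
    rw [tube_rho, ← h2.2]
    exact mul_sign hwt (log_sign ht hr)
  · filter_upwards [ev_UI hx, hcor] with y h1 h2
    have hs : (s.sub b y).2 + ‖(s.sub b y).1‖ = 4 / s.rho * tau s.q y := by
      rw [sub_size, h2.2]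
    have h4 : (c + (s.ch b).w • W (s.ch b).q (s.sub b y)).2 - (s.w * s.th - s.a) =
        (s.ch b).w * (ZZ ‖(s.ch b).q‖ (4 / s.rho * tau s.q y)
          (dd (s.ch b).q (s.sub b y).1) - 4) := by
      rw [← hs, ← hw4]
      show -s.a + (s.ch b).w * ZZ _ _ _ - (4 * (s.ch b).w - s.a) = _
      ring
    rw [h4]
    have h5 := ZZ_sign (s := 4 / s.rho * tau s.q y) (t := dd (s.ch b).q (s.sub b y).1)
      (s.ch b).q_le
    have h6 : 4 ≤ 4 / s.rho * tau s.q y ↔ 0 ≤ tau s.q y - s.rho := by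
      rw [div_mul_eq_mul_div, le_div_iff₀ hr]
      constructor <;> intro h <;> linarith
    have h7 : 4 / s.rho * tau s.q y ≤ 4 ↔ tau s.q y - s.rho ≤ 0 := by
      rw [div_mul_eq_mul_div, div_le_iff₀ hr]
      constructor <;> intro h <;> linarith
    rw [h6, h7] at h5
    refine mul_sign hw1 ?_
    rw [sub_nonneg, sub_nonpos]
    exact h5

lemma sub_mem_UI (hNOD : SpecNOD) (s : St P) {x : V d} (hx : x ∈ UI d)
    (h : tau s.q x < s.rho) : s.sub (sd s.q x.1) x ∈ UI d := by
  refine ⟨?_, ?_⟩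
  · rw [sub_snd]; exact mul_pos (kap_pos s) hx.1
  · rw [sub_size, ← tau_eq hNOD]
    have := s.rho_pos
    rw [div_mul_eq_mul_div, div_lt_iff₀ this]
    linarith

/-- **local structure** of the limit map -/
lemma loc_GG (hMAP : SpecMAP) (hNOD : SpecNOD) (hTUB : SpecTUB) (hL : LimFacts d P) (k : ℕ) :
    ∀ s : St P, ∀ x ∈ UI d, 4 * (1 / 8) ^ k < x.2 → ∃ l > 0, QB 24 l (GG s) x := by
  induction k with
  | zero =>
    intro s x hx h
    exfalso
    have := hx.2
    have := norm_nonneg x.1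
    simp at h
    linarith
  | succ k ih =>
    intro s x hx h
    have hw := s.hw
    have hth := s.th_pos
    have hr := s.rho_pos
    rcases lt_trichotomy (tau s.q x) s.rho with h1 | h1 | h1
    · -- child
      have hc := sub_mem_UI hNOD s hx h1
      have hh : 4 * (1 / 8) ^ k < (s.sub (sd s.q x.1) x).2 := by
        rw [sub_snd]
        rw [pow_succ] at h
        have e1 : 8 ≤ 4 / s.rho := by
          rw [le_div_iff₀ hr]; linarith [rho_le hTUB s]
        have e2 := hx.1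
        nlinarith
      obtain ⟨l, hl, hq⟩ := ih (s.ch (sd s.q x.1)) _ hc hh
      refine ⟨l * (4 / s.rho), mul_pos hl (kap_pos s), ?_⟩
      have h2 := QB.comp (by norm_num) (kap_pos s) (by norm_num) hl (QB_sub s (sd s.q x.1) x) hq
      have h3 := QB.comp (by norm_num) (mul_pos hl (kap_pos s)) (by norm_num) (by norm_num) h2
        (QB_sim (s.A (sd s.q x.1), -s.a) (k := 1) (by norm_num) _)
      rw [mul_one, one_mul, one_mul] at h3
      refine h3.congr ?_
      have hlt : tau s.q x < s.th := h1.trans (rho_lt hTUB s)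
      filter_upwards [ev_UI hx, ev_corner hNOD s (corner_near hNOD s hx hlt.le),
        (continuous_tau s.q).continuousAt.eventually (gt_mem_nhds h1)] with y h4 h5 h6
      rw [hL.C s y (UI_subset h4) h6.le, h5.1]
      simp
    · exact ⟨_, by positivity, loc_BC hMAP hNOD hTUB hL s hx h1⟩
    · rcases lt_trichotomy (tau s.q x) s.th with h2 | h2 | h2
      · have : 0 < tau s.q x := hr.trans h1
        exact ⟨_, by positivity, loc_B hMAP hNOD hTUB hL s hx h1 h2⟩
      · exact ⟨_, hw, loc_AB hMAP hNOD hTUB hL s hx h2⟩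
      · exact ⟨_, hw, loc_A hMAP hL s hx h2⟩

end main

end LOCM

open LOCM in
theorem specLOC (hMAP : SpecMAP) (hNOD : SpecNOD) (hTUB : SpecTUB) (hLIM : SpecLIM) :
    SpecLOC := by
  intro d _ P s x hx
  have : Tendsto (fun k : ℕ => 4 * ((1 : ℝ) / 8) ^ k) atTop (𝓝 (4 * 0)) :=
    (tendsto_pow_atTop_nhds_zero_of_lt_one (by norm_num) (by norm_num)).const_mul 4
  rw [mul_zero] at this
  obtain ⟨k, hk⟩ := (this.eventually (gt_mem_nhds hx.1)).exists
  exact loc_GG hMAP hNOD hTUB (hLIM d P) k s x hx hk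

end

end Pool.Agent.Lib.MP739abe.BN
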