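import Pool.Agent.Lib.MP_739abe_an.BN.Spec

/-!
# Module MAP: the node map and the tube map
-/

set_option autoImplicit false

namespace Pool.Agent.Lib.MP739abe.BN

open Topology Filter Set Metric

noncomputable section

namespace MAPM

variable {d : ℕ}

lemma nn_lip (q y z : H d) : |nn q y - nn q z| ≤ ‖y - z‖ := by
  unfold nn
  refine (abs_min_sub_min_le_max _ _ _ _).trans (max_le (abs_norm_sub_norm_le y z) ?_)
  have h := abs_norm_sub_norm_le (y - q) (z - q)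
  rwa [sub_sub_sub_cancel_right] at h

lemma norm_lip (y z : H d) : |‖y‖ - ‖z‖| ≤ ‖y - z‖ := abs_norm_sub_norm_le y z

lemma dd_lip (q y z : H d) : |dd q y - dd q z| ≤ 2 * ‖y - z‖ := by
  unfold dd
  have h1 := abs_le.1 (nn_lip q y z)
  have h2 := abs_le.1 (norm_lip y z)
  rw [abs_le]; constructor <;> linarith [h1.1, h1.2, h2.1, h2.2]

lemma ZZ_lip (η s t s' t' : ℝ) : |ZZ η s t - ZZ η s' t'| ≤ |s - s'| + |t - t'| := by
  unfold ZZ
  have h1 : |max s (min (s + t) (s / 2 + 2 * η)) - max s' (min (s' + t') (s' / 2 + 2 * η))| ≤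
      max |s - s'| |min (s + t) (s / 2 + 2 * η) - min (s' + t') (s' / 2 + 2 * η)| :=
    abs_max_sub_max_le_max _ _ _ _
  have h2 : |min (s + t) (s / 2 + 2 * η) - min (s' + t') (s' / 2 + 2 * η)| ≤
      max |s + t - (s' + t')| |s / 2 + 2 * η - (s' / 2 + 2 * η)| := abs_min_sub_min_le_max _ _ _ _
  have h3 : |s + t - (s' + t')| ≤ |s - s'| + |t - t'| := by
    calc |s + t - (s' + t')| = |(s - s') + (t - t')| := by congr 1; ring
      _ ≤ _ := abs_add_le _ _
  have h4 : |s / 2 + 2 * η - (s' / 2 + 2 * η)| ≤ |s - s'| + |t - t'| := by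
    have : s / 2 + 2 * η - (s' / 2 + 2 * η) = (s - s') * (1 / 2) := by ring
    rw [this, abs_mul, abs_of_pos (by norm_num : (0 : ℝ) < 1 / 2)]
    linarith [abs_nonneg (s - s'), abs_nonneg (t - t')]
  refine h1.trans (max_le ?_ (h2.trans (max_le h3 h4)))
  linarith [abs_nonneg (t - t')]

lemma dist_V (x y : V d) : dist x y = max ‖x.1 - y.1‖ |x.2 - y.2| := by
  rw [Prod.dist_eq, dist_eq_norm, Real.dist_eq]

lemma W_lip (q : H d) (x y : V d) : dist (W q x) (W q y) ≤ 5 * dist x y := by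
  rw [dist_V, dist_V]
  set A := ‖x.1 - y.1‖ with hA
  set B := |x.2 - y.2| with hB
  have hA0 : 0 ≤ A := norm_nonneg _
  have hAm : A ≤ max A B := le_max_left _ _
  have hBm : B ≤ max A B := le_max_right _ _
  have h1 : |x.2 + ‖x.1‖ - (y.2 + ‖y.1‖)| ≤ B + A := by
    calc |x.2 + ‖x.1‖ - (y.2 + ‖y.1‖)| = |(x.2 - y.2) + (‖x.1‖ - ‖y.1‖)| := by congr 1; ring
      _ ≤ |x.2 - y.2| + |‖x.1‖ - ‖y.1‖| := abs_add_le _ _
      _ ≤ B + A := by gcongr; exact norm_lip _ _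
  have h2 := dd_lip q x.1 y.1
  have h3 := ZZ_lip ‖q‖ (x.2 + ‖x.1‖) (dd q x.1) (y.2 + ‖y.1‖) (dd q y.1)
  apply max_le
  · show ‖x.1 - y.1‖ ≤ _
    rw [← hA]; linarith
  · show |ZZ _ _ _ - ZZ _ _ _| ≤ _
    rw [← hA] at h2
    linarith

lemma Wi_lip (q : H d) (x y : V d) : dist (Wi q x) (Wi q y) ≤ 5 * dist x y := by
  rw [dist_V, dist_V]
  set A := ‖x.1 - y.1‖ with hA
  set B := |x.2 - y.2| with hB
  have hA0 : 0 ≤ A := norm_nonneg _
  have hB0 : 0 ≤ B := abs_nonneg _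
  have hAm : A ≤ max A B := le_max_left _ _
  have hBm : B ≤ max A B := le_max_right _ _
  have h2 := dd_lip q x.1 y.1
  rw [← hA] at h2
  have h3 : |min x.2 (max (x.2 - dd q x.1) (2 * x.2 - 4 * ‖q‖)) -
      min y.2 (max (y.2 - dd q y.1) (2 * y.2 - 4 * ‖q‖))| ≤ 2 * B + 2 * A := by
    refine (abs_min_sub_min_le_max _ _ _ _).trans (max_le (by linarith) ?_)
    refine (abs_max_sub_max_le_max _ _ _ _).trans (max_le ?_ ?_)
    · calc |x.2 - dd q x.1 - (y.2 - dd q y.1)| = |(x.2 - y.2) - (dd q x.1 - dd q y.1)| := by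
            congr 1; ring
        _ ≤ |x.2 - y.2| + |dd q x.1 - dd q y.1| := abs_sub _ _
        _ ≤ 2 * B + 2 * A := by linarith
    · have : 2 * x.2 - 4 * ‖q‖ - (2 * y.2 - 4 * ‖q‖) = 2 * (x.2 - y.2) := by ring
      rw [this, abs_mul, abs_of_pos (by norm_num : (0 : ℝ) < 2)]
      linarith
  apply max_le
  · show ‖x.1 - y.1‖ ≤ _
    rw [← hA]; linarith
  · show |min x.2 (max (x.2 - dd q x.1) (2 * x.2 - 4 * ‖q‖)) - ‖x.1‖ -
      (min y.2 (max (y.2 - dd q y.1) (2 * y.2 - 4 * ‖q‖)) - ‖y.1‖)| ≤ _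
    have h4 := norm_lip x.1 y.1
    rw [← hA] at h4
    calc _ = |(min x.2 (max (x.2 - dd q x.1) (2 * x.2 - 4 * ‖q‖)) -
      min y.2 (max (y.2 - dd q y.1) (2 * y.2 - 4 * ‖q‖))) - (‖x.1‖ - ‖y.1‖)| := by congr 1; ring
      _ ≤ _ := abs_sub _ _
      _ ≤ 5 * max A B := by linarith

lemma Wi_W (q : H d) (x : V d) : Wi q (W q x) = x := by
  unfold Wi W
  have h : min (ZZ ‖q‖ (x.2 + ‖x.1‖) (dd q x.1))
      (max (ZZ ‖q‖ (x.2 + ‖x.1‖) (dd q x.1) - dd q x.1)
        (2 * ZZ ‖q‖ (x.2 + ‖x.1‖) (dd q x.1) - 4 * ‖q‖)) = x.2 + ‖x.1‖ := by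
    unfold ZZ
    generalize x.2 + ‖x.1‖ = s
    generalize dd q x.1 = t
    generalize ‖q‖ = η
    simp only [max_def, min_def]
    split_ifs <;> linarith
  refine Prod.ext rfl ?_
  show min (ZZ ‖q‖ (x.2 + ‖x.1‖) (dd q x.1))
      (max (ZZ ‖q‖ (x.2 + ‖x.1‖) (dd q x.1) - dd q x.1)
        (2 * ZZ ‖q‖ (x.2 + ‖x.1‖) (dd q x.1) - 4 * ‖q‖)) - ‖x.1‖ = x.2
  rw [h]; ring

lemma W_Wi (q : H d) (x : V d) : W q (Wi q x) = x := by
  unfold Wi W
  refine Prod.ext rfl ?_
  show ZZ ‖q‖ (min x.2 (max (x.2 - dd q x.1) (2 * x.2 - 4 * ‖q‖)) - ‖x.1‖ + ‖x.1‖) (dd q x.1) = x.2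
  rw [sub_add_cancel]
  unfold ZZ
  generalize dd q x.1 = t
  generalize ‖q‖ = η
  simp only [max_def, min_def]
  split_ifs <;> linarith

lemma QB_Ne (e : H d) (x : V d) : QB 2 1 (Ne e) x := by
  apply QB.of_global (g := fun p => (p.1 + e, p.2 - ‖p.1‖))
  · intro y z
    rw [dist_V, dist_V]
    unfold Ne
    have h1 : ‖y.1 - e - (z.1 - e)‖ = ‖y.1 - z.1‖ := by congr 1; abel
    have h2 := norm_lip (y.1 - e) (z.1 - e)
    rw [h1] at h2
    set A := ‖y.1 - z.1‖ with hA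
    set B := |y.2 - z.2| with hB
    have hA0 : 0 ≤ A := norm_nonneg _
    have hB0 : 0 ≤ B := abs_nonneg _
    have hAm : A ≤ max A B := le_max_left _ _
    have hBm : B ≤ max A B := le_max_right _ _
    apply max_le
    · show ‖y.1 - e - (z.1 - e)‖ ≤ _
      rw [h1]; linarith
    · show |y.2 + ‖y.1 - e‖ - (z.2 + ‖z.1 - e‖)| ≤ _
      calc _ = |(y.2 - z.2) + (‖y.1 - e‖ - ‖z.1 - e‖)| := by congr 1; ring
        _ ≤ _ := abs_add_le _ _
        _ ≤ _ := by linarith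
  · intro y z
    rw [dist_V, dist_V]
    have h1 : ‖y.1 + e - (z.1 + e)‖ = ‖y.1 - z.1‖ := by congr 1; abel
    have h2 := norm_lip y.1 z.1
    set A := ‖y.1 - z.1‖ with hA
    set B := |y.2 - z.2| with hB
    have hA0 : 0 ≤ A := norm_nonneg _
    have hB0 : 0 ≤ B := abs_nonneg _
    have hAm : A ≤ max A B := le_max_left _ _
    have hBm : B ≤ max A B := le_max_right _ _
    apply max_le
    · show ‖y.1 + e - (z.1 + e)‖ ≤ _
      rw [h1]; linarith
    · show |y.2 - ‖y.1‖ - (z.2 - ‖z.1‖)| ≤ _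
      calc _ = |(y.2 - z.2) - (‖y.1‖ - ‖z.1‖)| := by congr 1; ring
        _ ≤ _ := abs_sub _ _
        _ ≤ _ := by linarith
  · intro y
    unfold Ne
    simp
  · intro y
    unfold Ne
    simp

lemma log_lip {a b c : ℝ} (hc : 0 < c) (ha : c ≤ a) (hb : c ≤ b) :
    |Real.log a - Real.log b| ≤ 1 / c * |a - b| := by
  have key : ∀ a b : ℝ, c ≤ a → c ≤ b → Real.log a - Real.log b ≤ 1 / c * |a - b| := by
    intro a b ha hb
    have ha' : 0 < a := hc.trans_le ha
    have hb' : 0 < b := hc.trans_le hb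
    rw [← Real.log_div ha'.ne' hb'.ne']
    calc Real.log (a / b) ≤ a / b - 1 := Real.log_le_sub_one_of_pos (div_pos ha' hb')
      _ = (a - b) / b := by field_simp
      _ ≤ |a - b| / b := by gcongr; exact le_abs_self _
      _ ≤ |a - b| / c := by gcongr
      _ = _ := by ring
  rw [abs_le]
  constructor
  · have := key b a hb ha
    rw [abs_sub_comm] at this
    linarith
  · exact key a b ha hb

lemma exp_lip {a b c : ℝ} (ha : Real.exp a ≤ c) (hb : Real.exp b ≤ c) :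
    |Real.exp a - Real.exp b| ≤ c * |a - b| := by
  have key : ∀ a b : ℝ, Real.exp a ≤ c → Real.exp a - Real.exp b ≤ c * |a - b| := by
    intro a b ha
    have h1 : b - a + 1 ≤ Real.exp (b - a) := Real.add_one_le_exp _
    have h2 : Real.exp b = Real.exp a * Real.exp (b - a) := by
      rw [← Real.exp_add]; congr 1; ring
    have h3 : Real.exp a * (1 - Real.exp (b - a)) ≤ Real.exp a * (a - b) := by
      apply mul_le_mul_of_nonneg_left _ (Real.exp_pos a).le
      linarith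
    calc Real.exp a - Real.exp b = Real.exp a * (1 - Real.exp (b - a)) := by rw [h2]; ring
      _ ≤ Real.exp a * (a - b) := h3
      _ ≤ Real.exp a * |a - b| := by
          apply mul_le_mul_of_nonneg_left (le_abs_self _) (Real.exp_pos a).le
      _ ≤ c * |a - b| := by
          apply mul_le_mul_of_nonneg_right ha (abs_nonneg _)
  rw [abs_le]
  constructor
  · have := key b a hb
    rw [abs_sub_comm] at this
    linarith
  · exact key a b ha

lemma QB_Lg {x : V d} (hx : 0 < x.2) (hx1 : ‖x.1‖ ≤ x.2) : QB 6 x.2⁻¹ Lg x := by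
  obtain ⟨v0, t0⟩ := x
  simp only at hx hx1
  set N : Set (V d) := {y | t0 / 2 < y.2 ∧ ‖y.1‖ < 2 * y.2} with hN
  set M : Set (V d) := {p | Real.exp p.2 < 2 * t0 ∧ ‖p.1‖ < 2} with hM
  refine ⟨fun p => (Real.exp p.2 • p.1, Real.exp p.2), N, ?_, M, ?_, ?_, ?_, ?_, ?_⟩
  · have : IsOpen N := by
      apply IsOpen.inter
      · exact isOpen_lt continuous_const continuous_snd
      · exact isOpen_lt (continuous_norm.comp continuous_fst) (continuous_const.mul continuous_snd)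
    refine this.mem_nhds ?_
    show t0 / 2 < t0 ∧ ‖v0‖ < 2 * t0
    constructor <;> linarith
  · have : IsOpen M := by
      apply IsOpen.inter
      · exact isOpen_lt (Real.continuous_exp.comp continuous_snd) continuous_const
      · exact isOpen_lt (continuous_norm.comp continuous_fst) continuous_const
    refine this.mem_nhds ?_
    show Real.exp (Real.log t0) < 2 * t0 ∧ ‖t0⁻¹ • v0‖ < 2
    rw [Real.exp_log hx, norm_smul, Real.norm_eq_abs, abs_of_pos (inv_pos.2 hx)]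
    refine ⟨by linarith, ?_⟩
    calc t0⁻¹ * ‖v0‖ ≤ t0⁻¹ * t0 := by gcongr
      _ = 1 := inv_mul_cancel₀ hx.ne'
      _ < 2 := by norm_num
  · rintro ⟨y1, y2⟩ ⟨hy1, hy2⟩ ⟨z1, z2⟩ ⟨hz1, hz2⟩
    rw [dist_V, dist_V]
    simp only at hy1 hy2 hz1 hz2 ⊢
    unfold Lg
    simp only
    set A := ‖y1 - z1‖ with hA
    set B := |y2 - z2| with hB
    have hA0 : 0 ≤ A := norm_nonneg _
    have hB0 : 0 ≤ B := abs_nonneg _
    have hAm : A ≤ max A B := le_max_left _ _
    have hBm : B ≤ max A B := le_max_right _ _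
    have hm0 : 0 ≤ max A B := hA0.trans hAm
    have hy0 : 0 < y2 := by linarith
    have hz0 : 0 < z2 := by linarith
    have hyi : y2⁻¹ ≤ 2 * t0⁻¹ := by
      have : (t0 / 2)⁻¹ = 2 * t0⁻¹ := by field_simp
      rw [← this]
      exact inv_anti₀ (by linarith) hy1.le
    have hi0 : 0 < t0⁻¹ := inv_pos.2 hx
    apply max_le
    · have e : y2⁻¹ • y1 - z2⁻¹ • z1 = y2⁻¹ • (y1 - z1) + (y2⁻¹ - z2⁻¹) • z1 := by
        rw [smul_sub, sub_smul]; abel
      rw [e]
      have e2 : |y2⁻¹ - z2⁻¹| * ‖z1‖ ≤ 2 * t0⁻¹ * (2 * B) := by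
        have : y2⁻¹ - z2⁻¹ = y2⁻¹ * z2⁻¹ * (z2 - y2) := by field_simp
        rw [this, abs_mul, abs_of_pos (by positivity), abs_sub_comm]
        calc y2⁻¹ * z2⁻¹ * |y2 - z2| * ‖z1‖ ≤ y2⁻¹ * z2⁻¹ * |y2 - z2| * (2 * z2) := by gcongr
          _ = y2⁻¹ * (2 * B) := by rw [← hB]; field_simp
          _ ≤ 2 * t0⁻¹ * (2 * B) := by gcongr
      calc ‖y2⁻¹ • (y1 - z1) + (y2⁻¹ - z2⁻¹) • z1‖
          ≤ ‖y2⁻¹ • (y1 - z1)‖ + ‖(y2⁻¹ - z2⁻¹) • z1‖ := norm_add_le _ _
        _ = y2⁻¹ * A + |y2⁻¹ - z2⁻¹| * ‖z1‖ := by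
            rw [norm_smul, norm_smul, Real.norm_eq_abs, Real.norm_eq_abs,
              abs_of_pos (inv_pos.2 hy0)]
        _ ≤ 2 * t0⁻¹ * A + 2 * t0⁻¹ * (2 * B) := by gcongr
        _ ≤ 2 * t0⁻¹ * (max A B) + 2 * t0⁻¹ * (2 * (max A B)) := by gcongr
        _ = 6 * t0⁻¹ * max A B := by ring
    · calc |Real.log y2 - Real.log z2| ≤ 1 / (t0 / 2) * |y2 - z2| :=
            log_lip (by linarith) hy1.le hz1.le
        _ = 2 * t0⁻¹ * B := by rw [← hB]; field_simp
        _ ≤ 2 * t0⁻¹ * max A B := by gcongr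
        _ ≤ 6 * t0⁻¹ * max A B := by
            have : 0 ≤ t0⁻¹ * max A B := by positivity
            nlinarith
  · rintro ⟨y1, y2⟩ ⟨hy1, hy2⟩ ⟨z1, z2⟩ ⟨hz1, hz2⟩
    rw [dist_V, dist_V]
    simp only at hy1 hy2 hz1 hz2 ⊢
    set A := ‖y1 - z1‖ with hA
    set B := |y2 - z2| with hB
    have hA0 : 0 ≤ A := norm_nonneg _
    have hB0 : 0 ≤ B := abs_nonneg _
    have hAm : A ≤ max A B := le_max_left _ _
    have hBm : B ≤ max A B := le_max_right _ _
    have hm0 : 0 ≤ max A B := hA0.trans hAm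
    have e1 : |Real.exp y2 - Real.exp z2| ≤ 2 * t0 * B := exp_lip hy1.le hz1.le
    have e3 : 6 / t0⁻¹ = 6 * t0 := by field_simp
    rw [e3]
    apply max_le
    · have e : Real.exp y2 • y1 - Real.exp z2 • z1 =
          Real.exp y2 • (y1 - z1) + (Real.exp y2 - Real.exp z2) • z1 := by
        rw [smul_sub, sub_smul]; abel
      rw [e]
      calc ‖Real.exp y2 • (y1 - z1) + (Real.exp y2 - Real.exp z2) • z1‖
          ≤ ‖Real.exp y2 • (y1 - z1)‖ + ‖(Real.exp y2 - Real.exp z2) • z1‖ := norm_add_le _ _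
        _ = Real.exp y2 * A + |Real.exp y2 - Real.exp z2| * ‖z1‖ := by
            rw [norm_smul, norm_smul, Real.norm_eq_abs, Real.norm_eq_abs,
              abs_of_pos (Real.exp_pos _)]
        _ ≤ 2 * t0 * A + 2 * t0 * B * 2 := by gcongr
        _ ≤ 2 * t0 * max A B + 2 * t0 * max A B * 2 := by gcongr
        _ = 6 * t0 * max A B := by ring
    · calc |Real.exp y2 - Real.exp z2| ≤ 2 * t0 * B := e1
        _ ≤ 2 * t0 * max A B := by gcongr
        _ ≤ 6 * t0 * max A B := by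
            have : 0 ≤ t0 * max A B := by positivity
            nlinarith
  · rintro ⟨y1, y2⟩ ⟨hy1, hy2⟩
    simp only at hy1
    have hy0 : 0 < y2 := by linarith
    simp only [Lg, Real.exp_log hy0, smul_smul, mul_inv_cancel₀ hy0.ne', one_smul]
  · rintro ⟨y1, y2⟩ _
    simp only [Lg, Real.log_exp, smul_smul, inv_mul_cancel₀ (Real.exp_pos y2).ne', one_smul]

lemma QB_Sh {r : ℝ} (l h : ℝ) (c : H d) {S : H d} (hr : 0 < r) (hS : ‖S‖ ≤ 1) (x : V d) :
    QB 2 r (Sh r l h c S) x := by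
  apply QB.of_global
    (g := fun p => (r⁻¹ • (p.1 - c + (p.2 - h) • S), r⁻¹ * (p.2 - h) + l))
  · rintro ⟨y1, y2⟩ ⟨z1, z2⟩
    rw [dist_V, dist_V]
    unfold Sh
    simp only
    set A := ‖y1 - z1‖ with hA
    set B := |y2 - z2| with hB
    have hA0 : 0 ≤ A := norm_nonneg _
    have hB0 : 0 ≤ B := abs_nonneg _
    have hAm : A ≤ max A B := le_max_left _ _
    have hBm : B ≤ max A B := le_max_right _ _
    have hm0 : 0 ≤ max A B := hA0.trans hAm
    apply max_le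
    · have e1 : c - (r * (y2 - l)) • S + r • y1 - (c - (r * (z2 - l)) • S + r • z1) =
          (-(r * (y2 - z2))) • S + r • (y1 - z1) := by
        module
      rw [e1]
      calc _ ≤ ‖(-(r * (y2 - z2))) • S‖ + ‖r • (y1 - z1)‖ := norm_add_le _ _
        _ = r * B * ‖S‖ + r * A := by
            rw [norm_smul, norm_smul, Real.norm_eq_abs, Real.norm_eq_abs, abs_neg, abs_mul,
              abs_of_pos hr]
        _ ≤ r * max A B * 1 + r * max A B := by gcongr
        _ = 2 * r * max A B := by ring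
    · have e1 : h + r * (y2 - l) - (h + r * (z2 - l)) = r * (y2 - z2) := by ring
      rw [e1, abs_mul, abs_of_pos hr]
      calc r * B ≤ r * max A B := by gcongr
        _ ≤ 2 * r * max A B := by
          have : 0 ≤ r * max A B := by positivity
          nlinarith
  · rintro ⟨y1, y2⟩ ⟨z1, z2⟩
    rw [dist_V, dist_V]
    simp only
    set A := ‖y1 - z1‖ with hA
    set B := |y2 - z2| with hB
    have hA0 : 0 ≤ A := norm_nonneg _
    have hB0 : 0 ≤ B := abs_nonneg _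
    have hAm : A ≤ max A B := le_max_left _ _
    have hBm : B ≤ max A B := le_max_right _ _
    have hm0 : 0 ≤ max A B := hA0.trans hAm
    have hri : 0 < r⁻¹ := inv_pos.2 hr
    rw [div_eq_mul_inv]
    apply max_le
    · have e1 : r⁻¹ • (y1 - c + (y2 - h) • S) - r⁻¹ • (z1 - c + (z2 - h) • S) =
          r⁻¹ • ((y1 - z1) + (y2 - z2) • S) := by
        module
      rw [e1, norm_smul, Real.norm_eq_abs, abs_of_pos hri]
      calc r⁻¹ * ‖(y1 - z1) + (y2 - z2) • S‖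
          ≤ r⁻¹ * (‖y1 - z1‖ + ‖(y2 - z2) • S‖) := by
            gcongr; exact norm_add_le _ _
        _ = r⁻¹ * (A + B * ‖S‖) := by
            rw [norm_smul, Real.norm_eq_abs]
        _ ≤ r⁻¹ * (max A B + max A B * 1) := by gcongr
        _ = 2 * r⁻¹ * max A B := by ring
    · have e1 : r⁻¹ * (y2 - h) + l - (r⁻¹ * (z2 - h) + l) = r⁻¹ * (y2 - z2) := by ring
      rw [e1, abs_mul, abs_of_pos hri]
      calc r⁻¹ * B ≤ r⁻¹ * max A B := by gcongr
        _ ≤ 2 * r⁻¹ * max A B := by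
          have : 0 ≤ r⁻¹ * max A B := by positivity
          nlinarith
  · rintro ⟨y1, y2⟩
    unfold Sh
    simp only
    refine Prod.ext ?_ ?_
    · show r⁻¹ • (c - (r * (y2 - l)) • S + r • y1 - c + (h + r * (y2 - l) - h) • S) = y1
      have : c - (r * (y2 - l)) • S + r • y1 - c + (h + r * (y2 - l) - h) • S = r • y1 := by module
      rw [this, smul_smul, inv_mul_cancel₀ hr.ne', one_smul]
    · show r⁻¹ * (h + r * (y2 - l) - h) + l = y2
      field_simp
      ring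
  · rintro ⟨y1, y2⟩
    unfold Sh
    simp only
    refine Prod.ext ?_ ?_
    · show c - (r * (r⁻¹ * (y2 - h) + l - l)) • S + r • r⁻¹ • (y1 - c + (y2 - h) • S) = y1
      have h1 : r * (r⁻¹ * (y2 - h) + l - l) = y2 - h := by field_simp; ring
      rw [h1, smul_smul, mul_inv_cancel₀ hr.ne', one_smul]
      module
    · show h + r * (r⁻¹ * (y2 - h) + l - l) = y2
      field_simp
      ring

lemma QB_TB {r : ℝ} (l h : ℝ) (c : H d) {S : H d} (e : H d) (hr : 0 < r) (hS : ‖S‖ ≤ 1) {x : V d}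
    (hx : 0 < x.2) : QB 24 (r * (x.2 + ‖x.1 - e‖)⁻¹) (TB r l h c S e) x := by
  have h1 := QB_Ne e x
  have ht : 0 < x.2 + ‖x.1 - e‖ := by positivity
  have h2 : QB 6 (x.2 + ‖x.1 - e‖)⁻¹ Lg (Ne e x) := by
    apply QB_Lg (x := Ne e x)
    · exact ht
    · show ‖x.1 - e‖ ≤ x.2 + ‖x.1 - e‖
      linarith
  have h3 := QB_Sh l h c hr hS (Lg (Ne e x))
  have h4 := QB.comp (by norm_num) (by norm_num) (by norm_num) (inv_pos.2 ht) h1 h2
  have h5 := QB.comp (by norm_num) (by positivity) (by norm_num) (by positivity) h4 h3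
  have e1 : (2 : ℝ) * (6 * 2) = 24 := by norm_num
  rw [e1, mul_one] at h5
  exact h5

lemma cont_TB (r l h : ℝ) (c S e : H d) {x : V d} (hx : 0 < x.2 + ‖x.1 - e‖) :
    ContinuousAt (TB r l h c S e) x := by
  have h1 : Continuous (Ne e : V d → V d) := by
    unfold Ne
    fun_prop
  have h2 : ContinuousAt (Lg : V d → V d) (Ne e x) := by
    unfold Lg
    have h3 : (Ne e x).2 ≠ 0 := hx.ne'
    exact ContinuousAt.prodMk ((continuousAt_snd.inv₀ h3).smul continuousAt_fst)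
      (continuousAt_snd.log h3)
  have h3 : Continuous (Sh r l h c S : V d → V d) := by
    unfold Sh
    fun_prop
  exact h3.continuousAt.comp (h2.comp h1.continuousAt)

lemma inj_TB {r : ℝ} (l h : ℝ) (c S e : H d) (hr : 0 < r) {x y : V d} (hx : 0 < x.2 + ‖x.1 - e‖)
    (hy : 0 < y.2 + ‖y.1 - e‖) (hxy : TB r l h c S e x = TB r l h c S e y) : x = y := by
  have h2 : h + r * (Real.log (x.2 + ‖x.1 - e‖) - l) = h + r * (Real.log (y.2 + ‖y.1 - e‖) - l) :=
    congrArg Prod.snd hxy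
  have h3 : Real.log (x.2 + ‖x.1 - e‖) = Real.log (y.2 + ‖y.1 - e‖) := by
    have h4 := mul_left_cancel₀ hr.ne' (add_left_cancel h2)
    linarith
  have h4 : x.2 + ‖x.1 - e‖ = y.2 + ‖y.1 - e‖ := Real.log_injOn_pos hx hy h3
  have h1 : c - (r * (Real.log (x.2 + ‖x.1 - e‖) - l)) • S + r • ((x.2 + ‖x.1 - e‖)⁻¹ • (x.1 - e)) =
      c - (r * (Real.log (y.2 + ‖y.1 - e‖) - l)) • S + r • ((y.2 + ‖y.1 - e‖)⁻¹ • (y.1 - e)) :=
    congrArg Prod.fst hxy
  rw [h4] at h1
  have h5 := add_left_cancel h1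
  have h6 := smul_right_injective _ hr.ne' h5
  have h7 := smul_right_injective _ (inv_pos.2 hy).ne' h6
  have h8 : x.1 = y.1 := sub_left_injective h7
  refine Prod.ext h8 ?_
  rw [h8] at h4
  exact add_right_cancel h4

end MAPM

open MAPM in
theorem specMAP : SpecMAP := fun _ => ⟨nn_lip, W_lip, Wi_lip, Wi_W, W_Wi,
  fun _ l h c _ e _ hr hS hx => QB_TB l h c e hr hS hx,
  fun r l h c S e _ hx => cont_TB r l h c S e hx,
  fun _ l h c S e _ _ hr hx hy hxy => inj_TB l h c S e hr hx hy hxy⟩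

end

end Pool.Agent.Lib.MP739abe.BN

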