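import Pool.Agent.Lib.MP_739abe_an.BN.Spec

/-! Elementary geometry of the two marked points and of the node map. -/

namespace Pool.Agent.Lib.MP739abe.BN

open Topology Filter Set Metric MeasureTheory Measure

lemma NODM.nrm_le {d : ℕ} (q y : H d) : ‖y‖ ≤ ‖q‖ + ‖y - q‖ := by
  have h := norm_add_le q (y - q)
  rwa [add_sub_cancel] at h

lemma NODM.q_le {d : ℕ} (q y : H d) : ‖q‖ ≤ ‖y‖ + ‖y - q‖ := by
  have h := norm_sub_le y (y - q)
  rwa [sub_sub_cancel] at h

lemma NODM.le_nn {d : ℕ} (q y : H d) : ‖y‖ ≤ ‖q‖ + nn q y := by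
  unfold nn
  rcases le_total ‖y‖ ‖y - q‖ with h | h
  · rw [min_eq_left h]; linarith [norm_nonneg q]
  · rw [min_eq_right h]; exact NODM.nrm_le q y

lemma NODM.nn_nonneg {d : ℕ} (q y : H d) : 0 ≤ nn q y :=
  le_min (norm_nonneg _) (norm_nonneg _)

lemma NODM.W_snd {d : ℕ} (q : H d) (x : V d) : (W q x).2 =
    max (x.2 + ‖x.1‖) (min (‖q‖ + tau q x) ((x.2 + ‖x.1‖) / 2 + 2 * ‖q‖)) := by
  unfold W ZZ dd tau
  simp only
  congr 2
  ring

theorem specNOD : SpecNOD := by
  intro d q hq hq1
  have hqp : 0 < ‖q‖ := norm_pos_iff.2 hq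
  refine ⟨?_, ?_, ?_, NODM.le_nn q, ?_, ?_, ?_, ?_⟩
  · intro y
    unfold nn sd mp
    by_cases h : ‖y - q‖ < ‖y‖
    · simp only [h, decide_true, if_true]
      exact min_eq_right h.le
    · simp only [h, decide_false, Bool.false_eq_true, if_false, sub_zero]
      exact min_eq_left (not_lt.1 h)
  · intro b y hb
    unfold sd
    have h2 := NODM.q_le q y
    cases b with
    | true =>
      simp only [mp, if_true] at hb
      have h : ‖y - q‖ < ‖y‖ := by linarith
      simp only [h, decide_true]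
    | false =>
      simp only [mp, Bool.false_eq_true, if_false, sub_zero] at hb
      have h : ¬ ‖y - q‖ < ‖y‖ := by
        rw [not_lt]; linarith
      simp only [h, decide_false]
  · intro b
    cases b with
    | true => simp [mp]
    | false => simp [mp]
  · intro x hx ht
    have h1 : (W q x).1 = x.1 := rfl
    have h2 : (W q x).2 = ‖q‖ + tau q x := by
      rw [NODM.W_snd]
      have h3 := NODM.le_nn q x.1
      have h4 : x.2 + ‖x.1‖ ≤ ‖q‖ + tau q x := by
        unfold tau; linarith
      have h5 : ‖q‖ + tau q x ≤ (x.2 + ‖x.1‖) / 2 + 2 * ‖q‖ := by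
        have := norm_nonneg x.1
        linarith
      rw [min_eq_left h5, max_eq_right h4]
    exact Prod.ext h1 h2
  · intro x hx
    have h1 : (W q x).1 = x.1 := rfl
    have h2 : (W q x).2 = 4 := by
      rw [NODM.W_snd, hx]
      refine max_eq_left ((min_le_right _ _).trans ?_)
      linarith
    exact Prod.ext h1 h2
  · rintro x ⟨hx0, hx4⟩
    rw [NODM.W_snd]
    have := norm_nonneg x.1
    refine ⟨le_max_of_le_left (by linarith), max_le hx4 ((min_le_right _ _).trans ?_)⟩
    linarith
  · rintro x ⟨hx0, hx4⟩ t ht htt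
    rw [NODM.W_snd]
    have := norm_nonneg x.1
    refine lt_max_of_lt_right (lt_min ?_ ?_)
    · linarith
    · linarith

end Pool.Agent.Lib.MP739abe.BN
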