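import Pool.Agent.Lib.MP_739abe_an.BN.Spec

/-! # MP_739abe_an, BN: module PER -/

set_option autoImplicit false

namespace Pool.Agent.Lib.MP739abe.BN

open Topology Filter Set Metric MeasureTheory Measure

theorem specPER : SpecPER := by
  intro n E hE hunc
  have key : ∃ f : (ℕ → Bool) → EuclideanSpace ℝ (Fin n), range f ⊆ E ∧ Continuous f ∧
      Function.Injective f := by
    obtain ⟨t', ht', hpol, hcl, -⟩ := hE.isClopenable
    obtain ⟨f, hf1, hf2, hf3⟩ :=
      @IsClosed.exists_nat_bool_injection_of_not_countable _ t' hpol E hcl hunc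
    exact ⟨f, hf1, continuous_le_rng ht' hf2, hf3⟩
  obtain ⟨f, hf1, hfc, hf3⟩ := key
  refine ⟨range f, hf1, isCompact_range hfc, range_nonempty f, ?_⟩
  rintro x ⟨a, rfl⟩
  rw [accPt_iff_nhds]
  intro U hU
  have ht : Tendsto (fun n => Function.update a n (!a n)) atTop (𝓝 a) := by
    rw [tendsto_pi_nhds]
    intro i
    apply tendsto_const_nhds.congr'
    filter_upwards [eventually_gt_atTop i] with n hn
    rw [Function.update_of_ne (ne_of_lt hn)]
  obtain ⟨k, hk⟩ := (((hfc.tendsto a).comp ht).eventually hU).exists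
  refine ⟨f (Function.update a k (!a k)), ⟨hk, mem_range_self _⟩, ?_⟩
  intro h
  have h1 := congrFun (hf3 h) k
  simp at h1

end Pool.Agent.Lib.MP739abe.BN
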