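import Pool.Agent.Lib.MP_739abe_an.BN.Spec

/-!
MP_739abe_an, module ROT: moving a compact set without isolated points of the unit sphere so that
it passes through the pole.
-/

namespace Pool.Agent.Lib.MP739abe.BN

open Topology Filter Set Metric
open scoped ENNReal NNReal

noncomputable section

namespace ROTM

/-- a linear isometry which maps a given unit vector to the south pole -/
theorem exists_iso {d : ℕ} (y : En d) (hy : ‖y‖ = 1) :
    ∃ g : En d ≃ₗᵢ[ℝ] En d, (g y) (Fin.last d) = -1 ∧ ‖g y‖ = 1 := by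
  set e : En d := EuclideanSpace.single (Fin.last d) (-1 : ℝ) with he
  have hne : ‖e‖ = 1 := by simp [he]
  have hyn : ‖y‖ = ‖e‖ := by rw [hy, hne]
  refine ⟨Submodule.reflection (Submodule.span ℝ {y - e})ᗮ, ?_, ?_⟩
  · rw [Submodule.reflection_sub hyn]
    simp [he]
  · rw [Submodule.reflection_sub hyn]
    exact hne

/-- a point of the sphere whose image is near the floor is mapped to the floor -/
theorem floor_of_near {d : ℕ} (hBAL : SpecBAL) (y : En d) (hy : ‖y‖ = 1) (p : H d)
    (hp : ‖p‖ < 1) (hd : dist (TT y) ((p, 0) : V d) < 1) : (TT y).2 = 0 := by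
  obtain ⟨-, -, -, -, -, -, -, -, hU, hI, -⟩ := hBAL d
  have h1 : TT y ∈ UU d := (hU y).2 (by simp [hy])
  have h2 : TT y ∉ UI d := fun h => by
    have := (hI y).1 h
    simp [hy] at this
  have h3 : (TT y).2 < 1 := by
    have h4 : dist (TT y).2 (0 : ℝ) < 1 := lt_of_le_of_lt (le_max_right _ _) hd
    rw [Real.dist_eq, sub_zero] at h4
    exact (abs_lt.1 h4).2
  have h5 : ‖(TT y).1‖ < 2 := by
    have h4 : dist (TT y).1 p < 1 := lt_of_le_of_lt (le_max_left _ _) hd
    rw [dist_eq_norm] at h4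
    have h6 : ‖(TT y).1‖ ≤ ‖(TT y).1 - p‖ + ‖p‖ := by
      have := norm_add_le ((TT y).1 - p) p
      simpa using this
    linarith
  have h7 : 0 ≤ (TT y).2 := h1.1
  by_contra h8
  exact h2 ⟨lt_of_le_of_ne h7 (Ne.symm h8), by linarith⟩

end ROTM

theorem specROT (hBAL : SpecBAL) : SpecROT := by
  intro d K hKs _ hKn hKp
  obtain ⟨y0, hy0⟩ := hKn
  have hy0n : ‖y0‖ = 1 := by simpa using hKs hy0
  obtain ⟨g, hg1, hg2⟩ := ROTM.exists_iso y0 hy0n
  have hB := hBAL d
  obtain ⟨-, -, -, -, hTi, -, hT160, -, -, -, hpole⟩ := hB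
  refine ⟨g, {y | ‖y‖ < 1 ∧ ((y, 0) : V d) ∈ TT '' (g '' K)}, rfl, ?_, ?_⟩
  · refine ⟨by simp, g y0, ⟨y0, hy0, rfl⟩, ?_⟩
    rw [hpole (g y0) hg1 hg2]
    rfl
  · rintro p ⟨hp1, y, ⟨k, hk, rfl⟩, hy⟩ R hR
    have hkn : ‖k‖ = 1 := by simpa using hKs hk
    -- the radius
    set r : ℝ := min (min 1 R) (1 - ‖p‖) with hr
    have hr0 : 0 < r := lt_min (lt_min one_pos hR) (by linarith)
    have hacc := accPt_iff_nhds.1 (hKp k hk) (ball k (r / 160)) (ball_mem_nhds _ (by positivity))
    obtain ⟨k', ⟨hk'b, hk'K⟩, hne⟩ := hacc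
    have hk'n : ‖k'‖ = 1 := by simpa using hKs hk'K
    have hdist : dist (TT (g k')) ((p, 0) : V d) < r := by
      rw [← hy]
      have h1 := hT160 (g k') (g k)
      have h2 : dist (g k') (g k) < r / 160 := by
        rw [g.dist_map]
        exact mem_ball.1 hk'b
      linarith
    have hz : (TT (g k')).2 = 0 := by
      apply ROTM.floor_of_near hBAL (g k') (by rw [g.norm_map, hk'n]) p hp1
      exact lt_of_lt_of_le hdist ((min_le_left _ _).trans (min_le_left _ _))
    have hd1 : dist (TT (g k')).1 p < r := lt_of_le_of_lt (le_max_left _ _) hdist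
    rw [dist_eq_norm] at hd1
    refine ⟨(TT (g k')).1, ⟨?_, g k', ⟨k', hk'K, rfl⟩, ?_⟩, ?_, ?_⟩
    · have h6 : ‖(TT (g k')).1‖ ≤ ‖(TT (g k')).1 - p‖ + ‖p‖ := by
        have := norm_add_le ((TT (g k')).1 - p) p
        simpa using this
      have h7 : r ≤ 1 - ‖p‖ := min_le_right _ _
      linarith
    · exact Prod.ext rfl hz
    · intro heq
      apply hne
      have h8 : TT (g k') = TT (g k) := by
        rw [hy]
        exact Prod.ext heq hz
      have h9 : g k' = g k := by rw [← hTi (g k'), h8, hTi]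
      exact g.injective h9
    · have h7 : r ≤ R := (min_le_left _ _).trans (min_le_right _ _)
      linarith

end

end Pool.Agent.Lib.MP739abe.BN
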