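import Pool.Agent.Lib.MP_739abe_an.BN.Spec

/-! MP_739abe_an, wave 24: the module SEQ (the sequences). -/

namespace Pool.Agent.Lib.MP739abe.BN

open Topology Filter Set Metric MeasureTheory Measure
open scoped ENNReal NNReal

noncomputable section

namespace SEQM

lemma Ni_eq (d m i : ℕ) (hi : i < d) : Ni d m i = m / d + if i < m % d then 1 else 0 := by
  have hd : 0 < d := by omega
  have h1 := Nat.div_add_mod m d
  have h2 := Nat.mod_lt m hd
  unfold Ni
  have h3 : m + (d - 1 - i) = d * (m / d) + (m % d + (d - 1 - i)) := by omega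
  rw [h3, Nat.mul_add_div hd]
  congr 1
  split_ifs with h
  · exact Nat.div_eq_of_lt_le (by omega) (by omega)
  · exact Nat.div_eq_of_lt (by omega)

lemma Ni_succ (d m i : ℕ) (hi : i < d) : Ni d (m + 1) i = m / d + if i ≤ m % d then 1 else 0 := by
  have hd : 0 < d := by omega
  have h1 := Nat.div_add_mod m d
  have h2 := Nat.mod_lt m hd
  unfold Ni
  have h3 : m + 1 + (d - 1 - i) = d * (m / d) + (m % d + 1 + (d - 1 - i)) := by omega
  rw [h3, Nat.mul_add_div hd]
  congr 1
  split_ifs with h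
  · exact Nat.div_eq_of_lt_le (by omega) (by omega)
  · exact Nat.div_eq_of_lt (by omega)

lemma rr_pos (k : ℕ) : 0 < rr k := by
  unfold rr
  positivity

lemma rr_succ (k : ℕ) : rr (k + 1) = (1 / 2) ^ k / 2 + (1 / 4) ^ k / 4 := by
  unfold rr
  rw [pow_succ, pow_succ]
  ring

lemma rr_le (k : ℕ) : rr k ≤ 2 * (1 / 2) ^ k := by
  unfold rr
  have : ((1 : ℝ) / 4) ^ k ≤ (1 / 2) ^ k := pow_le_pow_left₀ (by norm_num) (by norm_num) k
  linarith

lemma le_rr (k : ℕ) : (1 / 2) ^ k ≤ rr k := by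
  unfold rr
  have : (0 : ℝ) < (1 / 4) ^ k := by positivity
  linarith

lemma aa_eq (d m : ℕ) : aa d m = (1 / 2) ^ (m / d) / 2 + 3 / 4 * (1 / 4) ^ (m / d) := by
  unfold aa
  rw [rr_succ]
  unfold rr
  ring

end SEQM

open SEQM

theorem specSEQ : SpecSEQ := by
  intro d _
  have hd : 0 < d := NeZero.pos d
  have a1 : ∀ m, 0 < aa d m := by
    intro m
    rw [aa_eq]
    positivity
  have a2 : ∀ m i, 0 < RR d m i := fun m i => rr_pos _
  have a3 : ∀ m i, i ≠ dm d m → RR d (m + 1) i = RR d m i := by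
    intro m i hi
    have h1 : (i : ℕ) ≠ m % d := fun h => hi (Fin.ext h)
    unfold RR
    rw [Ni_eq d m i i.2, Ni_succ d m i i.2]
    congr 2
    simp only [le_iff_lt_or_eq, h1, or_false]
  have b1 : ∀ m, RR d (m + 1) (dm d m) = rr (m / d + 1) := by
    intro m
    unfold RR
    rw [Ni_succ d m (dm d m) (dm d m).2]
    simp [dm]
  have b2 : ∀ m, RR d m (dm d m) = rr (m / d) := by
    intro m
    unfold RR
    rw [Ni_eq d m (dm d m) (dm d m).2]
    simp [dm]
  have a4 : ∀ m, aa d m + RR d (m + 1) (dm d m) = RR d m (dm d m) := by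
    intro m
    rw [b1, b2]
    unfold aa
    ring
  have a5 : ∀ m, RR d (m + 1) (dm d m) < aa d m := by
    intro m
    rw [b1, rr_succ, aa_eq]
    have : (0 : ℝ) < (1 / 4) ^ (m / d) := by positivity
    linarith
  have a6 : ∀ m, aa d m + vv d (m + 1) = vv d m := by
    intro m
    unfold vv
    have h1 : ∀ i : Fin d, RR d m i = RR d (m + 1) i + if dm d m = i then aa d m else 0 := by
      intro i
      by_cases h : dm d m = i
      · rw [if_pos h, ← h, ← a4 m]
        ring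
      · rw [if_neg h, a3 m i (Ne.symm h), add_zero]
    rw [Finset.sum_congr rfl fun i _ => h1 i, Finset.sum_add_distrib, Finset.sum_ite_eq]
    simp [add_comm]
  have a7 : ∀ m, 0 < vv d m := by
    intro m
    unfold vv
    exact Finset.sum_pos (fun i _ => a2 m i) ⟨dm d m, Finset.mem_univ _⟩
  have a8 : ∀ m i, RR d m i ≤ vv d m := by
    intro m i
    unfold vv
    exact Finset.single_le_sum (fun i _ => (a2 m i).le) (Finset.mem_univ i)
  have c1 : ∀ m : ℕ, (1 / 16 : ℝ) ^ m ≤ (1 / 2) ^ m := fun m =>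
    pow_le_pow_left₀ (by norm_num) (by norm_num) m
  have c2 : ∀ m i, Ni d m (i : Fin d) ≤ m + 1 := by
    intro m i
    rw [Ni_eq d m i i.2]
    have := Nat.div_le_self m d
    split_ifs <;> omega
  have c3 : ∀ m i, m / d ≤ Ni d m (i : Fin d) := by
    intro m i
    rw [Ni_eq d m i i.2]
    exact Nat.le_add_right _ _
  have a9 : ∀ m i, 4 * ((1 / 16 : ℝ) ^ m / 8) ≤ RR d m i := by
    intro m i
    have h1 := le_rr (Ni d m i)
    have h2 : ((1 : ℝ) / 2) ^ (m + 1) ≤ (1 / 2) ^ (Ni d m i) :=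
      pow_le_pow_of_le_one (by norm_num) (by norm_num) (c2 m i)
    rw [pow_succ] at h2
    have h3 := c1 m
    unfold RR
    linarith
  have a10 : ∀ m, 4 * ((1 / 16 : ℝ) ^ m / 8) ≤ aa d m := by
    intro m
    rw [aa_eq]
    have h2 : ((1 : ℝ) / 2) ^ m ≤ (1 / 2) ^ (m / d) :=
      pow_le_pow_of_le_one (by norm_num) (by norm_num) (Nat.div_le_self m d)
    have h3 := c1 m
    have : (0 : ℝ) < (1 / 4) ^ (m / d) := by positivity
    linarith
  have a11 : ∀ m, aa d m ≤ 2 := by
    intro m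
    unfold aa
    have h1 := rr_le (m / d)
    have h2 := rr_pos (m / d + 1)
    have h3 : ((1 : ℝ) / 2) ^ (m / d) ≤ 1 := pow_le_one₀ (by norm_num) (by norm_num)
    linarith
  refine ⟨a1, a2, a3, a4, a5, a6, a7, a8, a9, a10, a11, ?_⟩
  have t1 : Tendsto (fun m : ℕ => m / d) atTop atTop := by
    refine tendsto_atTop_atTop.2 fun b => ⟨b * d, fun m hm => ?_⟩
    exact (Nat.le_div_iff_mul_le hd).2 hm
  have t2 : Tendsto (fun m : ℕ => (d : ℝ) * (2 * (1 / 2) ^ (m / d))) atTop (𝓝 0) := by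
    have h1 : Tendsto (fun k : ℕ => (d : ℝ) * (2 * (1 / 2) ^ k)) atTop (𝓝 ((d : ℝ) * (2 * 0))) :=
      ((tendsto_pow_atTop_nhds_zero_of_lt_one (by norm_num) (by norm_num)).const_mul 2).const_mul _
    rw [mul_zero, mul_zero] at h1
    exact h1.comp t1
  refine squeeze_zero (fun m => (a7 m).le) (fun m => ?_) t2
  unfold vv
  calc ∑ i : Fin d, RR d m i ≤ ∑ _i : Fin d, 2 * (1 / 2 : ℝ) ^ (m / d) := by
        refine Finset.sum_le_sum fun i _ => (rr_le _).trans ?_
        have := pow_le_pow_of_le_one (by norm_num : (0 : ℝ) ≤ 1 / 2) (by norm_num) (c3 m i)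
        linarith
    _ = (d : ℝ) * (2 * (1 / 2) ^ (m / d)) := by simp

end

end Pool.Agent.Lib.MP739abe.BN
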