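import Pool.Agent.Lib.MP_739abe_an.BN.Spec

/-!
MP_739abe_an, module TUA: the area of a tube.
-/

namespace Pool.Agent.Lib.MP739abe.BN

open Topology Filter Set Metric MeasureTheory Measure
open scoped ENNReal NNReal

noncomputable section

namespace TUAM

variable {d : ℕ}

lemma log_lip {a b c : ℝ} (hc : 0 < c) (ha : c ≤ a) (hb : c ≤ b) :
    |Real.log a - Real.log b| ≤ 1 / c * |a - b| := by
  have key : ∀ a b : ℝ, c ≤ a → c ≤ b → Real.log a - Real.log b ≤ 1 / c * |a - b| := by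
    intro a b ha hb
    have ha' : 0 < a := hc.trans_le ha
    have hb' : 0 < b := hc.trans_le hb
    rw [← Real.log_div ha'.ne' hb'.ne']
    calc Real.log (a / b) ≤ a / b - 1 := Real.log_le_sub_one_of_pos (div_pos ha' hb')
      _ = (a - b) / b := by field_simp
      _ ≤ |a - b| / b := by gcongr; exact le_abs_self _
      _ ≤ |a - b| / c := by gcongr
      _ = _ := by ring
  rw [abs_le]
  constructor
  · have := key b a hb ha
    rw [abs_sub_comm] at this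
    linarith
  · exact key a b ha hb

lemma unit_lip {u v : H d} {c : ℝ} (hc : 0 < c) (hu : c ≤ ‖u‖) (hv : c ≤ ‖v‖) :
    ‖‖u‖⁻¹ • u - ‖v‖⁻¹ • v‖ ≤ 2 / c * ‖u - v‖ := by
  have hu' : 0 < ‖u‖ := hc.trans_le hu
  have hv' : 0 < ‖v‖ := hc.trans_le hv
  have e : ‖u‖⁻¹ • u - ‖v‖⁻¹ • v = ‖u‖⁻¹ • (u - v) + (‖u‖⁻¹ - ‖v‖⁻¹) • v := by
    rw [smul_sub, sub_smul]; abel
  have h1 : ‖u‖⁻¹ ≤ c⁻¹ := inv_anti₀ hc hu
  rw [e]
  refine (norm_add_le _ _).trans ?_
  rw [norm_smul, norm_smul, Real.norm_eq_abs, Real.norm_eq_abs, abs_of_pos (inv_pos.2 hu')]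
  have e2 : |‖u‖⁻¹ - ‖v‖⁻¹| * ‖v‖ = ‖u‖⁻¹ * |‖v‖ - ‖u‖| := by
    have : ‖u‖⁻¹ - ‖v‖⁻¹ = ‖u‖⁻¹ * ‖v‖⁻¹ * (‖v‖ - ‖u‖) := by field_simp
    rw [this, abs_mul, abs_of_pos (by positivity)]
    field_simp
  rw [e2]
  have h2 : |‖v‖ - ‖u‖| ≤ ‖u - v‖ := by
    rw [norm_sub_rev]; exact abs_norm_sub_norm_le _ _
  calc ‖u‖⁻¹ * ‖u - v‖ + ‖u‖⁻¹ * |‖v‖ - ‖u‖| ≤ c⁻¹ * ‖u - v‖ + c⁻¹ * ‖u - v‖ := by gcongr
    _ = _ := by ring

/-- the floor map of a tube -/
def F (r l h : ℝ) (c S e : H d) (y : H d) : V d := TB r l h c S e ((y, 0) : V d)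

lemma F_fst (r l h : ℝ) (c S e : H d) (y : H d) : (F r l h c S e y).1 =
    c - (r * (Real.log ‖y - e‖ - l)) • S + r • ‖y - e‖⁻¹ • (y - e) := by
  show c - (r * (Real.log (0 + ‖y - e‖) - l)) • S + r • (0 + ‖y - e‖)⁻¹ • (y - e) = _
  rw [zero_add]

lemma F_snd (r l h : ℝ) (c S e : H d) (y : H d) : (F r l h c S e y).2 =
    h + r * (Real.log ‖y - e‖ - l) := by
  show h + r * (Real.log (0 + ‖y - e‖) - l) = _
  rw [zero_add]

lemma F_lip {r l h t : ℝ} {c S e : H d} (hr : 0 < r) (hS : ‖S‖ ≤ 1) (ht : 0 < t) {y z : H d}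
    (hy : t ≤ ‖y - e‖) (hz : t ≤ ‖z - e‖) :
    dist (F r l h c S e y) (F r l h c S e z) ≤ 3 * r / t * ‖y - z‖ := by
  have h1 := log_lip ht hy hz
  have h2 : |‖y - e‖ - ‖z - e‖| ≤ ‖y - z‖ := by
    refine (abs_norm_sub_norm_le _ _).trans (le_of_eq ?_)
    congr 1
    abel
  have h3 : |Real.log ‖y - e‖ - Real.log ‖z - e‖| ≤ 1 / t * ‖y - z‖ :=
    h1.trans (by gcongr)
  have h4 := unit_lip ht hy hz
  have e4 : y - e - (z - e) = y - z := by abel
  rw [e4] at h4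
  have h0 := norm_nonneg (y - z)
  have hD : 0 ≤ r * (1 / t * ‖y - z‖) := by positivity
  rw [Prod.dist_eq]
  apply max_le
  · rw [dist_eq_norm, F_fst, F_fst]
    have e1 : c - (r * (Real.log ‖y - e‖ - l)) • S + r • ‖y - e‖⁻¹ • (y - e) -
        (c - (r * (Real.log ‖z - e‖ - l)) • S + r • ‖z - e‖⁻¹ • (z - e)) =
        (-(r * (Real.log ‖y - e‖ - Real.log ‖z - e‖))) • S +
          r • (‖y - e‖⁻¹ • (y - e) - ‖z - e‖⁻¹ • (z - e)) := by
      generalize Real.log ‖y - e‖ = A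
      generalize Real.log ‖z - e‖ = B
      rw [smul_sub]
      module
    rw [e1]
    refine (norm_add_le _ _).trans ?_
    rw [norm_smul, norm_smul, Real.norm_eq_abs, Real.norm_eq_abs, abs_neg, abs_mul,
      abs_of_pos hr]
    calc r * |Real.log ‖y - e‖ - Real.log ‖z - e‖| * ‖S‖ +
          r * ‖‖y - e‖⁻¹ • (y - e) - ‖z - e‖⁻¹ • (z - e)‖
        ≤ r * (1 / t * ‖y - z‖) * 1 + r * (2 / t * ‖y - z‖) := by gcongr
      _ = _ := by ring
  · rw [Real.dist_eq, F_snd, F_snd]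
    have e1 : h + r * (Real.log ‖y - e‖ - l) - (h + r * (Real.log ‖z - e‖ - l)) =
        r * (Real.log ‖y - e‖ - Real.log ‖z - e‖) := by ring
    rw [e1, abs_mul, abs_of_pos hr]
    calc r * |Real.log ‖y - e‖ - Real.log ‖z - e‖| ≤ r * (1 / t * ‖y - z‖) := by gcongr
      _ ≤ _ := by
        have : 3 * r / t * ‖y - z‖ = 3 * (r * (1 / t * ‖y - z‖)) := by ring
        rw [this]; linarith

/-- the constant of `toLp` -/
def LC (d : ℕ) : ℝ≥0 := (Fintype.card (Fin d) : ℝ≥0) ^ (1 / (2 : ℝ≥0∞)).toReal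

/-- one shell -/
lemma shell {r l h t : ℝ} {c S e : H d} (hr : 0 < r) (hS : ‖S‖ ≤ 1) (ht : 0 < t) :
    μH[(d : ℝ)] (F r l h c S e '' {y | t / 2 ≤ ‖y - e‖ ∧ ‖y - e‖ ≤ t}) ≤
      ENNReal.ofReal ((12 * LC d) ^ d * r ^ d) := by
  set g : (Fin d → ℝ) → H d := fun u => e + t • WithLp.toLp 2 u with hg
  set T : Set (Fin d → ℝ) := {u | t / 2 ≤ ‖g u - e‖ ∧ ‖g u - e‖ ≤ t} with hT
  have hgd : ∀ u v, dist (g u) (g v) ≤ (t * LC d) * dist u v := by
    intro u v
    have h1 := (PiLp.lipschitzWith_toLp 2 (fun _ : Fin d => ℝ)).dist_le_mul u v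
    rw [hg]
    simp only [dist_add_left, dist_smul₀, Real.norm_eq_abs, abs_of_pos ht]
    calc t * dist (WithLp.toLp 2 u : H d) (WithLp.toLp 2 v) ≤ t * (LC d * dist u v) := by
          gcongr
          exact h1
      _ = _ := by ring
  have hTb : T ⊆ closedBall 0 1 := by
    intro u hu
    rw [mem_closedBall_zero_iff, pi_norm_le_iff_of_nonneg (by norm_num)]
    intro i
    have h1 := hu.2
    have e1 : g u - e = t • WithLp.toLp 2 u := by rw [hg]; simp
    rw [e1, norm_smul, Real.norm_eq_abs, abs_of_pos ht] at h1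
    have h2 : ‖(WithLp.toLp 2 u : H d)‖ ≤ 1 := by
      by_contra hc
      push Not at hc
      nlinarith
    exact (PiLp.norm_apply_le (WithLp.toLp 2 u : H d) i).trans h2
  have himg : F r l h c S e '' {y | t / 2 ≤ ‖y - e‖ ∧ ‖y - e‖ ≤ t} ⊆
      (F r l h c S e ∘ g) '' T := by
    rintro _ ⟨y, hy, rfl⟩
    have e1 : g (WithLp.ofLp (t⁻¹ • (y - e))) = y := by
      rw [hg]
      simp only [WithLp.toLp_ofLp, smul_smul, mul_inv_cancel₀ ht.ne', one_smul]
      abel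
    refine ⟨WithLp.ofLp (t⁻¹ • (y - e)), ?_, ?_⟩
    · show t / 2 ≤ ‖g _ - e‖ ∧ ‖g _ - e‖ ≤ t
      rw [e1]; exact hy
    · show F r l h c S e (g _) = _
      rw [e1]
  have hlip : LipschitzOnWith (Real.toNNReal (6 * r * LC d)) (F r l h c S e ∘ g) T := by
    apply LipschitzOnWith.of_dist_le_mul
    intro u hu v hv
    rw [Real.coe_toNNReal _ (by positivity)]
    have h1 := F_lip (l := l) (h := h) (c := c) hr hS (half_pos ht) hu.1 hv.1
    have h2 := hgd u v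
    rw [dist_eq_norm (g u) (g v)] at h2
    calc dist (F r l h c S e (g u)) (F r l h c S e (g v))
        ≤ 3 * r / (t / 2) * ‖g u - g v‖ := h1
      _ ≤ 3 * r / (t / 2) * ((t * LC d) * dist u v) := by gcongr
      _ = _ := by field_simp; ring
  have h1 := hlip.hausdorffMeasure_image_le (d := (d : ℝ)) (Nat.cast_nonneg d)
  have h2 : μH[(d : ℝ)] T ≤ ENNReal.ofReal (2 ^ d) := by
    have e1 : (μH[(d : ℝ)] : Measure (Fin d → ℝ)) = volume := by
      have := hausdorffMeasure_pi_real (ι := Fin d)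
      rwa [Fintype.card_fin] at this
    rw [e1]
    refine (measure_mono hTb).trans (le_of_eq ?_)
    rw [Real.volume_pi_closedBall _ (by norm_num)]
    simp
  refine (measure_mono himg).trans (h1.trans ?_)
  calc ((6 * r * LC d : ℝ).toNNReal : ℝ≥0∞) ^ (d : ℝ) * μH[(d : ℝ)] T
      ≤ ENNReal.ofReal ((6 * r * LC d) ^ d) * ENNReal.ofReal (2 ^ d) := by
        gcongr
        rw [ENNReal.rpow_natCast, ENNReal.ofReal_pow (by positivity)]
        rfl
    _ = ENNReal.ofReal ((6 * r * LC d) ^ d * 2 ^ d) := by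
        rw [ENNReal.ofReal_mul (by positivity)]
    _ = _ := by
        congr 1
        rw [← mul_pow, ← mul_pow]
        congr 1
        ring

end TUAM

open TUAM in
theorem specTUA : SpecTUA := by
  intro d
  refine ⟨2 * (12 * LC d) ^ d, by positivity, ?_⟩
  intro r l h ρ θ c S e hr hS hρ hθ
  have hθ0 : 0 < θ := hρ.trans hθ
  have hlog0 : 0 < Real.log (θ / ρ) := Real.log_pos ((one_lt_div hρ).2 hθ)
  set N : ℕ := ⌈Real.log (θ / ρ) / Real.log 2⌉₊ with hN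
  have hN1 : Real.log (θ / ρ) / Real.log 2 ≤ N := Nat.le_ceil _
  have hl2 : (1 / 2 : ℝ) < Real.log 2 := by
    have := Real.log_two_gt_d9
    linarith
  have hN2 : (N : ℝ) ≤ 2 * (1 + Real.log (θ / ρ)) := by
    have h1 := (Nat.ceil_lt_add_one (div_nonneg hlog0.le (by linarith : (0:ℝ) ≤ Real.log 2))).le
    rw [← hN] at h1
    have h2 : Real.log (θ / ρ) / Real.log 2 ≤ 2 * Real.log (θ / ρ) := by
      rw [div_le_iff₀ (by linarith)]
      nlinarith
    linarith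
  have hpow : θ / 2 ^ N ≤ ρ := by
    rw [div_le_iff₀ (by positivity)]
    have h1 : Real.log (θ / ρ) ≤ N * Real.log 2 := by
      rwa [div_le_iff₀ (by linarith)] at hN1
    have h2 : θ / ρ ≤ 2 ^ N := by
      have h3 := Real.exp_le_exp.2 h1
      rw [Real.exp_log (by positivity)] at h3
      refine h3.trans (le_of_eq ?_)
      rw [Real.exp_nat_mul, Real.exp_log (by norm_num)]
    rw [div_le_iff₀ hρ] at h2
    linarith
  have hcov : (fun y : H d => TB r l h c S e ((y, 0) : V d)) ''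
      {y | ρ ≤ ‖y - e‖ ∧ ‖y - e‖ ≤ θ} ⊆
      ⋃ j ∈ Finset.range N, F r l h c S e '' {y | θ / 2 ^ j / 2 ≤ ‖y - e‖ ∧
        ‖y - e‖ ≤ θ / 2 ^ j} := by
    rintro _ ⟨y, ⟨h1, h2⟩, rfl⟩
    have hNpos : N ≠ 0 := by
      intro h0
      rw [h0, pow_zero, div_one] at hpow
      linarith
    have hex : ∃ j, θ / 2 ^ j / 2 ≤ ‖y - e‖ := by
      refine ⟨N - 1, ?_⟩
      have : θ / 2 ^ (N - 1) / 2 = θ / 2 ^ N := by
        rw [div_div, ← pow_succ, Nat.sub_add_cancel (Nat.one_le_iff_ne_zero.2 hNpos)]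
      rw [this]; linarith
    classical
    have hj := Nat.find_spec hex
    have hjle : Nat.find hex ≤ N - 1 := by
      apply Nat.find_min'
      have : θ / 2 ^ (N - 1) / 2 = θ / 2 ^ N := by
        rw [div_div, ← pow_succ, Nat.sub_add_cancel (Nat.one_le_iff_ne_zero.2 hNpos)]
      rw [this]; linarith
    rw [mem_iUnion₂]
    refine ⟨Nat.find hex, Finset.mem_range.2 (by omega), y, ⟨hj, ?_⟩, rfl⟩
    rcases Nat.eq_zero_or_pos (Nat.find hex) with h0 | h0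
    · rw [h0, pow_zero, div_one]; exact h2
    · have h3 := Nat.find_min hex (Nat.sub_lt h0 one_pos)
      push Not at h3
      have h4 : θ / 2 ^ (Nat.find hex - 1) / 2 = θ / 2 ^ Nat.find hex := by
        rw [div_div, ← pow_succ, Nat.sub_add_cancel h0]
      rw [h4] at h3
      exact h3.le
  calc μH[(d : ℝ)] _ ≤ _ := measure_mono hcov
    _ ≤ ∑ j ∈ Finset.range N, μH[(d : ℝ)] (F r l h c S e '' {y | θ / 2 ^ j / 2 ≤ ‖y - e‖ ∧
        ‖y - e‖ ≤ θ / 2 ^ j}) := measure_biUnion_finset_le _ _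
    _ ≤ ∑ _j ∈ Finset.range N, ENNReal.ofReal ((12 * LC d) ^ d * r ^ d) :=
        Finset.sum_le_sum fun j _ => shell hr hS (by positivity)
    _ = ENNReal.ofReal (N * ((12 * LC d) ^ d * r ^ d)) := by
        rw [Finset.sum_const, Finset.card_range, nsmul_eq_mul,
          ENNReal.ofReal_mul (p := (N : ℝ)) (by positivity), ENNReal.ofReal_natCast]
    _ ≤ _ := by
        apply ENNReal.ofReal_le_ofReal
        calc (N : ℝ) * ((12 * LC d) ^ d * r ^ d)
            ≤ (2 * (1 + Real.log (θ / ρ))) * ((12 * LC d) ^ d * r ^ d) := by gcongr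
          _ = _ := by ring

end

end Pool.Agent.Lib.MP739abe.BN
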