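import Pool.Agent.Lib.MP_739abe_an.BN.Spec

/-!
MP_739abe_an, module TUB: the tubes.
-/

namespace Pool.Agent.Lib.MP739abe.BN

open Topology Filter Set Metric MeasureTheory Measure
open scoped ENNReal NNReal

noncomputable section

namespace TUBM

variable {d : ℕ}

lemma q_ne {P : PP d} (s : St P) : s.q ≠ 0 := norm_pos_iff.1 s.q_pos

lemma coord_le (x : H d) (i : Fin d) : |x i| ≤ ‖x‖ := by
  have := PiLp.norm_apply_le x i
  rwa [Real.norm_eq_abs] at this

lemma th_le {P : PP d} (s : St P) : s.th ≤ 1 / 8 := by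
  have := s.q_le
  unfold St.th; linarith

lemma w_le {P : PP d} (s : St P) : s.w ≤ (1 / 16 : ℝ) ^ s.m / 8 := by
  have h1 := s.hwm
  have h2 : (0 : ℝ) ≤ (1 / 16) ^ s.m := by positivity
  have h3 := P.ε_le
  calc s.w ≤ P.ε / 8 * (1 / 16) ^ s.m := h1
    _ ≤ 1 / 8 * (1 / 16) ^ s.m := by gcongr
    _ = _ := by ring

variable [NeZero d]

section

variable {P : PP d} (s : St P)

lemma a_pos (hSEQ : SpecSEQ) : 0 < s.a := (hSEQ d).1 s.m

lemma w_le_a (hSEQ : SpecSEQ) : 4 * s.w ≤ s.a := by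
  have h := (hSEQ d).2.2.2.2.2.2.2.2.2.1 s.m
  have := w_le s
  unfold St.a
  linarith

lemma rho_lt (hSEQ : SpecSEQ) : s.rho < s.th := by
  have h1 := a_pos s hSEQ
  have h2 := s.hw
  have h3 := s.th_pos
  have h4 := s.q_pos
  have h5 : 0 < (s.a + s.w * ‖s.q‖) / (s.w * s.th) := by positivity
  have h6 : Real.exp (-((s.a + s.w * ‖s.q‖) / (s.w * s.th))) < 1 := by
    rw [Real.exp_lt_one_iff]; linarith
  unfold St.rho
  nlinarith

lemma log_rho : Real.log s.rho - Real.log s.th = -((s.a + s.w * ‖s.q‖) / (s.w * s.th)) := by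
  unfold St.rho
  rw [Real.log_mul s.th_pos.ne' (Real.exp_pos _).ne', Real.log_exp]
  ring

lemma r_log_rho : s.w * s.th * (Real.log s.rho - Real.log s.th) = -(s.a + s.w * ‖s.q‖) := by
  rw [log_rho]
  have h2 := s.hw
  have h3 := s.th_pos
  field_simp

lemma sgn_cases : s.sgn = 1 ∨ s.sgn = -1 := by
  unfold St.sgn; split_ifs <;> simp

lemma abs_sgn : |s.sgn| = 1 := by
  rcases sgn_cases s with h | h <;> simp [h]

lemma sgn_sq : s.sgn * s.sgn = 1 := by
  rcases sgn_cases s with h | h <;> simp [h]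

lemma sgn_mul : 0 ≤ s.sgn * s.q (dm d s.m) := by
  unfold St.sgn
  split_ifs with h
  · simpa using h
  · push Not at h
    linarith

lemma norm_A (hSEQ : SpecSEQ) (b : Bool) : ‖s.A b‖ = s.a := by
  unfold St.A
  rw [norm_smul, PiLp.norm_single, Real.norm_eq_abs, abs_mul, abs_mul, abs_sgn,
    abs_of_pos (a_pos s hSEQ)]
  cases b <;> simp

lemma A_apply (b : Bool) (i : Fin d) : s.A b i =
    if i = dm d s.m then (if b then 1 else -1) * s.sgn * s.a else 0 := by
  unfold St.A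
  simp only [PiLp.smul_apply, PiLp.single_apply, smul_eq_mul]
  split_ifs <;> simp

lemma norm_S (hSEQ : SpecSEQ) (hNOD : SpecNOD) (b : Bool) : ‖s.S b‖ ≤ 1 := by
  have h1 := a_pos s hSEQ
  have h2 := s.hw
  have h4 := s.q_pos
  have h5 : 0 < s.a + s.w * ‖s.q‖ := by positivity
  have h6 := (hNOD d s.q (q_ne s) s.q_le).2.2.1 b
  unfold St.S
  rw [norm_smul, Real.norm_eq_abs, abs_of_pos (inv_pos.2 h5), inv_mul_le_iff₀ h5, mul_one]
  calc ‖s.A b - s.w • mp s.q b‖ ≤ ‖s.A b‖ + ‖s.w • mp s.q b‖ := norm_sub_le _ _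
    _ = s.a + s.w * ‖mp s.q b‖ := by
        rw [norm_A s hSEQ, norm_smul, Real.norm_eq_abs, abs_of_pos h2]
    _ ≤ _ := by gcongr

/-- the vertical coordinate of the tube -/
def LL (t : ℝ) : ℝ := s.w * s.th * (Real.log t - Real.log s.th)

lemma tube_fst (b : Bool) (x : V d) : (s.tube b x).1 =
    s.w • mp s.q b - (LL s (x.2 + ‖x.1 - mp s.q b‖)) • s.S b +
      (s.w * s.th) • (x.2 + ‖x.1 - mp s.q b‖)⁻¹ • (x.1 - mp s.q b) := rfl

lemma tube_snd (b : Bool) (x : V d) : (s.tube b x).2 =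
    s.w * (‖s.q‖ + s.th) + LL s (x.2 + ‖x.1 - mp s.q b‖) := rfl

lemma LL_ge {t : ℝ} (h1 : s.rho ≤ t) : -(s.a + s.w * ‖s.q‖) ≤ LL s t := by
  have hw := s.hw
  have ht := s.th_pos
  have hr := s.rho_pos
  rw [← r_log_rho]
  unfold LL
  have : Real.log s.rho ≤ Real.log t := Real.log_le_log hr h1
  gcongr

lemma LL_gt {t : ℝ} (h1 : s.rho < t) : -(s.a + s.w * ‖s.q‖) < LL s t := by
  have hw := s.hw
  have ht := s.th_pos
  have hr := s.rho_pos
  rw [← r_log_rho]
  unfold LL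
  have : Real.log s.rho < Real.log t := Real.log_lt_log hr h1
  gcongr

lemma LL_le {t : ℝ} (h1 : s.rho ≤ t) (h2 : t ≤ s.th) : LL s t ≤ 0 := by
  have hw := s.hw
  have ht := s.th_pos
  have hr := s.rho_pos
  have : Real.log t ≤ Real.log s.th := Real.log_le_log (hr.trans_le h1) h2
  unfold LL
  have h3 : 0 < s.w * s.th := by positivity
  nlinarith

lemma rad_le {x : V d} (hx : 0 ≤ x.2) {e : H d} (ht : 0 < x.2 + ‖x.1 - e‖) :
    ‖(x.2 + ‖x.1 - e‖)⁻¹ • (x.1 - e)‖ ≤ 1 := by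
  rw [norm_smul, Real.norm_eq_abs, abs_of_pos (inv_pos.2 ht), inv_mul_le_iff₀ ht]
  linarith

/-- the shape of a point of a tube -/
lemma shape (hSEQ : SpecSEQ) (b : Bool) {x : V d} (hx : 0 ≤ x.2)
    (h1 : s.rho ≤ x.2 + ‖x.1 - mp s.q b‖) (h2 : x.2 + ‖x.1 - mp s.q b‖ ≤ s.th) :
    ∃ lam : ℝ, 0 ≤ lam ∧ lam ≤ 1 ∧ ∃ v : H d, ‖v‖ ≤ s.w * s.th ∧
      (s.tube b x).1 = ((1 - lam) * s.w) • mp s.q b + lam • s.A b + v := by
  have ha := a_pos s hSEQ
  have hw := s.hw
  have hq := s.q_pos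
  have hD : 0 < s.a + s.w * ‖s.q‖ := by positivity
  set t := x.2 + ‖x.1 - mp s.q b‖ with ht
  have ht0 : 0 < t := s.rho_pos.trans_le h1
  refine ⟨-LL s t / (s.a + s.w * ‖s.q‖), ?_, ?_, (s.w * s.th) • t⁻¹ • (x.1 - mp s.q b), ?_, ?_⟩
  · have := LL_le s h1 h2
    apply div_nonneg _ hD.le
    linarith
  · rw [div_le_one hD]
    have := LL_ge s h1
    linarith
  · have h3 := rad_le hx (e := mp s.q b) (by rw [← ht]; exact ht0)
    rw [← ht] at h3
    rw [norm_smul, Real.norm_eq_abs, abs_of_pos (mul_pos hw s.th_pos)]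
    have : 0 < s.w * s.th := mul_pos hw s.th_pos
    nlinarith
  · rw [tube_fst, ← ht]
    congr 1
    unfold St.S
    have e : LL s t • (s.a + s.w * ‖s.q‖)⁻¹ • (s.A b - s.w • mp s.q b) =
        (LL s t / (s.a + s.w * ‖s.q‖)) • s.A b -
          (LL s t / (s.a + s.w * ‖s.q‖) * s.w) • mp s.q b := by
      rw [smul_smul, smul_sub, smul_smul, div_eq_mul_inv]
    rw [e]
    have e2 : -LL s t / (s.a + s.w * ‖s.q‖) = -(LL s t / (s.a + s.w * ‖s.q‖)) := by ring
    rw [e2]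
    generalize LL s t / (s.a + s.w * ‖s.q‖) = g
    module

lemma half_lt {b : Bool} {x : V d} (hx : 0 ≤ x.2) (h : x.2 + ‖x.1 - mp s.q b‖ ≤ s.th) :
    ‖x.1 - mp s.q b‖ < ‖s.q‖ / 2 := by
  have := s.q_pos
  unfold St.th at h
  linarith

lemma at_th (hNOD : SpecNOD) (b : Bool) (x : V d) (hx : 0 ≤ x.2)
    (h : x.2 + ‖x.1 - mp s.q b‖ = s.th) : s.tube b x = s.w • W s.q x := by
  obtain ⟨n1, n2, n3, n4, n5, n6, n7, n8⟩ := hNOD d s.q (q_ne s) s.q_le
  have hth := s.th_pos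
  have hsd := n2 b x.1 (half_lt s hx h.le)
  have htau : tau s.q x = s.th := by
    unfold tau
    rw [n1, hsd, h]
  have hW := n5 x hx (by rw [htau]; have := s.q_pos; unfold St.th; linarith)
  have hL : LL s s.th = 0 := by unfold LL; ring
  rw [hW]
  ext1
  · rw [tube_fst, h, hL]
    show _ = s.w • x.1
    have : (s.w * s.th) • s.th⁻¹ • (x.1 - mp s.q b) = s.w • (x.1 - mp s.q b) := by
      rw [smul_smul]
      congr 1
      field_simp
    rw [this]
    module
  · rw [tube_snd, h, hL, htau, add_zero]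
    rfl

lemma sub_fst (b : Bool) (x : V d) : (s.sub b x).1 = (4 / s.rho) • (x.1 - mp s.q b) := rfl

lemma sub_snd (b : Bool) (x : V d) : (s.sub b x).2 = (4 / s.rho) * x.2 := rfl

lemma sub_size (b : Bool) (x : V d) : (s.sub b x).2 + ‖(s.sub b x).1‖ =
    (4 / s.rho) * (x.2 + ‖x.1 - mp s.q b‖) := by
  have := s.rho_pos
  rw [sub_fst, sub_snd, norm_smul, Real.norm_eq_abs, abs_of_pos (by positivity)]
  ring

lemma at_rho (hSEQ : SpecSEQ) (hNOD : SpecNOD) (b : Bool) (x : V d)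
    (h : x.2 + ‖x.1 - mp s.q b‖ = s.rho) :
    s.tube b x = (s.A b, -s.a) + (s.ch b).w • W (s.ch b).q (s.sub b x) := by
  obtain ⟨n1, n2, n3, n4, n5, n6, n7, n8⟩ := hNOD d (s.ch b).q (q_ne _) (s.ch b).q_le
  have hr := s.rho_pos
  have ha := a_pos s hSEQ
  have hw := s.hw
  have hq := s.q_pos
  have hD : 0 < s.a + s.w * ‖s.q‖ := by positivity
  have hs : (s.sub b x).2 + ‖(s.sub b x).1‖ = 4 := by
    rw [sub_size, h]; field_simp
  have hL : LL s s.rho = -(s.a + s.w * ‖s.q‖) := r_log_rho s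
  have hw' : (s.ch b).w = s.w * s.th / 4 := by
    show s.w * (‖s.q‖ / 32) = _
    unfold St.th; ring
  rw [n6 _ hs, hw']
  ext1
  · rw [tube_fst, h, hL]
    show _ = s.A b + (s.w * s.th / 4) • (s.sub b x).1
    rw [sub_fst]
    have e1 : -(s.a + s.w * ‖s.q‖) • s.S b = -(s.A b - s.w • mp s.q b) := by
      unfold St.S
      rw [neg_smul, smul_smul, mul_inv_cancel₀ hD.ne', one_smul]
    rw [e1]
    have e2 : (s.w * s.th / 4) • (4 / s.rho) • (x.1 - mp s.q b) =
        (s.w * s.th) • s.rho⁻¹ • (x.1 - mp s.q b) := by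
      rw [smul_smul, smul_smul]
      congr 1
      field_simp
    rw [e2]
    abel
  · rw [tube_snd, h, hL]
    show _ = -s.a + s.w * s.th / 4 * 4
    ring

lemma bound (hSEQ : SpecSEQ) (hNOD : SpecNOD) (b : Bool) (x : V d) (hx : x ∈ UU d)
    (h1 : s.rho ≤ x.2 + ‖x.1 - mp s.q b‖) (h2 : x.2 + ‖x.1 - mp s.q b‖ ≤ s.th) :
    Bd s.m s.w (s.tube b x) := by
  obtain ⟨lam, l0, l1, v, hv, hf⟩ := shape s hSEQ b hx.1 h1 h2
  obtain ⟨q1, q2, q3, q4, q5, q6, q7, q8, q9, q10, q11, q12⟩ := hSEQ d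
  have hw := s.hw
  have ha := a_pos s hSEQ
  have hq := s.q_pos
  have hq1 := s.q_le
  have hth := th_le s
  have hth0 := s.th_pos
  have hwm := w_le s
  have hmp := (hNOD d s.q (q_ne s) s.q_le).2.2.1 b
  have hwt : s.w * s.th ≤ s.w / 8 := by nlinarith
  refine ⟨?_, ?_, ?_⟩
  · intro i
    rw [hf]
    have e : (((1 - lam) * s.w) • mp s.q b + lam • s.A b + v) i =
        (1 - lam) * s.w * mp s.q b i + lam * s.A b i + v i := rfl
    rw [e]
    have c1 : |mp s.q b i| ≤ 1 := (coord_le _ _).trans (hmp.trans hq1)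
    have c2 : |v i| ≤ s.w / 8 := (coord_le _ _).trans (hv.trans hwt)
    have c3 : |(1 - lam) * s.w * mp s.q b i| ≤ (1 - lam) * s.w := by
      rw [abs_mul, abs_of_nonneg (mul_nonneg (by linarith) hw.le)]
      have : 0 ≤ (1 - lam) * s.w := mul_nonneg (by linarith) hw.le
      nlinarith
    by_cases hi : i = dm d s.m
    · have c4 : |lam * s.A b i| ≤ lam * s.a := by
        rw [A_apply, if_pos hi, abs_mul, abs_of_nonneg l0, abs_mul, abs_mul, abs_sgn,
          abs_of_pos ha]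
        cases b <;> simp
      have c5 : s.a + RR d (s.m + 1) i = RR d s.m i := by rw [hi]; exact q4 s.m
      have c6 := q9 (s.m + 1) i
      have c7 : 4 * s.w ≤ s.a := w_le_a s hSEQ
      have c8 : s.w / 8 ≤ RR d (s.m + 1) i := by
        refine le_trans ?_ c6
        rw [pow_succ]
        have : (0 : ℝ) ≤ (1 / 16) ^ s.m := by positivity
        linarith
      calc |(1 - lam) * s.w * mp s.q b i + lam * s.A b i + v i|
          ≤ |(1 - lam) * s.w * mp s.q b i| + |lam * s.A b i| + |v i| :=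
            abs_add_three _ _ _
        _ ≤ (1 - lam) * s.w + lam * s.a + s.w / 8 := by gcongr
        _ ≤ (1 - lam) * s.a + lam * s.a + s.w / 8 := by
            have : (1 - lam) * s.w ≤ (1 - lam) * s.a :=
              mul_le_mul_of_nonneg_left (by linarith) (by linarith)
            linarith
        _ ≤ RR d s.m i := by linarith
    · have c4 : s.A b i = 0 := by rw [A_apply, if_neg hi]
      rw [c4, mul_zero, add_zero]
      have c6 := q9 s.m i
      calc |(1 - lam) * s.w * mp s.q b i + v i|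
          ≤ |(1 - lam) * s.w * mp s.q b i| + |v i| := abs_add_le _ _
        _ ≤ (1 - lam) * s.w + s.w / 8 := by gcongr
        _ ≤ RR d s.m i := by nlinarith
  · rw [tube_snd]
    have h3 := LL_ge s h1
    have h4 := q6 s.m
    have h5 := q7 (s.m + 1)
    have h6 : 0 < s.w * s.th := mul_pos hw hth0
    have h7 : s.a = aa d s.m := rfl
    nlinarith
  · rw [tube_snd]
    have h3 := LL_le s h1 h2
    nlinarith

/-- the separating vector -/
def vs : H d := s.q + (‖s.q‖ * s.sgn) • EuclideanSpace.single (dm d s.m) (1 : ℝ)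

lemma norm_vs : ‖vs s‖ ≤ 2 * ‖s.q‖ := by
  unfold vs
  refine (norm_add_le _ _).trans ?_
  rw [norm_smul, PiLp.norm_single, Real.norm_eq_abs, abs_mul, abs_sgn]
  simp
  linarith

lemma inner_q_vs : inner ℝ s.q (vs s) = ‖s.q‖ * (‖s.q‖ + s.sgn * s.q (dm d s.m)) := by
  unfold vs
  rw [inner_add_right, real_inner_self_eq_norm_sq, inner_smul_right,
    EuclideanSpace.inner_single_right]
  simp
  ring

lemma inner_u_vs : inner ℝ (EuclideanSpace.single (dm d s.m) (1 : ℝ)) (vs s) =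
    s.q (dm d s.m) + ‖s.q‖ * s.sgn := by
  unfold vs
  rw [inner_add_right, inner_smul_right, EuclideanSpace.inner_single_left,
    EuclideanSpace.inner_single_left]
  simp

lemma inner_A_vs (b : Bool) : inner ℝ (s.A b) (vs s) =
    (if b then 1 else -1) * s.a * (‖s.q‖ + s.sgn * s.q (dm d s.m)) := by
  unfold St.A
  rw [real_inner_smul_left, inner_u_vs]
  have h := sgn_sq s
  have : s.sgn * (s.q (dm d s.m) + ‖s.q‖ * s.sgn) = ‖s.q‖ + s.sgn * s.q (dm d s.m) := by
    calc s.sgn * (s.q (dm d s.m) + ‖s.q‖ * s.sgn) = s.sgn * s.q (dm d s.m) +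
        ‖s.q‖ * (s.sgn * s.sgn) := by ring
      _ = _ := by rw [h]; ring
  calc _ = (if b then 1 else -1) * s.a * (s.sgn * (s.q (dm d s.m) + ‖s.q‖ * s.sgn)) := by ring
    _ = _ := by rw [this]

lemma inner_v (v : H d) (hv : ‖v‖ ≤ s.w * s.th) :
    |inner ℝ v (vs s)| ≤ s.w * ‖s.q‖ * ‖s.q‖ / 4 := by
  refine (abs_real_inner_le_norm _ _).trans ?_
  have h1 := norm_vs s
  have hw := s.hw
  have hth := s.th_pos
  have hq := s.q_pos
  calc ‖v‖ * ‖vs s‖ ≤ (s.w * s.th) * (2 * ‖s.q‖) := by gcongr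
    _ = _ := by unfold St.th; ring

lemma separate (hSEQ : SpecSEQ) (x : V d) (hx : x ∈ UU d) (y : V d) (hy : y ∈ UU d)
    (h1 : s.rho ≤ x.2 + ‖x.1 - mp s.q true‖) (h2 : x.2 + ‖x.1 - mp s.q true‖ ≤ s.th)
    (h3 : s.rho ≤ y.2 + ‖y.1 - mp s.q false‖) (h4 : y.2 + ‖y.1 - mp s.q false‖ ≤ s.th) :
    s.tube true x ≠ s.tube false y := by
  obtain ⟨lam, l0, l1, v, hv, hf⟩ := shape s hSEQ true hx.1 h1 h2
  obtain ⟨mu, m0, m1, v', hv', hf'⟩ := shape s hSEQ false hy.1 h3 h4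
  intro he
  have hw := s.hw
  have hq := s.q_pos
  have hq1 := s.q_le
  have ha := a_pos s hSEQ
  have hwa := w_le_a s hSEQ
  have hc := sgn_mul s
  set c := s.sgn * s.q (dm d s.m) with hcdef
  have i1 : inner ℝ (s.tube true x).1 (vs s) = inner ℝ (s.tube false y).1 (vs s) := by rw [he]
  rw [hf, hf'] at i1
  have e1 : mp s.q true = s.q := rfl
  have e2 : mp s.q false = 0 := rfl
  rw [e1, e2, smul_zero, zero_add, inner_add_left, inner_add_left, inner_add_left,
    real_inner_smul_left, real_inner_smul_left, real_inner_smul_left, inner_q_vs, inner_A_vs,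
    inner_A_vs, ← hcdef] at i1
  simp only [if_true, Bool.false_eq_true, if_false] at i1
  have j1 := (abs_le.1 (inner_v s v hv)).1
  have j2 := (abs_le.1 (inner_v s v' hv')).2
  set η := ‖s.q‖ with hη
  have hE : 0 < η + c := by linarith
  have k1 : s.w * η * η ≤ s.w * η * (η + c) := by
    have : 0 ≤ s.w * η := by positivity
    nlinarith
  have k2 : s.w * η ≤ s.a := by nlinarith
  have k3 : s.w * η ≤ (1 - lam) * s.w * η + lam * s.a := by nlinarith
  have k4 : s.w * η * (η + c) ≤ ((1 - lam) * s.w * η + lam * s.a) * (η + c) :=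
    mul_le_mul_of_nonneg_right k3 hE.le
  have k5 : 0 ≤ mu * (s.a * (η + c)) := by positivity
  have k6 : 0 < s.w * η * (η + c) := by positivity
  nlinarith

end

end TUBM

open TUBM in
theorem specTUB (hSEQ : SpecSEQ) (hNOD : SpecNOD) : SpecTUB := by
  intro d _ P s
  have hr := rho_lt s hSEQ
  refine ⟨hr, ?_, norm_S s hSEQ hNOD, norm_A s hSEQ, at_th s hNOD, at_rho s hSEQ hNOD, ?_, ?_,
    bound s hSEQ hNOD, ?_⟩
  · have := th_le s
    linarith
  · intro b x h1 h2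
    rw [tube_snd]
    have h3 := LL_ge s h1
    have h4 := LL_le s h1 h2
    constructor <;> nlinarith
  · intro b x h1
    rw [tube_snd]
    have h3 := LL_gt s h1
    nlinarith
  · intro x hx y hy h1 h2 h3 h4
    exact separate s hSEQ x hx y hy h1 h2 h3 h4

end

end Pool.Agent.Lib.MP739abe.BN
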