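import Pool.Agent.Lib.MP_739abe_an.BN.Spec
import Pool.Agent.Lib.MP_739abe_an.BN.SEQ
import Pool.Agent.Lib.MP_739abe_an.BN.MAP
import Pool.Agent.Lib.MP_739abe_an.BN.NOD
import Pool.Agent.Lib.MP_739abe_an.BN.TUB
import Pool.Agent.Lib.MP_739abe_an.BN.LIM
import Pool.Agent.Lib.MP_739abe_an.BN.CONT
import Pool.Agent.Lib.MP_739abe_an.BN.INJ
import Pool.Agent.Lib.MP_739abe_an.BN.LOC
import Pool.Agent.Lib.MP_739abe_an.BN.CAN
import Pool.Agent.Lib.MP_739abe_an.BN.ATT
import Pool.Agent.Lib.MP_739abe_an.BN.NULL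
import Pool.Agent.Lib.MP_739abe_an.BN.TUA
import Pool.Agent.Lib.MP_739abe_an.BN.ARE
import Pool.Agent.Lib.MP_739abe_an.BN.BAL
import Pool.Agent.Lib.MP_739abe_an.BN.PER
import Pool.Agent.Lib.MP_739abe_an.BN.ROT
import Pool.Agent.Lib.MP_739abe_an.BN.FIN

/-!
MP_739abe_an, wave 24: assembly of the modules.
-/

namespace Pool.Agent.Lib.MP739abe.BN

theorem lim : SpecLIM := specLIM specSEQ specMAP specNOD (specTUB specSEQ specNOD)

theorem tub : SpecTUB := specTUB specSEQ specNOD

theorem con : SpecCON := specCON specMAP specNOD tub lim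

theorem inj : SpecINJ := specINJ specSEQ specMAP specNOD tub lim

theorem loc : SpecLOC := specLOC specMAP specNOD tub lim

theorem can : SpecCAN := specCAN specSEQ

theorem att : SpecATT := specATT specSEQ specNOD tub lim con

theorem nul : SpecNUL := specNUL specSEQ specNOD tub lim

theorem are : SpecARE := specARE specSEQ specMAP specNOD tub lim specTUA

theorem rot : SpecROT := specROT specBAL

theorem fin : SpecFIN :=
  specFIN specMAP lim con inj loc can att nul are specBAL specPER rot

end Pool.Agent.Lib.MP739abe.BN
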