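import Mathlib
import Pool.Agent.Lib.MP_739abe_an.BN.Spec

/-!
MP_739abe_an, module NUL: the points of the bottom come from the closure of `C`.
(The file is named `NULL` because Lean rejects the reserved file name `NUL`.)
-/

namespace Pool.Agent.Lib.MP739abe.BN

open Topology Filter Set Metric

noncomputable section

namespace NULM

variable {d : ℕ} {P : PP d}

lemma chp (s : St P) (b : Bool) : (s.ch b).p = s.p + s.R • mp s.q b := by
  have hR : s.R ≠ 0 := s.hR.ne'
  cases b
  · show (if false = true then s.Q else s.p) = _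
    simp [mp]
  · show (if true = true then s.Q else s.p) = _
    simp [mp, St.q, smul_smul, hR]

lemma chR (s : St P) (b : Bool) (x : V d) :
    (s.ch b).R • (s.sub b x).1 = s.R • (x.1 - mp s.q b) := by
  have h : s.rho ≠ 0 := s.rho_pos.ne'
  show (s.R * (s.rho / 4)) • ((4 / s.rho) • (x.1 - mp s.q b)) = _
  rw [smul_smul]
  congr 1
  field_simp

lemma sub_snd (s : St P) (b : Bool) (x : V d) : (s.sub b x).2 = 4 / s.rho * x.2 := rfl

lemma key [NeZero d] (hSEQ : SpecSEQ) (hNOD : SpecNOD) (hTUB : SpecTUB) (hL : LimFacts d P)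
    (k : ℕ) : ∀ (s : St P), ∀ x ∈ UU d, (GG s x).2 = -vv d s.m →
      x.2 ≤ 4 * (1 / 8) ^ k ∧ ∃ c ∈ P.C, ‖s.p + s.R • x.1 - c‖ ≤ 4 * s.R * (1 / 8) ^ k := by
  induction k with
  | zero =>
    intro s x hx _
    obtain ⟨h0, h4⟩ := hx
    have hn := norm_nonneg x.1
    refine ⟨by simpa using (by linarith : x.2 ≤ 4), s.p, s.hp, ?_⟩
    have : s.p + s.R • x.1 - s.p = s.R • x.1 := by abel
    rw [this, norm_smul, Real.norm_eq_abs, abs_of_pos s.hR, pow_zero, mul_one, mul_comm]
    exact mul_le_mul_of_nonneg_right (by linarith) s.hR.le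
  | succ k ih =>
    intro s x hx hG
    obtain ⟨q0, q1⟩ : s.q ≠ 0 ∧ ‖s.q‖ ≤ 1 := ⟨norm_pos_iff.1 s.q_pos, s.q_le⟩
    have hN := hNOD d s.q q0 q1
    have hS := hSEQ d
    have hT := hTUB d P s
    have hvpos : 0 < vv d s.m := hS.2.2.2.2.2.2.1 s.m
    have hvpos' : 0 < vv d (s.m + 1) := hS.2.2.2.2.2.2.1 (s.m + 1)
    have hvs : aa d s.m + vv d (s.m + 1) = vv d s.m := hS.2.2.2.2.2.1 s.m
    have htau : tau s.q x = x.2 + ‖x.1 - mp s.q (sd s.q x.1)‖ := by
      unfold tau; rw [hN.1]
    rcases le_total s.th (tau s.q x) with h | h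
    · exfalso
      rw [hL.A s x hx h] at hG
      have h1 := (hN.2.2.2.2.2.2.1 x hx).1
      have h2 : (s.w • W s.q x).2 = s.w * (W s.q x).2 := rfl
      rw [h2] at hG
      have := mul_nonneg s.hw.le h1
      linarith
    · rcases le_total s.rho (tau s.q x) with h' | h'
      · exfalso
        rw [hL.B s x hx h' h] at hG
        rw [htau] at h h'
        have h1 := (hT.2.2.2.2.2.2.1 (sd s.q x.1) x h' h).1
        have h2 := mul_pos s.hw s.th_pos
        have h3 : s.a = aa d s.m := rfl
        rw [h3] at h1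
        linarith
      · have hC := hL.C s x hx h'
        have hsub := hL.sub s x hx h'
        set b := sd s.q x.1 with hb
        rw [hC] at hG
        have hG' : (GG (s.ch b) (s.sub b x)).2 = -vv d (s.ch b).m := by
          have h3 : ((s.A b, -s.a) + GG (s.ch b) (s.sub b x) : V d).2
              = -aa d s.m + (GG (s.ch b) (s.sub b x)).2 := rfl
          rw [h3] at hG
          show _ = -vv d (s.m + 1)
          linarith
        obtain ⟨i1, c, hc, i2⟩ := ih (s.ch b) (s.sub b x) hsub hG'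
        have hrho := s.rho_pos
        have hrho2 : s.rho ≤ 1 / 2 := hT.2.1
        have hpk : (0 : ℝ) < (1 / 8) ^ k := by positivity
        refine ⟨?_, c, hc, ?_⟩
        · rw [sub_snd] at i1
          have e : x.2 = s.rho / 4 * (4 / s.rho * x.2) := by field_simp
          calc x.2 = s.rho / 4 * (4 / s.rho * x.2) := e
            _ ≤ s.rho / 4 * (4 * (1 / 8) ^ k) := mul_le_mul_of_nonneg_left i1 (by positivity)
            _ ≤ (1 / 2) / 4 * (4 * (1 / 8) ^ k) :=
                mul_le_mul_of_nonneg_right (by linarith) (by positivity)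
            _ = 4 * (1 / 8) ^ (k + 1) := by rw [pow_succ]; ring
        · rw [chR, chp] at i2
          have e : s.p + s.R • mp s.q b + s.R • (x.1 - mp s.q b) - c = s.p + s.R • x.1 - c := by
            rw [smul_sub]; abel
          rw [e] at i2
          refine i2.trans ?_
          have h5 : (s.ch b).R = s.R * (s.rho / 4) := rfl
          rw [h5]
          have hR := s.hR
          calc 4 * (s.R * (s.rho / 4)) * (1 / 8) ^ k
              ≤ 4 * (s.R * ((1 / 2) / 4)) * (1 / 8) ^ k := by gcongr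
            _ = 4 * s.R * (1 / 8) ^ (k + 1) := by rw [pow_succ]; ring

lemma tend (C : ℝ) : Tendsto (fun k : ℕ => C * (1 / 8 : ℝ) ^ k) atTop (𝓝 0) := by
  have := (tendsto_pow_atTop_nhds_zero_of_lt_one (r := (1 / 8 : ℝ)) (by norm_num)
    (by norm_num)).const_mul C
  simpa using this

end NULM

open NULM in
theorem specNUL (hSEQ : SpecSEQ) (hNOD : SpecNOD) (hTUB : SpecTUB) (hLIM : SpecLIM) : SpecNUL := by
  intro d _ P s x hx hG
  have hL := hLIM d P
  refine ⟨le_antisymm ?_ hx.1, ?_⟩
  · exact ge_of_tendsto' (tend 4) fun k => (key hSEQ hNOD hTUB hL k s x hx hG).1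
  · rw [Metric.mem_closure_iff]
    intro ε hε
    obtain ⟨k, hk⟩ := ((tend (4 * s.R)).eventually (gt_mem_nhds hε)).exists
    obtain ⟨_, c, hc, h⟩ := key hSEQ hNOD hTUB hL k s x hx hG
    exact ⟨c, hc, by rw [dist_eq_norm]; exact h.trans_lt hk⟩

end

end Pool.Agent.Lib.MP739abe.BN
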